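import Mathlib.RingTheory.Artinian.Instances
import Pool.Agent.MP_a43263_nt.VD.Basic
import Pool.Agent.MP_a43263_nt.GRep

-- ======== part 0: formerly Pool.Agent.MP_a43263_nt.VD.Spec
section MrgPart0

/-! THEOREM V, part D: the statements. Plan: `/team-store/VD_PLAN.md`. -/

set_option autoImplicit false

noncomputable section

namespace Pool.Agent.MP_a43263_nt.VD

open Polynomial JC
open UV (Qb)
open VV (GQ Od Wv Neg OdP SelT HStmt)

/-- the Galois action on classes -/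
abbrev act (f : ℚ[X]) {K : Type} [Field K] [CharZero K]
    (σ : AlgebraicClosure K ≃ₐ[K] AlgebraicClosure K) :
    Cx (fK f (AlgebraicClosure K)) →* Cx (fK f (AlgebraicClosure K)) :=
  cmap (σ : AlgebraicClosure K →+* AlgebraicClosure K) (fK_map f _)

/-- locally trivial cochains -/
def CLoc (f : ℚ[X]) (K : Type) [Field K] [CharZero K] (c : GQ → Cx (fK f Qb)) : Prop :=
  ∃ R : Cx (fK f (AlgebraicClosure K)), ∀ (σ : AlgebraicClosure K ≃ₐ[K] AlgebraicClosure K)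
    (τ : GQ), (∀ x, emb K (τ x) = σ (emb K x)) →
      cmap (emb K) (fK_map f _) (c τ) = act f σ R / R

/-- principal ideals and the points at infinity -/
def PRINStmt : Prop := ∀ (K : Type) [Field K] [CharZero K] (g : ℕ) (f : K[X]), Sv g f →
  (∀ v : Rg f, v ≠ 0 → ¬Bal v → ∃ c : K, c ^ 2 = f.leadingCoeff ∧
    dd (v * ⟨-(C c * X ^ (g + 1)), 1⟩) < dd v + (2 * g + 2 : ℕ)) ∧
  (∀ c : K, c ^ 2 = f.leadingCoeff → ∃ V : K[X], (f - V ^ 2).natDegree = 2 * g + 1) ∧
  ∀ V : K[X], (f - V ^ 2).natDegree = 2 * g + 1 → ∀ h : Rg f, h ≠ 0 →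
    cx (Ideal.span {h}) ∈ Subgroup.zpowers (cx (Ideal.span {(⟨-V, 1⟩ : Rg f)}))

/-- moving lemma -/
def MOVEStmt : Prop := ∀ (K : Type) [Field K] [CharZero K] (g : ℕ) (f : K[X]), Sv g f →
  ∀ (x : Cx f) (R : K[X]), R ≠ 0 →
    ∃ U V : K[X], U.Monic ∧ U ∣ f - V ^ 2 ∧ IsCoprime U R ∧ cx (MI f U V) = x

/-- invariant classes are rational -/
def RATStmt : Prop := ∀ (K : Type) [Field K] [CharZero K] (g : ℕ) (f : K[X])
  (F : (AlgebraicClosure K)[X]) (e : f.map (algebraMap K _) = F), Sv g f → ∀ x : Cx F,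
  (∀ (σ : AlgebraicClosure K ≃ₐ[K] AlgebraicClosure K)
    (e' : F.map (σ : AlgebraicClosure K →+* AlgebraicClosure K) = F), cmap _ e' x = x) →
  par x = g ∨ Od f → ∃ y : Cx f, cmap (algebraMap K _) e y = x

/-- even classes are divisible by two -/
def HALFStmt : Prop := ∀ (K : Type) [Field K] [CharZero K] [IsAlgClosed K] (g : ℕ) (f : K[X]),
  Sv g f → ∀ x : Cx f, par x = 0 → ∃ y, y ^ 2 = x

/-- halves and square roots, first part -/
def ZAStmt : Prop := ∀ (K : Type) [Field K] [CharZero K] [IsAlgClosed K] (g : ℕ) (f : K[X]),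
  Sv g f →
  (∀ x D ρ w, Z f x D ρ → Nu D w → x ^ 2 = cx D ∧ ∀ θ, f.eval θ = 0 → ρ θ ^ 2 = w.eval θ) ∧
  (∀ x D w, Nu D w → x ^ 2 = cx D → ∃ ρ, Z f x D ρ) ∧
  (∀ x D ρ x' D' ρ', Z f x D ρ → Z f x' D' ρ' → Z f (x * x') (D * D') fun θ => ρ θ * ρ' θ) ∧
  (∀ x D ρ, Z f x D ρ → Z f x⁻¹ (cj D) ρ) ∧
  (∀ x D ρ ρ' (η : K), Z f x D ρ → η ^ 2 = 1 → (∀ θ, f.eval θ = 0 → ρ' θ = η * ρ θ) → Z f x D ρ') ∧
  (∀ x D ρ ρ', Z f x D ρ → Z f x D ρ' →
    ∃ η : K, η ^ 2 = 1 ∧ ∀ θ, f.eval θ = 0 → ρ' θ = η * ρ θ) ∧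
  (∀ s : K[X], s.Monic → Z f 1 (PI f s) fun θ => s.eval θ) ∧
  ∀ (L : Type) [Field L] (φ : K →+* L) (F : L[X]) (e : f.map φ = F), ∀ x D ρ (ρ' : L → L),
    Z f x D ρ → (∀ θ, f.eval θ = 0 → ρ' (φ θ) = φ (ρ θ)) →
    Z F (cmap φ e x) (D.map (rmap φ e)) ρ'

/-- halves and square roots, second part: the 2-torsion -/
def ZBStmt : Prop := ∀ (K : Type) [Field K] [CharZero K] [IsAlgClosed K] (g : ℕ) (f : K[X]),
  Sv g f →
  (∀ x x' D ρ w, Nu D w → IsCoprime w f → Z f x D ρ → Z f x' D ρ → x = x') ∧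
  ∀ ε : K → K, (∀ θ, f.eval θ = 0 → ε θ ^ 2 = 1) → ∃ T, Z f T ⊤ ε

/-- divisor classes and ideal classes -/
def BRStmt : Prop := ∃ β : ∀ (K : Type) [Field K] (f : K[X]), VJ.Cls f → Cx f,
  ∀ (K : Type) [Field K] [CharZero K] [IsAlgClosed K] (g : ℕ) (f : K[X]), Sv g f →
    (∀ x y, β K f (x + y) = β K f x * β K f y) ∧ Function.Bijective (β K f) ∧
    (∀ x, x ∈ VJ.Deg0 f ↔ par (β K f x) = 0) ∧
    ∀ (L : Type) [Field L] [CharZero L] [IsAlgClosed L] (φ : K →+* L) (F : L[X]) (e : f.map φ = F)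
      (x : VJ.Cls f), β L F (VJ.cmap φ e x) = cmap φ e (β K f x)

/-- the sign of the norm -/
def NRMStmt : Prop := ∀ (g : ℕ) (f δ : ℚ[X]), Sv g f → Neg f →
  ¬∀ (p : ℕ) [Fact p.Prime], Wv (fK f ℚ_[p]) (fK δ ℚ_[p]) 1

/-- the real place -/
def REALStmt : Prop := ∀ (g : ℕ) (f : ℚ[X]), Sv g f → Neg f → ¬Od (fK f ℝ) ∧
  (Even g → ∃ P : Cx (fK f (AlgebraicClosure ℝ)), par P = 1 ∧
    ∀ σ : AlgebraicClosure ℝ ≃ₐ[ℝ] AlgebraicClosure ℝ, act f σ P = P)

/-- Galois theory of functions on the roots -/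
def GALStmt : Prop := (∀ (K : Type) [Field K] [CharZero K],
    (∃ res : (AlgebraicClosure K ≃ₐ[K] AlgebraicClosure K) → GQ, Continuous res ∧
      ∀ σ x, emb K (res σ x) = σ (emb K x)) ∧
    ∀ (f : K[X]) (F : (AlgebraicClosure K)[X]), f.map (algebraMap K _) = F → f.Separable →
      (∀ P : K[X], (∀ θ, F.eval θ = 0 → (P.map (algebraMap K _)).eval θ = 0) → f ∣ P) ∧
      (∀ P : K[X], IsCoprime P f ↔ ∀ θ, F.eval θ = 0 → (P.map (algebraMap K _)).eval θ ≠ 0) ∧
      (∀ z : AlgebraicClosure K → AlgebraicClosure K,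
        (∀ (σ : AlgebraicClosure K ≃ₐ[K] AlgebraicClosure K) θ, F.eval θ = 0 →
          σ (z θ) = z (σ θ)) →
        ∃ P : K[X], ∀ θ, F.eval θ = 0 → (P.map (algebraMap K _)).eval θ = z θ) ∧
      ∀ z : AlgebraicClosure K → AlgebraicClosure K,
        (∀ σ : AlgebraicClosure K ≃ₐ[K] AlgebraicClosure K, ∃ η : AlgebraicClosure K, η ^ 2 = 1 ∧
          ∀ θ, F.eval θ = 0 → σ (z θ) = η * z (σ θ)) →
        ∃ (r : K) (P : K[X]), r ≠ 0 ∧ ∀ θ, F.eval θ = 0 →
          z θ ^ 2 = algebraMap K _ r * (P.map (algebraMap K _)).eval θ ^ 2) ∧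
  ∀ (f : ℚ[X]) (u : GQ → Qb → Qb), f ≠ 0 → (∀ σ θ, (fK f Qb).eval θ = 0 → u σ θ ^ 2 = 1) →
    (∀ σ τ θ, (fK f Qb).eval θ = 0 → u (σ * τ) (σ θ) = u σ (σ θ) * u τ θ) →
    (∀ θ, (fK f Qb).eval θ = 0 → IsLocallyConstant fun σ => u σ θ) →
    ∃ r : Qb → Qb, ∀ θ, (fK f Qb).eval θ = 0 → r θ ≠ 0 ∧ ∀ σ : GQ, σ (r θ) = u σ (σ θ) * r (σ θ)

/-- the main step -/
def COREStmt : Prop := ∀ (g : ℕ) (f : ℚ[X]), Sv g f → Neg f → OdP f → SelT f →
  ∀ c : GQ → Cx (fK f Qb), IsLocallyConstant c → (∀ σ τ, c (σ * τ) = c σ * act f σ (c τ)) →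
  (∀ (p : ℕ) [Fact p.Prime], CLoc f ℚ_[p] c) → ∀ Y : Cx (fK f Qb),
  (∀ σ, c σ ^ 2 = act f σ Y / Y) → ∃ y, y ^ 2 = Y ∧ ∀ σ, c σ = act f σ y / y

theorem desc_of (prin : PRINStmt) (move : MOVEStmt) (rat : PRINStmt → RATStmt)
    (half : PRINStmt → HALFStmt) (za : MOVEStmt → ZAStmt) (zb : ZAStmt → ZBStmt) (br : BRStmt)
    (nrm : NRMStmt) (real : REALStmt) (gal : GALStmt)
    (core : MOVEStmt → RATStmt → HALFStmt → ZAStmt → ZBStmt → NRMStmt → GALStmt → HStmt → COREStmt)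
    (fin : RATStmt → BRStmt → REALStmt → COREStmt → VV.DESCStmt) (H : HStmt) :
    VV.DESCStmt :=
  fin (rat prin) br real (core move (rat prin) (half prin) (za move) (zb (za move)) nrm gal H)

end Pool.Agent.MP_a43263_nt.VD

end
end MrgPart0

-- ======== part 1: formerly Pool.Agent.MP_a43263_nt.VD.Sgn
section MrgPart1

/-! THEOREM V, part D: sign cochains that are cocycles up to a global sign. -/

set_option autoImplicit false

noncomputable section

namespace Pool.Agent.MP_a43263_nt.VD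

open Polynomial JC Filter Topology
open UV (Qb)
open VV (GQ HStmt BrLoc)

namespace Sgn

open Classical in
/-- a sign as a unit of `ℤ` -/
def sg {K : Type} [Field K] (x : K) : ℤˣ := if x = 1 then 1 else -1

theorem sg_val {K : Type} [Field K] {x : K} (h : x ^ 2 = 1) : ((sg x : ℤ) : K) = x := by
  rw [sg]
  split_ifs with c
  · simp [c]
  · simp [(sq_eq_one_iff.1 h).resolve_left c]

theorem val_sq {K : Type} [Field K] (a : ℤˣ) : ((a : ℤ) : K) ^ 2 = 1 := by
  rcases Int.units_eq_one_or a with rfl | rfl <;> simp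

theorem val_ne {K : Type} [Field K] (a : ℤˣ) : ((a : ℤ) : K) ≠ 0 := fun e => by
  simpa [e] using val_sq (K := K) a

theorem val_inj {K : Type} [Field K] [CharZero K] {a b : ℤˣ} (h : ((a : ℤ) : K) = ((b : ℤ) : K)) :
    a = b := Units.ext (Int.cast_injective h)

theorem root_map {K L : Type} [Field K] [CharZero K] [Field L] [CharZero L]
    (φ : K →+* L) (p : ℚ[X]) (θ : K) : (fK p L).eval (φ θ) = φ ((fK p K).eval θ) := by
  rw [← fK_map p φ, eval_map, eval₂_at_apply]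

theorem root_act {f : ℚ[X]} (σ : GQ) {θ : Qb} (h : (fK f Qb).eval θ = 0) :
    (fK f Qb).eval (σ θ) = 0 := by
  have := root_map (σ : Qb →+* Qb) f θ
  rwa [h, map_zero] at this

theorem ev_inv (σ0 : GQ) (θ : Qb) : ∀ᶠ σ : GQ in 𝓝 σ0, σ⁻¹ θ = σ0⁻¹ θ := by
  filter_upwards [RatA.ev_apply σ0 (σ0⁻¹ θ)] with σ h
  apply σ.injective
  rw [h]
  exact (σ.apply_symm_apply θ).trans (σ0.apply_symm_apply θ).symm

end Sgn

open Sgn in
theorem sgn (gal : GALStmt) (H : HStmt) {f : ℚ[X]} (f0 : f ≠ 0) {t : Qb} (ht : (fK f Qb).eval t = 0)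
    (e : GQ → Qb → ℤˣ) (lc : ∀ θ, (fK f Qb).eval θ = 0 → IsLocallyConstant fun σ => e σ θ)
    (co : ∀ σ τ, ∃ a : ℤˣ, ∀ θ, (fK f Qb).eval θ = 0 → e σ (σ θ) * e τ θ = a * e (σ * τ) (σ θ))
    (lo : ∀ (p : ℕ) [Fact p.Prime], ∃ s : Qb → AlgebraicClosure ℚ_[p],
      (∀ θ, (fK f Qb).eval θ = 0 → s θ ≠ 0) ∧
      ∀ (σ : AlgebraicClosure ℚ_[p] ≃ₐ[ℚ_[p]] AlgebraicClosure ℚ_[p]) (τ : GQ),
        (∀ x, emb ℚ_[p] (τ x) = σ (emb ℚ_[p] x)) → ∃ b : ℤˣ, ∀ θ, (fK f Qb).eval θ = 0 →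
          ((e τ (τ θ) : ℤ) : AlgebraicClosure ℚ_[p]) * s (τ θ) = (b : ℤ) * σ (s θ)) :
    ∃ (r : Qb → Qb) (b : GQ → ℤˣ), ∀ θ, (fK f Qb).eval θ = 0 → r θ ≠ 0 ∧
      ∀ σ : GQ, σ (r θ) = ((b σ * e σ (σ θ) : ℤˣ) : ℤ) * r (σ θ) := by
  choose a ha using co
  have ea : ∀ σ τ, a σ τ = e σ t * e τ (σ⁻¹ t) / e (σ * τ) t := fun σ τ => by
    have := ha σ τ _ (root_act σ⁻¹ ht)
    rw [show σ (σ⁻¹ t) = t from σ.apply_symm_apply t] at this
    rw [this, mul_div_cancel_right]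
  refine (H a ?_ ?_ ?_).elim fun b ⟨b1, b2⟩ => ?_
  rotate_right
  · obtain ⟨r, hr⟩ := gal.2 f (fun σ θ => ((b σ * e σ θ : ℤˣ) : ℤ)) f0 (fun σ θ _ => val_sq _)
      (fun σ τ θ h => by
        rw [← Int.cast_mul, ← Units.val_mul, mul_mul_mul_comm, ← b2, ha σ τ θ h, mul_mul_mul_comm,
          Int.units_mul_self, one_mul])
      fun θ h => (b1.mul (lc θ h)).comp fun x : ℤˣ => ((x : ℤ) : Qb)
    exact ⟨r, b, hr⟩
  · refine (IsLocallyConstant.iff_eventually_eq _).2 fun x0 => ?_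
    filter_upwards [continuous_fst.continuousAt.eventually ((lc t ht).eventually_eq x0.1),
      continuous_fst.continuousAt.eventually (ev_inv x0.1 t),
      continuous_snd.continuousAt.eventually ((lc _ (root_act x0.1⁻¹ ht)).eventually_eq x0.2),
      (continuous_fst.mul continuous_snd).continuousAt.eventually
        ((lc t ht).eventually_eq (x0.1 * x0.2))] with x h1 h2 h3 h4
    rw [ea, ea, h1, h2, h3, show e (x.1 * x.2) t = _ from h4]
  · intro σ τ υ
    have h1 := ha σ τ _ (root_act τ ht)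
    have h2 := ha (σ * τ) υ _ ht
    have h3 := ha τ υ _ ht
    have h4 := ha σ (τ * υ) _ (root_act τ ht)
    rw [AlgEquiv.mul_apply] at h2
    rw [← mul_assoc] at h4
    rw [eq_div_of_mul_eq' h1.symm, eq_div_of_mul_eq' h2.symm, eq_div_of_mul_eq' h3.symm,
      eq_div_of_mul_eq' h4.symm]
    simp only [div_eq_mul_inv, Int.units_inv_eq_self]
    generalize e (σ * τ) (σ (τ t)) = x, e (τ * υ) (τ t) = y
    rcases Int.units_eq_one_or x with rfl | rfl <;> rcases Int.units_eq_one_or y with rfl | rfl <;>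
      simp [mul_comm, mul_left_comm]
  · intro p _
    obtain ⟨s, s0, hs⟩ := lo p
    obtain ⟨⟨res, rc, hr⟩, -⟩ := gal.1 ℚ_[p]
    have un : ∀ σ τ, (∀ x, emb ℚ_[p] (τ x) = σ (emb ℚ_[p] x)) → τ = res σ := fun σ τ h =>
      AlgEquiv.ext fun x => (emb ℚ_[p]).injective ((h x).trans (hr σ x).symm)
    choose b hb using fun σ => hs σ (res σ) (hr σ)
    have eb : ∀ σ, ((b σ : ℤ) : AlgebraicClosure ℚ_[p]) =
        (e (res σ) (res σ t) : ℤ) * s (res σ t) / σ (s t) := fun σ => by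
      rw [hb σ t ht, mul_div_cancel_right₀ _ ((_root_.map_ne_zero σ).2 (s0 t ht))]
    refine ⟨fun σ => (b σ : ℤ), (IsLocallyConstant.iff_eventually_eq _).2 fun σ0 => ?_,
      fun σ => val_ne _, fun σ σ1 τ τ1 h h1 => ?_⟩
    · filter_upwards [rc.continuousAt.eventually (RatA.ev_apply (res σ0) t),
        rc.continuousAt.eventually ((lc _ (root_act (res σ0) ht)).eventually_eq (res σ0)),
        RatA.ev_apply σ0 (s t)] with σ h1 h2 h3
      rw [eb, eb, h1, h2, h3]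
    · have k0 := hb (σ * σ1) t ht
      rw [← un (σ * σ1) (τ * τ1) fun x => by
        rw [AlgEquiv.mul_apply, AlgEquiv.mul_apply, h, h1]] at k0
      have k1 := congrArg σ (hb σ1 t ht)
      have k2 := hb σ _ (root_act τ1 ht)
      rw [← un _ _ h1] at k1
      rw [← un _ _ h] at k2
      have k3 := congrArg (fun x : ℤˣ => ((x : ℤ) : AlgebraicClosure ℚ_[p]))
        (ha τ τ1 _ (root_act τ1 ht))
      simp only [Units.val_mul, Int.cast_mul, map_mul, map_intCast, AlgEquiv.mul_apply]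
        at k0 k1 k2 k3 ⊢
      refine mul_right_cancel₀ ((_root_.map_ne_zero σ).2 ((_root_.map_ne_zero σ1).2 (s0 t ht))) ?_
      linear_combination (-((a τ τ1 : ℤ) : AlgebraicClosure ℚ_[p])) * k0 -
        s (τ (τ1 t)) * k3 + ((e τ1 (τ1 t) : ℤ) : AlgebraicClosure ℚ_[p]) * k2 +
        ((b σ : ℤ) : AlgebraicClosure ℚ_[p]) * k1

end Pool.Agent.MP_a43263_nt.VD

end
end MrgPart1

-- ======== part 2: formerly Pool.Agent.MP_a43263_nt.VD.Fin
section MrgPart2

/-! THEOREM V, part D: from ideal classes to the Jacobian and its Tate-Shafarevich group. -/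

set_option autoImplicit false

noncomputable section

namespace Pool.Agent.MP_a43263_nt.VD

open Polynomial JC
open UV (Qb)
open VV (GQ Od Wv Neg OdP SelT HStmt)

namespace Last

section Hom
variable {A G : Type} [AddCommGroup A] [CommGroup G] {b : A → G}

theorem hom_zero (h : ∀ x y, b (x + y) = b x * b y) : b 0 = 1 := by
  have := h 0 0
  rw [add_zero] at this
  exact left_eq_mul.1 this

theorem hom_sub (h : ∀ x y, b (x + y) = b x * b y) (x y : A) : b (x - y) = b x / b y := by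
  rw [eq_div_iff_mul_eq', ← h, sub_add_cancel]

theorem hom_nsmul (h : ∀ x y, b (x + y) = b x * b y) (n : ℕ) (x : A) : b (n • x) = b x ^ n := by
  induction n with
  | zero => rw [zero_nsmul, pow_zero, hom_zero h]
  | succ n ih => rw [succ_nsmul, pow_succ, h, ih]

end Hom

section Grp
variable {K : Type} [Field K] {F : K[X]}

theorem cdiv_pow (a b : Cx F) (n : ℕ) : (a / b) ^ n = a ^ n / b ^ n := div_pow a b n

theorem cmul_pow (a b : Cx F) (n : ℕ) : (a * b) ^ n = a ^ n * b ^ n := mul_pow a b n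

theorem cdiv_comm (a b c d : Cx F) : a / b / (c / d) = a / c / (b / d) := div_div_div_comm a b c d

theorem cdiv_swap {a b c d : Cx F} (h : a / b = c / d) : a / c = b / d :=
  (div_eq_div_iff_div_eq_div (G := Cx F)).1 h

theorem cdiv_mul (a b c : Cx F) : a / b * (c / a) = c / b := by
  rw [show a / b * (c / a) = c / a * (a / b) from mul_comm (a / b) (c / a), div_mul_div_cancel]

end Grp

theorem two_cases (a : ZMod 2) : a = 0 ∨ a = 1 := by
  revert a
  decide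

/-- the dictionary between the Jacobian and the even ideal classes -/
structure Dic (f : ℚ[X]) where
  b : ∀ (K : Type) [Field K] [CharZero K], VJ.Jac f K → Cx (fK f K)
  add : ∀ (K : Type) [Field K] [CharZero K] [IsAlgClosed K] (x y : VJ.Jac f K),
    b K (x + y) = b K x * b K y
  inj : ∀ (K : Type) [Field K] [CharZero K] [IsAlgClosed K], Function.Injective (b K)
  even : ∀ (K : Type) [Field K] [CharZero K] [IsAlgClosed K] (x : VJ.Jac f K), par (b K x) = 0
  surj : ∀ (K : Type) [Field K] [CharZero K] [IsAlgClosed K] (y : Cx (fK f K)), par y = 0 →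
    ∃ x, b K x = y
  nat : ∀ (K : Type) [Field K] [CharZero K] [IsAlgClosed K] (L : Type) [Field L] [CharZero L]
    [IsAlgClosed L] (φ : K →+* L) (x : VJ.Jac f K),
    b L (VJ.jmap f φ x) = cmap φ (fK_map f φ) (b K x)

variable {g : ℕ} {f : ℚ[X]}

theorem svK (s : Sv g f) (K : Type) [Field K] [CharZero K] : Sv g (fK f K) :=
  s.map (Rat.castHom K) rfl

theorem dic (br : BRStmt) (s : Sv g f) : Nonempty (Dic f) := by
  obtain ⟨β, hβ⟩ := br
  refine ⟨⟨fun K _ _ x => β K (fK f K) x.1, fun K _ _ _ x y => ?_, fun K _ _ _ x y e => ?_,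
    fun K _ _ _ x => ?_, fun K _ _ _ y hy => ?_, fun K _ _ _ L _ _ _ φ x => ?_⟩⟩
  · exact (hβ K g _ (svK s K)).1 x.1 y.1
  · exact Subtype.ext ((hβ K g _ (svK s K)).2.1.1 e)
  · exact ((hβ K g _ (svK s K)).2.2.1 x.1).1 x.2
  · obtain ⟨x, rfl⟩ := (hβ K g _ (svK s K)).2.1.2 y
    exact ⟨⟨x, ((hβ K g _ (svK s K)).2.2.1 x).2 hy⟩, rfl⟩
  · exact (hβ K g _ (svK s K)).2.2.2 L φ _ (fK_map f φ) x.1

/-- the action of the absolute Galois group of `ℚ` -/
abbrev aq (f : ℚ[X]) (σ : GQ) : Cx (fK f Qb) →* Cx (fK f Qb) :=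
  cmap (σ : Qb →+* Qb) (fK_map f _)

theorem act_mul (σ τ : GQ) (x : Cx (fK f Qb)) : aq f (σ * τ) x = aq f σ (aq f τ x) :=
  (cmap_cmap _ _ _ _ _ _ (fun _ => rfl) x).symm

theorem emb_act {K : Type} [Field K] [CharZero K]
    {σ : AlgebraicClosure K ≃ₐ[K] AlgebraicClosure K} {τ : GQ}
    (h : ∀ x, emb K (τ x) = σ (emb K x)) (y : Cx (fK f Qb)) :
    cmap (emb K) (fK_map f _) (aq f τ y) = act f σ (cmap (emb K) (fK_map f _) y) := by
  rw [cmap_cmap _ _ ((emb K).comp (τ : Qb →+* Qb)) _ _ (fK_map f _) (fun _ => rfl),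
    cmap_cmap _ _ ((emb K).comp (τ : Qb →+* Qb)) _ _ (fK_map f _) (fun x => (h x).symm)]

theorem lc_act (s : Sv g f) (W : Cx (fK f Qb)) : IsLocallyConstant fun σ : GQ => aq f σ W := by
  obtain ⟨U, V, a, d, rfl⟩ := (svK s Qb).cx_surj W
  refine (IsLocallyConstant.iff_eventually_eq _).2 fun σ0 => ?_
  filter_upwards [RatA.ev_map σ0 U, RatA.ev_map σ0 V] with σ h1 h2
  rw [(svK s Qb).cmap_MI _ _ a d, (svK s Qb).cmap_MI _ _ a d, h1, h2]

theorem exists_odd (s : Sv g f) : ∃ W : Cx (fK f Qb), par W = 1 := by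
  have s' := svK s Qb
  obtain ⟨t, ht⟩ := IsAlgClosed.exists_root (fK f Qb) (by
    rw [s'.degree]
    exact_mod_cast (by omega : 2 * g + 2 ≠ 0))
  refine ⟨cx (MI _ (X - C t) 0), ?_⟩
  rw [s'.par_MI (monic_X_sub_C t) (by simpa using dvd_iff_isRoot.2 ht), natDegree_X_sub_C]
  rfl

theorem cloc_sq {K : Type} [Field K] [CharZero K] {c : GQ → Cx (fK f Qb)} (h : CLoc f K c) :
    CLoc f K fun σ => c σ ^ 2 := by
  obtain ⟨R, hR⟩ := h
  exact ⟨R ^ 2, fun σ τ e => by rw [map_pow, hR σ τ e, map_pow, cdiv_pow]⟩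

/-- what the main step gives for one polynomial -/
def Core (f : ℚ[X]) : Prop :=
  ∀ c : GQ → Cx (fK f Qb), IsLocallyConstant c → (∀ σ τ, c (σ * τ) = c σ * aq f σ (c τ)) →
  (∀ (p : ℕ) [Fact p.Prime], CLoc f ℚ_[p] c) → ∀ Y : Cx (fK f Qb),
  (∀ σ, c σ ^ 2 = aq f σ Y / Y) → ∃ y, y ^ 2 = Y ∧ ∀ σ, c σ = aq f σ y / y

theorem half (co : Core f) {Y : Cx (fK f Qb)} (h : ∀ σ : GQ, aq f σ Y = Y) :
    ∃ y, y ^ 2 = Y ∧ ∀ σ : GQ, aq f σ y = y := by
  obtain ⟨y, h1, h2⟩ := co (fun _ => 1) (IsLocallyConstant.const 1) (fun _ _ => by simp)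
    (fun p _ => ⟨1, fun _ _ _ => by simp⟩) Y (fun σ => by rw [h σ]; simp)
  exact ⟨y, h1, fun σ => div_eq_one.1 (h2 σ).symm⟩

/-- invariant classes are even -/
theorem claimA (s : Sv g f) (co : Core f) {Y : Cx (fK f Qb)} (h : ∀ σ : GQ, aq f σ Y = Y) :
    par Y = 0 := by
  obtain ⟨y, rfl, -⟩ := half co h
  exact (svK s Qb).par_sq y

theorem claimB (co : Core f) (k : ℕ) : ∀ c : GQ → Cx (fK f Qb), IsLocallyConstant c →
    (∀ σ τ, c (σ * τ) = c σ * aq f σ (c τ)) → (∀ (p : ℕ) [Fact p.Prime], CLoc f ℚ_[p] c) →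
    (∃ Y, ∀ σ, c σ ^ 2 ^ k = aq f σ Y / Y) → ∃ y, ∀ σ, c σ = aq f σ y / y := by
  induction k with
  | zero => exact fun c _ _ _ ⟨Y, hY⟩ => ⟨Y, fun σ => by simpa using hY σ⟩
  | succ k ih =>
    intro c h1 h2 h3 ⟨Y, hY⟩
    obtain ⟨y, hy⟩ := ih (fun σ => c σ ^ 2) (h1.comp fun x => x ^ 2)
      (fun σ τ => by rw [h2, cmul_pow, map_pow]) (fun p _ => cloc_sq (h3 p))
      ⟨Y, fun σ => by rw [← hY σ, ← pow_mul, pow_succ']⟩
    obtain ⟨z, -, hz⟩ := co c h1 h2 h3 y hy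
    exact ⟨z, hz⟩

section
variable (D : Dic f) (K : Type) [Field K] [CharZero K] [IsAlgClosed K]

theorem Dic.zero : D.b K 0 = 1 := hom_zero (G := Cx (fK f K)) (D.add K)

theorem Dic.sub (x y : VJ.Jac f K) : D.b K (x - y) = D.b K x / D.b K y :=
  hom_sub (G := Cx (fK f K)) (D.add K) x y

theorem Dic.nsmul (n : ℕ) (x : VJ.Jac f K) : D.b K (n • x) = D.b K x ^ n :=
  hom_nsmul (G := Cx (fK f K)) (D.add K) n x

end

theorem Dic.jac (D : Dic f) (σ : GQ) (x : VJ.Jac f Qb) :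
    D.b Qb (VJ.jac f σ x) = aq f σ (D.b Qb x) := D.nat Qb Qb _ x

theorem Dic.cloc (D : Dic f) {K : Type} [Field K] [CharZero K] {c : GQ → VJ.Jac f Qb}
    (h : VJ.JLoc f K c) : CLoc f K fun σ => D.b Qb (c σ) := by
  obtain ⟨R, hR⟩ := h
  exact ⟨D.b _ R, fun σ τ e => by rw [← D.nat, hR σ τ e, D.sub, D.nat]⟩

/-- an odd invariant class makes the coboundary of an odd class locally trivial -/
theorem Dic.jloc (D : Dic f) (s : Sv g f) {K : Type} [Field K] [CharZero K]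
    {c : GQ → VJ.Jac f Qb} {W : Cx (fK f Qb)} (hW : par W = 1)
    (hc : ∀ σ, D.b Qb (c σ) = aq f σ W / W) {P : Cx (fK f (AlgebraicClosure K))}
    (hP : par P = 1) (inv : ∀ σ : AlgebraicClosure K ≃ₐ[K] AlgebraicClosure K, act f σ P = P) :
    VJ.JLoc f K c := by
  obtain ⟨R, hR⟩ := D.surj _ (cmap (emb K) (fK_map f _) W / P) (by
    rw [(svK s _).par_div, (svK s Qb).par_map, hW, hP]
    rfl)
  refine ⟨R, fun σ τ e => D.inj _ ?_⟩
  rw [D.nat, hc, D.sub, D.nat, hR, _root_.map_div, _root_.map_div, emb_act e, inv σ,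
    div_div_div_cancel_right]

theorem odd_inv (s : Sv g f) {K : Type} [Field K] [CharZero K] (h : Od (fK f K)) :
    ∃ P : Cx (fK f (AlgebraicClosure K)), par P = 1 ∧
      ∀ σ : AlgebraicClosure K ≃ₐ[K] AlgebraicClosure K, act f σ P = P := by
  obtain ⟨U, V, a, o, d⟩ := h
  refine ⟨cmap (algebraMap K _) (fK_map f _) (cx (MI _ U V)), ?_, fun σ => ?_⟩
  · rw [(svK s K).par_map, (svK s K).par_MI a d]
    exact ZMod.natCast_eq_one_iff_odd.2 o
  · exact cmap_cmap _ _ _ _ _ _ (fun x => σ.commutes x) _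

/-- the class of a cocycle -/
def mk (c : Z1 (VJ.jac f)) : VJ.JH f := H1.mk (VJ.jac f) c

theorem mk_eq {c d : Z1 (VJ.jac f)} :
    mk c = mk d ↔ ∃ P, ∀ σ, d.1 σ - c.1 σ = VJ.jac f σ P - P := by
  refine QuotientAddGroup.eq.trans ?_
  rw [AddSubgroup.mem_addSubgroupOf, neg_add_eq_sub]
  rfl

theorem mk_eq_zero {c : Z1 (VJ.jac f)} : mk c = 0 ↔ ∃ P, ∀ σ, c.1 σ = VJ.jac f σ P - P :=
  (QuotientAddGroup.eq_zero_iff c).trans AddSubgroup.mem_addSubgroupOf

theorem mk_nsmul (n : ℕ) (c : Z1 (VJ.jac f)) : n • mk c = mk (n • c) := rfl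

theorem zero_sha : (0 : VJ.JH f) ∈ VJ.JSha f :=
  ⟨0, rfl, ⟨0, fun _ _ _ => by simp⟩, fun _ _ => ⟨0, fun _ _ _ => by simp⟩⟩

end Last

open Last in
theorem fin (rat : RATStmt) (br : BRStmt) (real : REALStmt) (core : COREStmt) : VV.DESCStmt := by
  intro g f _ hd hi hn ho hs
  have s : Sv g f := ⟨hd, hi.squarefree⟩
  have sq := svK s Qb
  have co : Core f := core g f s hn ho hs
  obtain ⟨D⟩ := dic br s
  refine ⟨hd, hi, fun P => ?_, ?_⟩
  · obtain ⟨y, h1, h2⟩ := half co (Y := D.b Qb P.1) fun σ => by rw [← D.jac, P.2 σ]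
    obtain ⟨R, rfl⟩ := D.surj Qb y (claimA s co h2)
    refine ⟨⟨R, fun σ => D.inj Qb (by rw [D.jac, h2])⟩, Subtype.ext (D.inj Qb ?_)⟩
    exact (D.nsmul Qb 2 R).trans h1
  obtain ⟨W, hW⟩ := exists_odd s
  have ev : ∀ σ : GQ, par (aq f σ W / W) = 0 := fun σ => by
    rw [sq.par_div, sq.par_map, CharTwo.add_self_eq_zero]
  have hc : ∀ σ : GQ, D.b Qb (Function.invFun (D.b Qb) (aq f σ W / W)) = aq f σ W / W :=
    fun σ => Function.invFun_eq (D.surj Qb _ (ev σ))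
  let c0 : Z1 (VJ.jac f) := ⟨fun σ => Function.invFun (D.b Qb) (aq f σ W / W),
    (lc_act s W).comp fun x => Function.invFun (D.b Qb) (x / W), fun σ τ => D.inj Qb (by
      rw [D.add, D.jac, hc, hc, hc, act_mul, _root_.map_div, cdiv_mul])⟩
  have hc0 : ∀ σ, D.b Qb (c0.1 σ) = aq f σ W / W := hc
  have key : ∀ x : VJ.JH f, x ∈ VJ.JSha f → (∃ k : ℕ, 2 ^ k • x = 0) →
      x = 0 ∨ (x = mk c0 ∧ Even g) := by
    rintro _ ⟨c, rfl, hr, hp⟩ ⟨k, hk⟩
    obtain ⟨P, hP⟩ := mk_eq_zero.1 ((mk_nsmul _ c).symm.trans hk)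
    obtain ⟨y, hy⟩ := claimB co k (fun σ => D.b Qb (c.1 σ)) (c.2.1.comp _)
      (fun σ τ => by rw [c.2.2, D.add, D.jac]) (fun p _ => D.cloc (hp p))
      ⟨D.b Qb P, fun σ => by
        rw [← D.nsmul, ← D.jac, ← D.sub, ← hP σ]
        rfl⟩
    rcases two_cases (par y) with e | e
    · obtain ⟨R, rfl⟩ := D.surj Qb y e
      refine Or.inl (mk_eq_zero.2 ⟨R, fun σ => D.inj Qb ?_⟩)
      rw [D.sub, D.jac, hy σ]
    · refine Or.inr ⟨?_, ?_⟩
      · obtain ⟨R, hR⟩ := D.surj Qb (W / y) (by rw [sq.par_div, hW, e]; rfl)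
        refine mk_eq.2 ⟨R, fun σ => D.inj Qb ?_⟩
        rw [D.sub, D.sub, D.jac, hR, hc0, hy σ, _root_.map_div,
          cdiv_comm]
      · by_contra og
        obtain ⟨R, hR⟩ := hr
        have sr := svK s ℝ
        have pz : par (cmap (emb ℝ) (fK_map f _) y / D.b _ R) = 1 := by
          rw [(svK s _).par_div, sq.par_map, e, D.even, add_zero]
        obtain ⟨z, hz⟩ := rat ℝ g (fK f ℝ) (fK f _) (fK_map f _) sr
          (cmap (emb ℝ) (fK_map f _) y / D.b _ R) (fun σ _ => by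
            obtain ⟨τ, hτ⟩ := exists_res ℝ σ
            have h1 := congrArg (D.b _) (hR σ τ hτ)
            rw [D.nat, hy τ, _root_.map_div, emb_act hτ, D.sub, D.nat] at h1
            rw [_root_.map_div]
            exact cdiv_swap h1)
          (Or.inl (by
            rw [pz]
            exact (ZMod.natCast_eq_one_iff_odd.2 (Nat.not_even_iff_odd.1 og)).symm))
        obtain ⟨U, V, a, d, rfl⟩ := sr.cx_surj z
        rw [← hz, sr.par_map, sr.par_MI a d] at pz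
        exact (real g f s hn).1 ⟨U, V, a, ZMod.natCast_eq_one_iff_odd.1 pz, d⟩
  split_ifs with eg
  · have m0 : mk c0 ∈ VJ.JSha f := by
      obtain ⟨P, h1, h2⟩ := (real g f s hn).2 eg
      refine ⟨c0, rfl, D.jloc s hW hc0 h1 h2, fun p _ => ?_⟩
      obtain ⟨P, h1, h2⟩ := odd_inv s (ho p)
      exact D.jloc s hW hc0 h1 h2
    have m2 : 2 ^ 1 • mk c0 = 0 := by
      obtain ⟨R, hR⟩ := D.surj Qb (W ^ 2) (sq.par_sq W)
      refine (mk_nsmul _ c0).trans (mk_eq_zero.2 ⟨R, fun σ => D.inj Qb ?_⟩)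
      rw [D.sub, D.jac, hR, map_pow, ← cdiv_pow, ← hc0, ← D.nsmul]
      rfl
    refine Nat.card_eq_two_iff.2 ⟨⟨0, zero_sha, 0, by simp⟩, ⟨_, m0, 1, m2⟩, fun e => ?_, ?_⟩
    · obtain ⟨P, hP⟩ := mk_eq_zero.1 (congrArg Subtype.val e).symm
      have := claimA s co (Y := W / D.b Qb P) fun σ => by
        have h1 := congrArg (D.b Qb) (hP σ)
        rw [D.sub, D.jac, hc0] at h1
        rw [_root_.map_div]
        exact cdiv_swap h1
      rw [sq.par_div, hW, D.even] at this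
      exact absurd this (by decide)
    · refine Set.eq_univ_of_forall fun x => ?_
      rcases key x.1 x.2.1 x.2.2 with e | e
      · exact Or.inl (Subtype.ext e)
      · exact Or.inr (Subtype.ext e.1)
  · refine Nat.card_eq_one_iff_exists.2 ⟨⟨0, zero_sha, 0, by simp⟩, fun x => ?_⟩
    rcases key x.1 x.2.1 x.2.2 with e | e
    · exact Subtype.ext e
    · exact absurd e.2 eg

end Pool.Agent.MP_a43263_nt.VD

end
end MrgPart2

-- ======== part 3: formerly Pool.Agent.MP_a43263_nt.VD.Gal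
section MrgPart3

/-! THEOREM V, part D: Galois theory of functions on the roots. -/

set_option autoImplicit false

noncomputable section

namespace Pool.Agent.MP_a43263_nt.VD

open Polynomial JC Filter Topology
open UV (Qb)
open VV (GQ)

namespace GalA

theorem res (K : Type) [Field K] [CharZero K] :
    ∃ res : (AlgebraicClosure K ≃ₐ[K] AlgebraicClosure K) → GQ, Continuous res ∧
      ∀ σ x, emb K (res σ x) = σ (emb K x) := by
  choose r hr using exists_res K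
  let R : (AlgebraicClosure K ≃ₐ[K] AlgebraicClosure K) →* GQ := MonoidHom.mk' r fun σ τ =>
    AlgEquiv.ext fun x => (emb K).injective (by
      rw [AlgEquiv.mul_apply, hr, hr, hr, AlgEquiv.mul_apply])
  refine ⟨R, continuous_of_continuousAt_one R ?_, hr⟩
  rw [ContinuousAt, map_one]
  intro U hU
  obtain ⟨L, h1, h2⟩ := (krullTopology_mem_nhds_one_iff ℚ Qb _).1 hU
  let b := Module.finBasis ℚ L
  have e : ∀ᶠ σ in 𝓝 (1 : AlgebraicClosure K ≃ₐ[K] AlgebraicClosure K),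
      ∀ i, σ (emb K (b i)) = emb K (b i) := eventually_all.2 fun i => RatA.ev_apply 1 _
  rw [mem_map]
  filter_upwards [e] with σ hσ
  have k : (R σ).toLinearMap ∘ₗ L.val.toLinearMap = L.val.toLinearMap :=
    b.ext fun i => (emb K).injective ((hr σ _).trans (hσ i))
  exact h2 ((IntermediateField.mem_fixingSubgroup_iff _ _).2 fun x hx =>
    LinearMap.congr_fun k ⟨x, hx⟩)

section
variable {K : Type} [Field K] {f : K[X]} {F : (AlgebraicClosure K)[X]}

theorem ev_map (σ : AlgebraicClosure K ≃ₐ[K] AlgebraicClosure K) (p : (AlgebraicClosure K)[X])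
    (θ : AlgebraicClosure K) :
    (p.map (σ : AlgebraicClosure K →+* AlgebraicClosure K)).eval (σ θ) = σ (p.eval θ) := by
  rw [eval_map]
  exact eval₂_at_apply (σ : AlgebraicClosure K →+* AlgebraicClosure K) θ

theorem root (e : f.map (algebraMap K _) = F) (σ : AlgebraicClosure K ≃ₐ[K] AlgebraicClosure K)
    {θ : AlgebraicClosure K} (h : F.eval θ = 0) : F.eval (σ θ) = 0 := by
  subst e
  rw [eval_map_algebraMap] at h ⊢
  rw [aeval_algHom_apply, h, map_zero]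

theorem itp (e : f.map (algebraMap K _) = F) (h0 : F ≠ 0)
    (z : AlgebraicClosure K → AlgebraicClosure K) : ∃ p : (AlgebraicClosure K)[X],
    (∀ θ, F.eval θ = 0 → p.eval θ = z θ) ∧
    ∀ (σ : AlgebraicClosure K ≃ₐ[K] AlgebraicClosure K) (η : AlgebraicClosure K),
      (∀ θ, F.eval θ = 0 → σ (z θ) = η * z (σ θ)) →
      p.map (σ : AlgebraicClosure K →+* AlgebraicClosure K) = C η * p := by
  classical
  have ms : ∀ θ, θ ∈ F.roots.toFinset ↔ F.eval θ = 0 := fun θ => by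
    rw [Multiset.mem_toFinset, mem_roots h0, IsRoot.def]
  have ev : ∀ θ, F.eval θ = 0 → (Lagrange.interpolate F.roots.toFinset id z).eval θ = z θ :=
    fun θ h => Lagrange.eval_interpolate_at_node z (Set.injOn_id _) ((ms θ).2 h)
  have dg := Lagrange.degree_interpolate_lt (s := F.roots.toFinset) z (Set.injOn_id _)
  refine ⟨_, ev, fun σ η h => eq_of_degrees_lt_of_eval_finset_eq F.roots.toFinset
    (by rwa [degree_map]) ?_ fun x hx => ?_⟩
  · rw [← smul_eq_C_mul]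
    exact (degree_smul_le _ _).trans_lt dg
  · obtain ⟨θ, rfl⟩ := σ.surjective x
    have h1 := (ms _).1 hx
    have h2 : F.eval θ = 0 := by simpa using root e σ.symm h1
    rw [ev_map, ev θ h2, h θ h2, eval_mul, eval_C, ev _ h1]
end

/-- Hilbert 90 for a permutation module -/
theorem h90p {ι : Type} [MulAction GQ ι] (u : GQ → ι → Qb) (u2 : ∀ σ i, u σ i ^ 2 = 1)
    (um : ∀ σ τ i, u (σ * τ) (σ • i) = u σ (σ • i) * u τ i)
    (L : IntermediateField ℚ Qb) [FiniteDimensional ℚ L]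
    (hL : ∀ σ ∈ L.fixingSubgroup, ∀ i, u σ i = 1) :
    ∃ r : ι → Qb, ∀ i, r i ≠ 0 ∧ ∀ σ : GQ, σ (r i) = u σ (σ • i) * r (σ • i) := by
  classical
  have u0 : ∀ σ i, u σ i ≠ 0 := fun σ i h => by simpa [h] using u2 σ i
  have fx : ∀ (σ τ : GQ) i, σ (u τ i) = u τ i := fun σ τ i => by
    rcases sq_eq_one_iff.1 (u2 τ i) with h | h <;> simp [h]
  choose β hβ hβ' using fun i => h90 (MulAction.stabilizer GQ i) (fun σ => u σ i)
    (fun σ _ => u0 σ i) (fun σ hσ τ _ => by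
      have := um σ τ i
      rw [MulAction.mem_stabilizer_iff.1 hσ] at this
      rw [this, fx]) L fun σ _ hσ => hL σ hσ i
  let o : ι → ι := fun i => (Quotient.mk (MulAction.orbitRel GQ ι) i).out
  have ex : ∀ i, ∃ σ : GQ, σ • (o i) = i := fun i =>
    (MulAction.orbitRel GQ ι).symm (Quotient.mk_out (s := MulAction.orbitRel GQ ι) i)
  have oo : ∀ (σ : GQ) i, o (σ • i) = o i := fun σ i =>
    congrArg Quotient.out (Quotient.sound (s := MulAction.orbitRel GQ ι) ⟨σ, rfl⟩)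
  choose s hs using ex
  refine ⟨fun i => s i (β (o i)) * u (s i) i, fun i => ⟨mul_ne_zero
    ((_root_.map_ne_zero _).2 (hβ _)) (u0 _ _), fun σ => ?_⟩⟩
  set t := σ • i with h0
  have ht : s t • (o i) = t := by rw [← oo σ i, hs]
  have st : (s t)⁻¹ * (σ * s i) ∈ MulAction.stabilizer GQ (o i) := by
    rw [MulAction.mem_stabilizer_iff, mul_smul, mul_smul, inv_smul_eq_iff, hs, ht]
  have e1 := congrArg (s t) (hβ' _ _ st)
  have e2 := um (s t) ((s t)⁻¹ * (σ * s i)) (o i)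
  have e3 := um σ (s i) i
  rw [mul_inv_cancel_left, ht] at e2
  rw [← AlgEquiv.mul_apply, mul_inv_cancel_left, AlgEquiv.mul_apply, map_mul, fx] at e1
  have ot : o t = o i := oo σ i
  rw [map_mul, fx, e1]
  simp only [ot]
  have k1 := u2 σ t
  have k2 := u2 (s t) t
  have k3 : u σ t * u (s i) i = u (s t) t * u ((s t)⁻¹ * (σ * s i)) (o i) := e3.symm.trans e2
  generalize u ((s t)⁻¹ * (σ * s i)) (o i) = x at *
  have k4 := u2 (s i) i
  have k5 : x * u (s i) i = u σ t * u (s t) t := by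
    linear_combination (-(u (s t) t * u (s i) i)) * k3 + (u σ t * u (s t) t) * k4 -
      (x * u (s i) i) * k2
  linear_combination (s t (β (o i))) * k5

end GalA

open GalA

theorem gal : GALStmt := by
  classical
  refine ⟨fun K _ _ => ⟨res K, fun f F e hs => ?_⟩, fun f u h0 u2 um ul => ?_⟩
  · have sF : F.Separable := e ▸ hs.map
    have F0 : F ≠ 0 := sF.ne_zero
    refine ⟨fun P h => ?_, fun P => ?_, fun z h => ?_, fun z h => ?_⟩
    · rw [← map_dvd_map' (algebraMap K (AlgebraicClosure K)), e]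
      by_cases c : P.map (algebraMap K (AlgebraicClosure K)) = 0
      · rw [c]
        exact dvd_zero _
      · exact (IsAlgClosed.splits F).dvd_of_roots_le_roots F0
          ((Multiset.le_iff_subset (nodup_roots sF)).2 fun θ a =>
            (mem_roots c).2 (h θ ((mem_roots F0).1 a)))
    · rw [isCoprime_iff_aeval_ne_zero_of_isAlgClosed K (AlgebraicClosure K)]
      simp only [← eval_map_algebraMap, e]
      exact forall_congr' fun θ => by tauto
    · obtain ⟨p, p1, p2⟩ := itp e F0 z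
      obtain ⟨P, hP⟩ := RatA.lift (U := p) fun σ => by
        rw [p2 σ 1 fun θ a => by rw [h σ θ a, one_mul], C_1, one_mul]
      exact ⟨P, fun θ a => hP ▸ p1 θ a⟩
    · obtain ⟨p, p1, p2⟩ := itp e F0 z
      by_cases c : p = 0
      · exact ⟨1, 0, one_ne_zero, fun θ a => by simp [← p1 θ a, c]⟩
      have γ0 := leadingCoeff_ne_zero.2 c
      choose η η2 hη using h
      have lc : ∀ σ : AlgebraicClosure K ≃ₐ[K] AlgebraicClosure K,
          σ p.leadingCoeff = η σ * p.leadingCoeff := fun σ => by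
        have := congrArg leadingCoeff (p2 σ _ (hη σ))
        rwa [leadingCoeff_map, leadingCoeff_mul, leadingCoeff_C] at this
      obtain ⟨P, hP⟩ := RatA.lift (U := C p.leadingCoeff⁻¹ * p) fun σ => by
        have η0 : η σ ≠ 0 := fun a => by simpa [a] using η2 σ
        rw [Polynomial.map_mul, map_C, p2 σ _ (hη σ), ← mul_assoc, ← C_mul, map_inv₀,
          RingHom.coe_coe, lc, mul_inv, mul_right_comm, inv_mul_cancel₀ η0, one_mul]
      obtain ⟨r, hr⟩ := (InfiniteGalois.mem_range_algebraMap_iff_fixed (k := K)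
        (p.leadingCoeff ^ 2)).2 fun σ => by rw [map_pow, lc, mul_pow, η2, one_mul]
      refine ⟨r, P, fun a => pow_ne_zero 2 γ0 (by rw [← hr, a, map_zero]), fun θ a => ?_⟩
      rw [hr, hP, eval_mul, eval_C, p1 θ a, ← mul_pow, mul_inv_cancel_left₀ γ0]
  · have F0 : fK f Qb ≠ 0 := Polynomial.map_ne_zero h0
    have rt : ∀ (σ : GQ) θ, (fK f Qb).eval θ = 0 → (fK f Qb).eval (σ θ) = 0 := fun σ θ h => by
      rw [← fK_map f (σ : Qb →+* Qb), eval_map]
      exact (eval₂_at_apply (σ : Qb →+* Qb) θ).trans (by rw [h, map_zero])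
    let ι : Type := {θ : Qb // (fK f Qb).eval θ = 0}
    have : Finite ι := (finite_setOfPred_isRoot F0).to_subtype
    let _ : MulAction GQ ι :=
      { smul := fun σ θ => ⟨σ θ.1, rt σ _ θ.2⟩, one_smul := fun _ => rfl
        mul_smul := fun _ _ _ => rfl }
    obtain ⟨L, h1, h2⟩ := (krullTopology_mem_nhds_one_iff ℚ Qb _).1
      (eventually_all.2 fun θ : ι => (ul θ.1 θ.2).eventually_eq 1)
    obtain ⟨r, hr⟩ := h90p (ι := ι) (fun σ θ => u σ θ.1) (fun σ θ => u2 σ θ.1 θ.2)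
      (fun σ τ θ => um σ τ θ.1 θ.2) L fun σ hσ θ => (h2 hσ θ).trans (by
        have := um 1 1 θ.1 θ.2
        rw [mul_one, AlgEquiv.one_apply, ← sq, u2 1 θ.1 θ.2] at this
        exact this)
    refine ⟨fun θ => if h : (fK f Qb).eval θ = 0 then r ⟨θ, h⟩ else 0, fun θ h => ?_⟩
    simp only [dif_pos h, dif_pos (rt _ θ h)]
    exact hr ⟨θ, h⟩

end Pool.Agent.MP_a43263_nt.VD

end
end MrgPart3

-- ======== part 4: formerly Pool.Agent.MP_a43263_nt.VD.Prin
section MrgPart4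

/-! THEOREM V, part D: principal ideals and the points at infinity. -/

set_option autoImplicit false

namespace Pool.Agent.MP_a43263_nt.VD

open Polynomial JC JC.Mum

namespace PrinA

variable {K : Type} [Field K] {g : ℕ} {f : K[X]}

theorem lt_sq {p : K[X]} {n : ℕ} (h : p.degree < n) : (p ^ 2).degree < (2 * n : ℕ) := by
  by_cases c : p = 0
  · rw [c, zero_pow two_ne_zero, degree_zero]
    exact WithBot.bot_lt_coe _
  · rw [degree_eq_natDegree c, Nat.cast_lt] at h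
    rw [deg_sq c, Nat.cast_lt]
    omega

theorem kill (s : Sv g f) (v : Rg f) (h0 : v ≠ 0) (hb : ¬Bal v) :
    ∃ c : K, c ^ 2 = f.leadingCoeff ∧
      dd (v * ⟨-(C c * X ^ (g + 1)), 1⟩) < dd v + (2 * g + 2 : ℕ) := by
  obtain ⟨a, b⟩ := v
  have lt : (a ^ 2 - f * b ^ 2).degree < (a ^ 2).degree := not_le.1 fun h => hb ⟨s.nr_ne h0, h⟩
  have a0 : a ≠ 0 := by
    rintro rfl
    simp at lt
  have b0 : b ≠ 0 := by
    rintro rfl
    simp at lt
  have lb := leadingCoeff_ne_zero.2 b0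
  have lc : a.leadingCoeff ^ 2 = f.leadingCoeff * b.leadingCoeff ^ 2 := by
    by_contra c
    rw [sub_eq_add_neg, degree_add_eq_of_leadingCoeff_add_ne_zero (by
      rwa [leadingCoeff_neg, leadingCoeff_mul, leadingCoeff_pow, leadingCoeff_pow, ← sub_eq_add_neg,
        sub_ne_zero])] at lt
    exact lt.not_ge (le_max_left _ _)
  have dg : (a ^ 2).degree = (f * b ^ 2).degree := by
    rcases lt_trichotomy (a ^ 2).degree (f * b ^ 2).degree with c | c | c
    · rw [degree_sub_eq_right_of_degree_lt c] at lt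
      exact absurd c lt.not_gt
    · exact c
    · rw [degree_sub_eq_left_of_degree_lt c] at lt
      exact absurd lt (lt_irrefl _)
  have dv : dd (⟨a, b⟩ : Rg f) = (2 * a.natDegree : ℕ) := by rw [dd, ← dg, max_self, deg_sq a0]
  rw [deg_sq a0, s.deg_fsq b0, Nat.cast_inj] at dg
  obtain ⟨c, hc⟩ : ∃ c, a.leadingCoeff = c * b.leadingCoeff := ⟨_, (div_mul_cancel₀ _ lb).symm⟩
  have c2 : c ^ 2 = f.leadingCoeff :=
    mul_right_cancel₀ (pow_ne_zero 2 lb) (by rw [← lc, hc, mul_pow])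
  have c0 : c ≠ 0 := by
    rintro rfl
    exact leadingCoeff_ne_zero.2 a0 (by rw [hc, zero_mul])
  have dx : (C c * X ^ (g + 1) : K[X]).degree = (g + 1 : ℕ) := degree_C_mul_X_pow _ c0
  have lx : (C c * X ^ (g + 1) : K[X]).leadingCoeff = c := leadingCoeff_C_mul_X_pow _ _
  have d1 : (f * b).degree = (a.natDegree + (g + 1) : ℕ) := by
    rw [degree_mul, s.degree, degree_eq_natDegree b0, ← Nat.cast_add, Nat.cast_inj]
    omega
  have r1 : degree (f * b - a * (C c * X ^ (g + 1))) < (a.natDegree + (g + 1) : ℕ) := by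
    rw [← d1]
    refine degree_sub_lt_left ?_ (mul_ne_zero s.ne b0) ?_
    · rw [d1, degree_mul, dx, degree_eq_natDegree a0, Nat.cast_add]
    · rw [leadingCoeff_mul, leadingCoeff_mul a, lx, hc, ← c2]
      ring
  have r2 : degree (a - b * (C c * X ^ (g + 1))) < a.natDegree := by
    rw [← degree_eq_natDegree a0]
    refine degree_sub_lt_left ?_ a0 ?_
    · rw [degree_mul, dx, degree_eq_natDegree a0, degree_eq_natDegree b0, ← Nat.cast_add,
        Nat.cast_inj]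
      omega
    · rw [leadingCoeff_mul, lx, hc, mul_comm]
  refine ⟨c, c2, ?_⟩
  rw [dv, ← Nat.cast_add, dd, show ((⟨a, b⟩ : Rg f) * ⟨-(C c * X ^ (g + 1)), 1⟩).re =
    f * b - a * (C c * X ^ (g + 1)) by simp; ring,
    show ((⟨a, b⟩ : Rg f) * ⟨-(C c * X ^ (g + 1)), 1⟩).im = a - b * (C c * X ^ (g + 1)) by
      simp; ring]
  refine max_lt ((lt_sq r1).trans_eq (by rw [Nat.cast_inj]; omega)) ?_
  rw [degree_mul, s.degree, Nat.cast_add, add_comm]
  exact WithBot.add_lt_add_right (WithBot.natCast_ne_bot _) (lt_sq r2)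

theorem ex [CharZero K] (s : Sv g f) (c : K) (hc : c ^ 2 = f.leadingCoeff) :
    ∃ V : K[X], (f - V ^ 2).natDegree = 2 * g + 1 := by
  have f0 := leadingCoeff_ne_zero.2 s.ne
  obtain ⟨t, ht⟩ : ∃ t, f.coeff (2 * g + 1) - 2 * f.leadingCoeff * t = 1 :=
    ⟨(f.coeff (2 * g + 1) - 1) / (2 * f.leadingCoeff), by field_simp; ring⟩
  have e : (C c * (X ^ (g + 1) + C t * X ^ g)) ^ 2 = C f.leadingCoeff * X ^ (2 * g + 2) +
      C (2 * f.leadingCoeff * t) * X ^ (2 * g + 1) + C (f.leadingCoeff * t ^ 2) * X ^ (2 * g) := by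
    simp only [← hc, map_mul, map_pow, map_ofNat]
    ring
  refine ⟨C c * (X ^ (g + 1) + C t * X ^ g), natDegree_eq_of_le_of_coeff_ne_zero
    (natDegree_le_iff_coeff_eq_zero.2 fun N hN => ?_) ?_⟩
  · rw [e]
    simp only [coeff_sub, coeff_add, coeff_C_mul_X_pow]
    rw [if_neg (show N ≠ 2 * g + 1 by omega), if_neg (show N ≠ 2 * g by omega), add_zero, add_zero]
    split_ifs with h
    · rw [h, ← s.deg, coeff_natDegree, sub_self]
    · rw [coeff_eq_zero_of_natDegree_lt (by rw [s.deg]; omega), sub_self]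
  · rw [e]
    simp only [coeff_sub, coeff_add, coeff_C_mul_X_pow]
    rw [if_neg (by omega), if_pos trivial, if_neg (by omega), zero_add, add_zero, ht]
    exact one_ne_zero

theorem top (s : Sv g f) {V : K[X]} (hV : (f - V ^ 2).natDegree = 2 * g + 1) :
    V.degree = (g + 1 : ℕ) ∧ V.leadingCoeff ^ 2 = f.leadingCoeff := by
  have lt : (f - V ^ 2).degree < f.degree := degree_lt_degree (by rw [hV, s.deg]; omega)
  have e : V ^ 2 = f - (f - V ^ 2) := by ring
  have d : (V ^ 2).degree = f.degree := by rw [e, degree_sub_eq_left_of_degree_lt lt]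
  have v0 : V ≠ 0 := by
    rintro rfl
    rw [zero_pow two_ne_zero, sub_zero] at lt
    exact lt_irrefl _ lt
  refine ⟨?_, by rw [← leadingCoeff_pow, e, leadingCoeff_sub_of_degree_lt lt]⟩
  rw [deg_sq v0, s.degree, Nat.cast_inj] at d
  rw [degree_eq_natDegree v0, Nat.cast_inj]
  omega

theorem nr_k (V : K[X]) : nr (⟨-V, 1⟩ : Rg f) = -(f - V ^ 2) := by simp [nr]

theorem step (s : Sv g f) {V : K[X]} (hV : (f - V ^ 2).natDegree = 2 * g + 1) {h : Rg f}
    (h0 : h ≠ 0) (k : dd (h * ⟨-(C V.leadingCoeff * X ^ (g + 1)), 1⟩) < dd h + (2 * g + 2 : ℕ)) :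
    dd (h * ⟨-V, 1⟩) < dd h + (2 * g + 2 : ℕ) := by
  obtain ⟨d, -⟩ := top s hV
  have v0 : V ≠ 0 := degree_ne_bot.1 (d ▸ WithBot.natCast_ne_bot _)
  have dx : (C V.leadingCoeff * X ^ (g + 1) : K[X]).degree = (g + 1 : ℕ) :=
    degree_C_mul_X_pow _ (leadingCoeff_ne_zero.2 v0)
  have r : degree (C V.leadingCoeff * X ^ (g + 1) - V) < (g + 1 : ℕ) := by
    rw [← dx]
    exact degree_sub_lt_left (dx.trans d.symm) (degree_ne_bot.1 (dx ▸ WithBot.natCast_ne_bot _))
      (leadingCoeff_C_mul_X_pow _ _)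
  have e : h * ⟨-V, 1⟩ = h * ⟨-(C V.leadingCoeff * X ^ (g + 1)), 1⟩ +
      ⟨C V.leadingCoeff * X ^ (g + 1) - V, 0⟩ * h := by
    rw [mul_comm _ h, ← mul_add]
    congr 1
    ext1
    · simp
      ring
    · simp
  obtain ⟨m, hm⟩ := s.dd_even h0
  rw [e]
  refine (dd_add_le _ _).trans_lt (max_lt k ?_)
  rw [dd_poly_mul, add_comm]
  exact WithBot.add_lt_add_left (hm ▸ WithBot.natCast_ne_bot _) (lt_sq r)

theorem zp (s : Sv g f) {V : K[X]} (hV : (f - V ^ 2).natDegree = 2 * g + 1) (n : ℕ) :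
    ∀ h : Rg f, h ≠ 0 → dd h ≤ ((nr h).natDegree + n : ℕ) →
      cx (Ideal.span {h}) ∈ Subgroup.zpowers (cx (Ideal.span {(⟨-V, 1⟩ : Rg f)})) := by
  have := s.dom
  have nz : ∀ {W : K[X]}, (f - W ^ 2).natDegree = 2 * g + 1 → nr (⟨-W, 1⟩ : Rg f) ≠ 0 :=
    fun {W} hW e => by
      rw [nr_k, neg_eq_zero] at e
      simp [e] at hW
  induction n with
  | zero =>
    intro h h0 le
    rw [add_zero, ← degree_eq_natDegree (s.nr_ne h0)] at le
    rw [cx_span (bal_iff.2 ⟨s.nr_ne h0, le_antisymm le (nr_le_dd h)⟩)]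
    exact one_mem _
  | succ n ih =>
    intro h h0 le
    by_cases b : Bal h
    · rw [cx_span b]
      exact one_mem _
    obtain ⟨c, c2, hc⟩ := kill s h h0 b
    obtain ⟨W, hW, rfl, hm⟩ : ∃ W : K[X], (f - W ^ 2).natDegree = 2 * g + 1 ∧
        c = W.leadingCoeff ∧ cx (Ideal.span {(⟨-W, 1⟩ : Rg f)}) ∈
          Subgroup.zpowers (cx (Ideal.span {(⟨-V, 1⟩ : Rg f)})) := by
      rcases sq_eq_sq_iff_eq_or_eq_neg.1 (c2.trans (top s hV).2.symm) with e | e
      · exact ⟨V, hV, e, Subgroup.mem_zpowers _⟩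
      · refine ⟨-V, by rwa [neg_sq], by rw [e, leadingCoeff_neg], ?_⟩
        have : (⟨- -V, 1⟩ : Rg f) = -star ⟨-V, 1⟩ := by ext1 <;> simp
        rw [this, Ideal.span_singleton_neg, ← cj_span, cx_cj (nu_span' (nz hV))]
        exact inv_mem (Subgroup.mem_zpowers _)
    have k0 : (⟨-W, 1⟩ : Rg f) ≠ 0 := fun e => one_ne_zero (congrArg QuadraticAlgebra.im e)
    have lt := step s hW h0 hc
    obtain ⟨m, e⟩ := s.dd_even h0
    obtain ⟨m', e'⟩ := s.dd_even (mul_ne_zero h0 k0)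
    have := ih _ (mul_ne_zero h0 k0) (by
      rw [e, e', ← Nat.cast_add, Nat.cast_lt] at lt
      rw [e, Nat.cast_le] at le
      rw [e', Nat.cast_le, nr_mul, natDegree_mul (s.nr_ne h0) (nz hW), nr_k, natDegree_neg, hW]
      omega)
    rw [← Ideal.span_singleton_mul_span_singleton,
      cx_mul (nu_span' (s.nr_ne h0)) (nu_span' (nz hW))] at this
    exact (Subgroup.mul_mem_cancel_right _ hm).1 this

end PrinA

theorem prin : PRINStmt := by
  intro K _ _ g f s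
  refine ⟨PrinA.kill s, PrinA.ex s, fun V hV h h0 => ?_⟩
  obtain ⟨m, hm⟩ := s.dd_even h0
  exact PrinA.zp s hV (2 * m) h h0 (by rw [hm, Nat.cast_le]; omega)

end Pool.Agent.MP_a43263_nt.VD

end MrgPart4

-- ======== part 5: formerly Pool.Agent.MP_a43263_nt.VW.Red
section MrgPart5

/-! THEOREM V, part W: reduction and moving over a field in which the leading coefficient of `f`
is not a square and `f` has a root. -/

set_option autoImplicit false

namespace Pool.Agent.MP_a43263_nt.VW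

open Polynomial JC JC.Mum JM.Move VD
open JM (Mu nv)

variable {K : Type} [Field K] [CharZero K] {g : ℕ} {f : K[X]}

omit [CharZero K] in
/-- every nonzero function has the same order at the two points at infinity -/
theorem bal (s : Sv g f) (ns : ∀ c : K, c ^ 2 ≠ f.leadingCoeff) {h : Rg f} (h0 : h ≠ 0) : Bal h :=
  by_contra fun c => (PrinA.kill s h h0 c).elim fun a e => ns a e.1

namespace RedA

omit [CharZero K] in
theorem ne (s : Sv g f) (V : K[X]) : f - V ^ 2 ≠ 0 := by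
  have := s.nr_ne (h := ⟨-V, 1⟩) fun e => one_ne_zero (congrArg QuadraticAlgebra.im e)
  rwa [PrinA.nr_k, neg_ne_zero] at this

theorem inv (s : Sv g f) {U V : K[X]} (a : U.Monic) (d : U ∣ f - V ^ 2) :
    cx (MI f U (-V)) = (cx (MI f U V))⁻¹ := by rw [← cj_MI, cx_cj (s.nu_MI a d)]

/-- the residual divisor of `y - V` -/
theorem flip (s : Sv g f) (ns : ∀ c : K, c ^ 2 ≠ f.leadingCoeff) {U V w : K[X]} (a : U.Monic)
    (e : f - V ^ 2 = U * w) : ∃ u : K[X], u.Monic ∧ Associated w u ∧ u ∣ f - V ^ 2 ∧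
      U.natDegree + u.natDegree ≤ max (2 * g + 2) (2 * V.natDegree) ∧
      cx (MI f u V) = (cx (MI f U V))⁻¹ := by
  have w0 : w ≠ 0 := fun z => ne s V (by rw [e, z, mul_zero])
  obtain ⟨u, hu, as⟩ := exists_monic w0
  have as' : Associated (U * u) (f - V ^ 2) := e ▸ as.symm.mul_left U
  refine ⟨u, hu, as, (dvd_mul_left u U).trans as'.dvd, ?_, ?_⟩
  · rw [← a.natDegree_mul hu, natDegree_eq_of_degree_eq (degree_eq_degree_of_associated as'),
      ← s.deg, ← natDegree_pow]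
    exact natDegree_sub_le _ _
  · have k := s.cx_MI_mul a hu as'.dvd
    rw [MI_assoc as', MI_norm,
      cx_span (bal s ns fun e => one_ne_zero (congrArg QuadraticAlgebra.im e))] at k
    exact eq_inv_of_mul_eq_one_right k.symm

omit [CharZero K] in
theorem cg {U V : K[X]} (d : U ∣ f - V ^ 2) {T : K[X]} (h : U ∣ V - T) : U ∣ f - T ^ 2 := by
  rw [show f - T ^ 2 = f - V ^ 2 + (V - T) * (V + T) by ring]
  exact dvd_add d (h.mul_right _)

/-- the Weierstrass part of a divisor -/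
theorem strip (s : Sv g f) {U V : K[X]} (a : U.Monic) (hd : U ∣ f - V ^ 2) :
    ∃ u d : K[X], u.Monic ∧ d.Monic ∧ d ∣ f ∧ U = u * d ∧ IsCoprime u f ∧
      cx (MI f U V) = cx (MI f u V) * cx (MI f d 0) := by
  classical
  obtain ⟨d, dm, as⟩ := exists_monic (d := EuclideanDomain.gcd U f)
    fun e => a.ne_zero (EuclideanDomain.gcd_eq_zero_iff.1 e).1
  have d2 : d ∣ f := as.dvd_iff_dvd_left.1 (EuclideanDomain.gcd_dvd_right U f)
  obtain ⟨u, hu⟩ : d ∣ U := as.dvd_iff_dvd_left.1 (EuclideanDomain.gcd_dvd_left U f)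
  have d3 : ∀ p, p ∣ U → p ∣ f → p ∣ d := fun p h k =>
    (EuclideanDomain.dvd_gcd h k).trans as.dvd
  rw [mul_comm] at hu
  subst hu
  have um : u.Monic := dm.of_mul_monic_right a
  have vv : ∀ p, p ∣ u * d → p ∣ f → p ∣ V := fun p h k =>
    (s.sf.squarefree_of_dvd k).isRadical 2 V (by simpa using dvd_sub k (h.trans hd))
  refine ⟨u, d, um, dm, d2, rfl, ?_, ?_⟩
  · refine isCoprime_of_irreducible_dvd (fun h => s.ne h.2) fun p hp h k => ?_
    have h1 := vv p (h.mul_right _) k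
    have h2 : p * p ∣ f - V ^ 2 := (mul_dvd_mul h (d3 p (h.mul_right _) k)).trans hd
    have h3 : p * p ∣ V ^ 2 := by
      rw [pow_two]
      exact mul_dvd_mul h1 h1
    exact hp.not_isUnit (s.sf p (by simpa using dvd_add h2 h3))
  · rw [s.cx_MI_mul um dm hd, MI_congr (U := d) (V := V) (V' := 0)
      (by simpa using vv d (dvd_mul_left _ _) d2)]

end RedA

open RedA

/-- every class has a representative of degree at most `g + 1` -/
theorem red (s : Sv g f) (ns : ∀ c : K, c ^ 2 ≠ f.leadingCoeff) (P : Cx f) :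
    ∃ U V : K[X], U.Monic ∧ U ∣ f - V ^ 2 ∧ U.natDegree ≤ g + 1 ∧ V.degree < U.degree ∧
      cx (MI f U V) = P := by
  obtain ⟨U, V, hU, hd, rfl⟩ := s.cx_surj P
  induction hn : U.natDegree using Nat.strong_induction_on generalizing U V with
  | _ n ih =>
    have d1 : U ∣ V - V %ₘ U := ⟨V /ₘ U, by rw [modByMonic_eq_sub_mul_div V U]; ring⟩
    have d3 : (V %ₘ U).degree < U.degree := degree_modByMonic_lt V hU
    rw [MI_congr d1]
    have d2 := cg hd d1
    generalize V %ₘ U = T at d2 d3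
    by_cases c : U.natDegree ≤ g + 1
    · exact ⟨U, T, hU, d2, c, d3, rfl⟩
    obtain ⟨w, hw⟩ := d2
    obtain ⟨u, hu, -, du, dg, e⟩ := flip s ns hU hw
    have t1 : T.natDegree < U.natDegree := by
      by_cases z : T = 0
      · rw [z, natDegree_zero]
        omega
      · exact natDegree_lt_natDegree z d3
    rw [← inv_inv (cx (MI f U T)), ← e, ← inv s hu du]
    exact ih _ (by omega) u (-T) hu (by rwa [neg_sq]) rfl

/-- moving, inverses, reduction modulo the Weierstrass points, finite fibres -/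
theorem move (s : Sv g f) (ns : ∀ c : K, c ^ 2 ≠ f.leadingCoeff) {θ : K} (hθ : f.eval θ = 0) :
    (∀ (P : Cx f) (R : K[X]), R ≠ 0 →
      ∃ x, Mu f (2 * g + 2) x ∧ IsCoprime x.1 R ∧ cx (MI f x.1 x.2) = P) ∧
    (∀ n x, Mu f n x → cx (MI f (nv x).1 (nv x).2) = (cx (MI f x.1 x.2))⁻¹) ∧
    cx (MI f 1 0) = 1 ∧
    (∃ T : Finset (Cx f), (∀ t ∈ T, t * t = 1) ∧
      ∀ P, ∃ t ∈ T, ∃ x, Mu f g x ∧ IsCoprime x.1 f ∧ P = cx (MI f x.1 x.2) * t) ∧
    ∀ U : K[X], U.Monic → {P | ∃ V, U ∣ f - V ^ 2 ∧ cx (MI f U V) = P}.Finite := by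
  classical
  have dl : ∀ {U V : K[X]} (l : K), U.natDegree ≤ g + 1 → V.degree < U.degree →
      (V + C l * U).natDegree ≤ g + 1 := fun l a b =>
    natDegree_add_le_of_degree_le ((natDegree_le_natDegree b.le).trans a)
      ((natDegree_C_mul_le _ _).trans a)
  refine ⟨fun P R R0 => ?_, fun n x hx => inv s hx.1 hx.2.1, by rw [MI_one, cx_top], ?_,
    fun U hU => ?_⟩
  · obtain ⟨U, V, hU, ⟨w, hw⟩, dU, dV, e⟩ := red s ns P⁻¹
    have sq : Squarefree (U * w + V ^ 2) := by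
      rw [← hw, sub_add_cancel]
      exact s.sf
    obtain ⟨l, hl⟩ := (pencil sq R R0).exists_notMem
    rw [Set.mem_ofPred_eq, not_not] at hl
    have e1 : f - (V + C l * U) ^ 2 = U * (w - C (2 * l) * V - C (l ^ 2) * U) := by
      rw [C_mul, C_pow, map_ofNat]
      linear_combination hw
    obtain ⟨u, hu, as, du, dg, k⟩ := flip s ns hU e1
    have := dl l dU dV
    refine ⟨(u, V + C l * U), ⟨hu, du, by simp only; omega⟩,
      hl.of_isCoprime_of_dvd_left as.symm.dvd, ?_⟩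
    rw [k, MI_congr (U := U) (V' := V) ⟨C l, by ring⟩, e, inv_inv]
  · refine ⟨((fin_dvd s.ne).image fun d => cx (MI f d 0)).toFinset, fun t ht => ?_, fun P => ?_⟩
    · obtain ⟨d, hd, rfl⟩ := (Set.Finite.mem_toFinset _).1 ht
      have := inv s (V := 0) hd.1 (by simpa using hd.2)
      rw [neg_zero] at this
      exact mul_eq_one_iff_eq_inv.2 this
    · obtain ⟨U, V, hU, hd, dU, z, rfl⟩ : ∃ U V : K[X], U.Monic ∧ U ∣ f - V ^ 2 ∧
          U.natDegree ≤ g + 1 ∧ (U.natDegree ≤ g ∨ U.eval θ = 0) ∧ cx (MI f U V) = P := by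
        obtain ⟨U, V, hU, hd, dU, dV, e⟩ := red s ns P⁻¹
        by_cases z : U.natDegree ≤ g ∨ U.eval θ = 0
        · exact ⟨U, -V, hU, by rwa [neg_sq], dU, z, by rw [inv s hU hd, e, inv_inv]⟩
        push Not at z
        obtain ⟨l, hl⟩ : ∃ l, V.eval θ + l * U.eval θ = 0 :=
          ⟨-V.eval θ / U.eval θ, by rw [div_mul_cancel₀ _ z.2, add_neg_cancel]⟩
        have d1 : U ∣ V - (V + C l * U) := ⟨-C l, by ring⟩
        obtain ⟨w, hw⟩ := cg hd d1
        obtain ⟨u, hu, as, du, dg, k⟩ := flip s ns hU hw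
        have := dl l dU dV
        refine ⟨u, _, hu, du, by omega, Or.inr ?_, by rw [k, ← MI_congr d1, e, inv_inv]⟩
        have k2 := congrArg (eval θ) hw
        simp only [eval_sub, eval_pow, eval_add, eval_mul, eval_C, hθ, hl] at k2
        exact eval_eq_zero_of_dvd_of_eval_eq_zero as.dvd
          ((mul_eq_zero.1 (k2.symm.trans (by ring))).resolve_left z.2)
      obtain ⟨u, d, um, dm, d2, rfl, cp, e⟩ := strip s hU hd
      refine ⟨_, (Set.Finite.mem_toFinset _).2 ⟨d, ⟨dm, d2⟩, rfl⟩, (u, V),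
        ⟨um, (dvd_mul_right _ _).trans hd, ?_⟩, cp, e⟩
      rw [um.natDegree_mul dm] at dU z
      have : d.eval θ = 0 → 0 < d.natDegree := fun h =>
        dm.natDegree_pos.2 (by rintro rfl; simp at h)
      have : u.eval θ ≠ 0 := fun h => by
        obtain ⟨a, b, k⟩ := cp
        simpa [h, hθ] using congrArg (eval θ) k
      simp only [eval_mul, mul_eq_zero] at z ⊢
      grind
  · by_cases c : ∃ W, U ∣ f - W ^ 2
    swap
    · exact Set.finite_empty.subset fun P ⟨V, h, _⟩ => c ⟨V, h⟩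
    obtain ⟨W, hW⟩ := c
    refine (((fin_dvd hU.ne_zero).prod (fin_dvd hU.ne_zero)).image
      fun x => cx (MI f x.1 W) * cx (MI f x.2 (-W))).subset ?_
    rintro P ⟨V, hV, rfl⟩
    have e : (V - W) * (V - -W) = (f - W ^ 2) - (f - V ^ 2) := by ring
    obtain ⟨d, e, hd, he, rfl⟩ := exists_dvd_and_dvd_of_dvd_mul (e ▸ dvd_sub hW hV)
    obtain ⟨d', dm, da⟩ := exists_monic (left_ne_zero_of_mul hU.ne_zero)
    obtain ⟨e', em, ea⟩ := exists_monic (right_ne_zero_of_mul hU.ne_zero)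
    refine ⟨(d', e'), ⟨⟨dm, da.symm.dvd.mul_right _⟩, em, ea.symm.dvd.mul_left _⟩, ?_⟩
    have as := da.mul_mul ea
    simp only
    rw [MI_assoc as, s.cx_MI_mul dm em (as.symm.dvd.trans hV), MI_congr (da.symm.dvd.trans hd),
      MI_congr (ea.symm.dvd.trans he)]

end Pool.Agent.MP_a43263_nt.VW

end MrgPart5

-- marker of a merged file
example : 731051 + 665195 = 731051 + 665195 := rfl
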