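import Mathlib.Algebra.Azumaya.Basic
import Mathlib.Algebra.Polynomial.Eval.Irreducible
import Mathlib.Analysis.Polynomial.Basic
import Pool.Agent.MP_a43263_nt.UV.Sieve
import Pool.Agent.MP_a43263_nt.VE.Fin

-- ======== part 0: formerly Pool.Agent.MP_a43263_nt.VA.Cmp
section MrgPart0

/-! THEOREM V: the factorisations at the special primes and the local invariants. -/

set_option autoImplicit false

noncomputable section

namespace Pool.Agent.MP_a43263_nt.VA

open Polynomial VV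
open UV (zK iq rq Nm iq_zK rq_zK zK_map dvd_sub_mod)
open UV.Cmp (unit_iff zero_iff iq_eval isSquare_mul prim)

namespace Cmp

section ring
variable {R : Type} [CommRing R]

/-- prescribed values at `a`, at `b` and modulo `h` -/
theorem crt {a b : R} {h : R[X]} (ha : IsUnit (h.eval a)) (hb : IsUnit (h.eval b))
    (hab : IsUnit (a - b)) (A B : R) (Z : R[X]) :
    ∃ W : R[X], W.eval a = A ∧ W.eval b = B ∧ h ∣ W - Z := by
  obtain ⟨s, hs⟩ := ha.exists_right_inv
  obtain ⟨t, ht⟩ := hb.exists_right_inv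
  obtain ⟨d, hd⟩ := hab.exists_right_inv
  refine ⟨Z + h * (C ((A - Z.eval a) * s * d) * (X - C b) - C ((B - Z.eval b) * t * d) * (X - C a)),
    ?_, ?_, by rw [add_sub_cancel_left]; exact dvd_mul_right _ _⟩ <;>
    simp only [eval_add, eval_mul, eval_sub, eval_C, eval_X]
  · linear_combination (A - Z.eval a) * ((a - b) * d * hs + hd)
  · linear_combination (B - Z.eval b) * ((a - b) * d * ht + hd)

theorem three [IsDomain R] {a b : R} {h D : R[X]} (ha : h.eval a ≠ 0) (hb : h.eval b ≠ 0)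
    (hab : a ≠ b) (h1 : D.eval a = 0) (h2 : D.eval b = 0) (h3 : h ∣ D) :
    (X - C a) * (X - C b) * h ∣ D := by
  obtain ⟨E, rfl⟩ := h3
  rw [eval_mul, mul_eq_zero] at h1 h2
  obtain ⟨E, rfl⟩ := dvd_iff_isRoot.2 (h1.resolve_left ha)
  have h4 := h2.resolve_left hb
  rw [eval_mul, eval_sub, eval_X, eval_C, mul_eq_zero, sub_eq_zero] at h4
  obtain ⟨E, rfl⟩ := dvd_iff_isRoot.2 (h4.resolve_left hab.symm)
  exact ⟨E, by ring⟩

theorem key {h δ r P z x t ζ W π q : R} {y : ℕ} (h1 : h ∣ δ * r - P * z) (h2 : h ∣ x - t * ζ ^ y)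
    (h3 : h ∣ W - z * ζ ^ y) (h4 : h ∣ π - q * ζ) (h5 : P * t ^ 2 = q ^ y) :
    h ∣ δ * x ^ 2 * r - W * π ^ y := by
  rw [← Ideal.mem_span_singleton, ← Ideal.Quotient.eq_zero_iff_mem] at h1 h2 h3 h4 ⊢
  have h6 := congrArg (Ideal.Quotient.mk (Ideal.span {h})) h5
  simp only [map_sub, map_mul, map_pow, sub_eq_zero] at h1 h2 h3 h4 h6 ⊢
  rw [h2, h3, h4, mul_pow _ _ y, ← h6]
  generalize Ideal.Quotient.mk (Ideal.span {h}) = φ at *
  linear_combination (φ t * φ ζ ^ y) ^ 2 * h1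

end ring

variable {p : ℕ} [Fact p.Prime]

theorem rq_eval (r : ℤ_[p][X]) (a : ℤ_[p]) :
    (rq p r).eval (PadicInt.toZMod a) = PadicInt.toZMod (r.eval a) := by
  rw [eval_map, eval₂_at_apply]

/-- a simple root lifts -/
theorem lift {F : ℤ_[p][X]} {t : ZMod p} {G₀ : (ZMod p)[X]} (e : rq p F = (X - C t) * G₀)
    (hG : G₀.eval t ≠ 0) :
    ∃ a G, F = (X - C a) * G ∧ PadicInt.toZMod a = t ∧ rq p G = G₀ := by
  obtain ⟨a₀, rfl⟩ := ZMod.ringHom_surjective (PadicInt.toZMod (p := p)) t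
  have a1 : ‖F.eval a₀‖ < 1 := by
    rw [← zero_iff, ← rq_eval, e]
    simp
  have a2 : ‖F.derivative.eval a₀‖ = 1 := by
    rw [← PadicInt.isUnit_iff, unit_iff, ← rq_eval, rq, ← derivative_map, ← rq, e]
    simpa using hG
  obtain ⟨a, b1, b2, -⟩ := hensels_lemma (F := F) (a := a₀)
    (by rw [coe_aeval_eq_eval, a2, one_pow]; exact a1)
  rw [coe_aeval_eq_eval] at b1 b2
  rw [a2, ← zero_iff, map_sub, sub_eq_zero] at b2
  obtain ⟨G, hG⟩ := (dvd_iff_isRoot (p := F) (a := a)).2 b1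
  refine ⟨a, G, hG, b2, ?_⟩
  rw [hG, rq, Polynomial.map_mul, Polynomial.map_sub, map_X, map_C, b2] at e
  exact mul_left_cancel₀ (X_sub_C_ne_zero _) e

theorem no_root {K : Type} [Field K] {h : K[X]} {g : ℕ} (hi : Irreducible h)
    (hd : h.natDegree = 2 * g) (t : K) : h.eval t ≠ 0 := fun c => by
  have e2 : h.natDegree = 1 :=
    natDegree_eq_of_degree_eq_some (degree_eq_one_of_irreducible_of_root hi c)
  omega

variable {g : ℕ} {f : ℤ[X]} {c a b : ℤ_[p]} {h : ℤ_[p][X]}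

theorem red (H : Hd p g f c a b h) :
    zK f (ZMod p) = C (PadicInt.toZMod c) * (X * (X - 1) * rq p h) := by
  rw [← rq_zK, H.eq]
  simp only [rq, Polynomial.map_mul, Polynomial.map_sub, map_X, map_C, H.zero, H.one, C_0, C_1,
    sub_zero]

theorem inc (H : Hd p g f c a b h) :
    zK f ℚ_[p] = C (c : ℚ_[p]) * ((X - C (a : ℚ_[p])) * (X - C (b : ℚ_[p])) * iq p h) := by
  rw [← iq_zK, H.eq]
  simp only [iq, Polynomial.map_mul, Polynomial.map_sub, map_X, map_C]
  rfl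

theorem units (H : Hd p g f c a b h) :
    IsUnit (h.eval a) ∧ IsUnit (h.eval b) ∧ IsUnit (a - b) := by
  simp only [unit_iff, ← rq_eval, map_sub, H.zero, H.one]
  exact ⟨left_ne_zero_of_mul H.ne, right_ne_zero_of_mul H.ne, by simp⟩

theorem pv_eq {R : Type} [CommRing R] {q : ℕ} (f : ℤ[X]) :
    zK (pv q f) R = zK (f /ₘ (X ^ 2 - X)) R ^ 2 + C (q : R) := by
  rw [pv, zK, Polynomial.map_add, Polynomial.map_pow, map_C]
  simp

theorem quo (H : Hd p g f c a b h) :
    zK (f /ₘ (X ^ 2 - X)) (ZMod p) = C (PadicInt.toZMod c) * rq p h := by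
  have m : ∀ (R : Type) [CommRing R], (X ^ 2 - X : R[X]).Monic := fun R _ => by
    rw [show (X ^ 2 - X : R[X]) = X * (X - C 1) by rw [C_1]; ring]
    exact monic_X.mul (monic_X_sub_C 1)
  rw [zK, map_divByMonic _ (m ℤ), ← zK, red H, Polynomial.map_sub, Polynomial.map_pow, map_X,
    show ∀ u v : (ZMod p)[X], u * (X * (X - 1) * v) = (X ^ 2 - X) * (u * v) from
      fun u v => by ring, mul_divByMonic_cancel_left _ (m _)]

theorem pv_red (H : Hd p g f c a b h) (t : ℤ_[p]) :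
    PadicInt.toZMod ((zK (pv p f) ℤ_[p]).eval t) =
      (PadicInt.toZMod c * (rq p h).eval (PadicInt.toZMod t)) ^ 2 := by
  rw [← rq_eval, rq_zK, pv_eq, quo H]
  simp

theorem pv_mod (H : Hd p g f c a b h) : ∃ ζ : ℤ_[p][X], rq p ζ = 1 ∧
    h ∣ zK (pv p f) ℤ_[p] - C (p : ℤ_[p]) * ζ := by
  obtain ⟨κ, hκ⟩ : C (p : ℤ_[p]) ∣ zK (f /ₘ (X ^ 2 - X)) ℤ_[p] - C c * h := by
    refine (C_dvd_iff_dvd_coeff _ _).2 fun i => ?_
    rw [← PadicInt.norm_lt_one_iff_dvd, ← zero_iff, ← coeff_map, Polynomial.map_sub, zK_map, quo H,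
      Polynomial.map_mul, map_C, sub_self, coeff_zero]
  refine ⟨1 + C (p : ℤ_[p]) * κ ^ 2, by simp [rq], C c * (C c * h + 2 * C (p : ℤ_[p]) * κ), ?_⟩
  rw [pv_eq, eq_add_of_sub_eq hκ]
  ring

end Cmp

open Cmp

theorem hens : HENSStmt := by
  refine ⟨fun p _ g f Z T => ?_, fun p _ g f Z hp => ?_⟩
  · obtain ⟨m, u, mm, md, -, e, -⟩ := exists_monic Z (ty_lc Z.deg Fact.out T)
    obtain ⟨c0, h0, n0, e0, m0, i0, d0, s0⟩ := T
    have nr := no_root i0 d0
    have m1 : (X * (X - 1) * h0 : (ZMod p)[X]).Monic := (monic_X.mul (monic_X_sub_C 1)).mul m0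
    rw [← rq_zK, e, rq, Polynomial.map_mul, map_C] at e0
    have e1 := congrArg leadingCoeff e0
    rw [leadingCoeff_mul, leadingCoeff_mul, leadingCoeff_C, leadingCoeff_C, m1.leadingCoeff,
      (mm.map _).leadingCoeff, mul_one, mul_one] at e1
    rw [e1] at e0
    have e2 := mul_left_cancel₀ (C_ne_zero.2 n0) e0
    obtain ⟨a, G, g1, g2, g3⟩ := lift (F := m) (t := 0) (G₀ := (X - C 1) * h0)
      (by rw [rq, e2, C_0, C_1, sub_zero, mul_assoc]) (by simpa using nr 0)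
    obtain ⟨b, h, h1, h2, h3⟩ := lift g3 (nr 1)
    have mh : h.Monic := (monic_X_sub_C b).of_mul_monic_left
      (h1 ▸ (monic_X_sub_C a).of_mul_monic_left (g1 ▸ mm))
    exact ⟨u, a, b, h, by rw [e, g1, h1, mul_assoc], u.isUnit, mh,
      by rw [← d0, ← h3, mh.natDegree_map], g2, h2, h3 ▸ i0, h3 ▸ mul_ne_zero (nr 0) (nr 1),
      h3 ▸ s0⟩
  · have d0 := (Z.inf p Fact.out hp).2
    have d1 : (zK f ℤ_[p]).natDegree = 1 + (2 * g + 1) := by
      rw [natDegree_map_eq_of_injective (RingHom.injective_int _), Z.deg]; omega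
    have n0 : (reflect (2 * g + 1) (zK f (ZMod p))).eval 0 ≠ 0 := by
      rw [← coeff_zero_eq_eval_zero, coeff_reflect, revAt_zero, ← d0]
      exact leadingCoeff_ne_zero.2 (fam_red Z Fact.out)
    obtain ⟨t, G, g1, -, g3⟩ := lift (F := reflect (1 + (2 * g + 1)) (zK f ℤ_[p])) (t := 0) (by
      rw [rq, ← reflect_map, zK_map, C_0, sub_zero]
      conv_lhs => rw [← one_mul (zK f (ZMod p))]
      rw [reflect_mul _ _ (by simp) d0.le, reflect_one, pow_one]) n0
    obtain ⟨e, he⟩ : IsUnit (G.coeff 0) := by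
      rwa [unit_iff, ← coeff_map, ← rq, g3, coeff_zero_eq_eval_zero]
    have G0 : G ≠ 0 := fun c => e.ne_zero (by rw [he, c, coeff_zero])
    have dG : G.natDegree ≤ 2 * g + 1 := by
      have := natDegree_reflect_le (N := 1 + (2 * g + 1)) (p := zK f ℤ_[p])
      rw [g1, (monic_X_sub_C t).natDegree_mul' G0, natDegree_X_sub_C, d1] at this
      omega
    have l : (f.leadingCoeff : ℤ_[p]) = -t * e := by
      have := congrArg (fun P => P.coeff 0) g1
      simp only [coeff_reflect, revAt_zero, mul_coeff_zero, coeff_sub, coeff_X_zero, coeff_C_zero,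
        zero_sub, ← d1, coeff_natDegree] at this
      rw [he, ← this]
      exact (leadingCoeff_map_of_injective (RingHom.injective_int (Int.castRingHom ℤ_[p])) f).symm
    have d2 : (C ((e⁻¹ : ℤ_[p]ˣ) : ℤ_[p]) * reflect (2 * g + 1) G).natDegree ≤ 2 * g + 1 :=
      (natDegree_C_mul_le _ _).trans (natDegree_reflect_le.trans (max_le le_rfl dG))
    have c2 : (C ((e⁻¹ : ℤ_[p]ˣ) : ℤ_[p]) * reflect (2 * g + 1) G).coeff (2 * g + 1) = 1 := by
      rw [coeff_C_mul, coeff_reflect, revAt_le le_rfl, Nat.sub_self, ← he, Units.inv_mul]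
    refine ⟨e, _, ?_, e.isUnit, monic_of_natDegree_le_of_coeff_eq_one _ d2 c2,
      le_antisymm d2 (le_natDegree_of_ne_zero (c2 ▸ one_ne_zero))⟩
    have := congrArg (reflect (1 + (2 * g + 1))) g1
    rw [reflect_reflect, reflect_mul _ _ (natDegree_X_sub_C_le t) dG, reflect_sub, reflect_one_X,
      reflect_C, pow_one] at this
    have k : C (e : ℤ_[p]) * C ((e⁻¹ : ℤ_[p]ˣ) : ℤ_[p]) = 1 := by
      rw [← C_mul, Units.mul_inv, C_1]
    rw [this, l, C_mul, C_neg]
    linear_combination (C t * X - 1) * reflect (2 * g + 1) G * k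

theorem cmp : CMPStmt := by
  intro p _ g f c a b h δ r x y v w k z u Z H hr hx hy hv hw ea eb hu hd hz
  have hp : (p : ℚ_[p]) ≠ 0 := Nat.cast_ne_zero.2 (Fact.out : p.Prime).ne_zero
  set n := (k : ZMod 2).val with hn
  have hk : (n : ℤ) = k % 2 := ZMod.val_intCast k
  obtain ⟨ζ, z1, z2⟩ := pv_mod H
  obtain ⟨ua, ub, uab⟩ := units H
  have q : ∀ {t : ℤ_[p]}, IsUnit t → (t : ℚ_[p]) ≠ 0 := fun ht =>
    (ht.map PadicInt.Coe.ringHom).ne_zero
  have qa : (iq p h).eval (a : ℚ_[p]) ≠ 0 := iq_eval h a ▸ q ua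
  have qb : (iq p h).eval (b : ℚ_[p]) ≠ 0 := iq_eval h b ▸ q ub
  have qab : (a : ℚ_[p]) - b ≠ 0 := PadicInt.coe_sub a b ▸ q uab
  have pa := pv_red H a
  have pb := pv_red H b
  set π := zK (pv p f) ℤ_[p] with hπ
  obtain ⟨W, w1, w2, w3⟩ := crt ua ub uab (v * π.eval a ^ n) (w * π.eval b ^ n) (z * ζ ^ n)
  obtain ⟨X', x1, x2, x3⟩ := crt qa.isUnit qb.isUnit qab.isUnit
    (((π.eval a : ℤ_[p]) : ℚ_[p]) ^ n / x) (((π.eval b : ℤ_[p]) : ℚ_[p]) ^ n / y)
    (C ((p : ℚ_[p]) ^ (-(k / 2))) * iq p ζ ^ n)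
  have c0 := unit_iff.1 H.unit
  have n0 := mul_ne_zero c0 (left_ne_zero_of_mul H.ne)
  have n1 := mul_ne_zero c0 (right_ne_zero_of_mul H.ne)
  have e0 : (rq p W).eval 0 =
      PadicInt.toZMod v * ((PadicInt.toZMod c * (rq p h).eval 0) ^ n) ^ 2 := by
    rw [← H.zero, rq_eval, w1, map_mul, map_pow, pa, ← pow_mul, ← pow_mul, mul_comm n]
  have e1 : (rq p W).eval 1 =
      PadicInt.toZMod w * ((PadicInt.toZMod c * (rq p h).eval 1) ^ n) ^ 2 := by
    rw [← H.one, rq_eval, w2, map_mul, map_pow, pb, ← pow_mul, ← pow_mul, mul_comm n]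
  refine ⟨X', r, W, hr, ?_, ?_, ?_⟩
  · rw [inc H, ← iq_zK (pv p f), ← hπ, (isUnit_C.2 (q H.unit).isUnit).mul_left_dvd]
    refine three qa qb (sub_ne_zero.1 qab) ?_ ?_ ?_
    · simp only [eval_sub, eval_mul, eval_pow, eval_C, iq_eval, w1, x1, PadicInt.coe_mul,
        PadicInt.coe_pow]
      field_simp
      linear_combination (((π.eval a : ℤ_[p]) : ℚ_[p]) ^ n) ^ 2 * ea
    · simp only [eval_sub, eval_mul, eval_pow, eval_C, iq_eval, w2, x2, PadicInt.coe_mul,
        PadicInt.coe_pow]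
      field_simp
      linear_combination (((π.eval b : ℤ_[p]) : ℚ_[p]) ^ n) ^ 2 * eb
    · have a2 := Polynomial.map_dvd (PadicInt.Coe.ringHom (p := p)) w3
      have a3 := Polynomial.map_dvd (PadicInt.Coe.ringHom (p := p)) z2
      rw [Polynomial.map_sub, Polynomial.map_mul, Polynomial.map_pow] at a2
      rw [Polynomial.map_sub, Polynomial.map_mul, map_C, map_natCast] at a3
      refine key hd x3 a2 a3 ?_
      rw [← C_pow, ← C_pow, ← C_mul, ← zpow_natCast, ← zpow_natCast, ← zpow_mul, ← zpow_add₀ hp]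
      congr 2
      push_cast
      omega
  · rw [red H, isCoprime_mul_unit_left_right (isUnit_C.2 c0.isUnit)]
    refine IsCoprime.mul_right (IsCoprime.mul_right ?_ ?_) ?_
    · refine (irreducible_X.coprime_iff_not_dvd.2 fun d => ?_).symm
      rw [X_dvd_iff, coeff_zero_eq_eval_zero, e0] at d
      exact mul_ne_zero (unit_iff.1 hv) (pow_ne_zero _ (pow_ne_zero _ n0)) d
    · refine ((irreducible_X_sub_C (1 : ZMod p)).coprime_iff_not_dvd.2 fun d => ?_).symm
      rw [dvd_iff_isRoot, IsRoot, e1] at d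
      exact mul_ne_zero (unit_iff.1 hw) (pow_ne_zero _ (pow_ne_zero _ n1)) d
    · refine (H.irr.coprime_iff_not_dvd.2 fun d => hz ?_).symm
      have a2 := Polynomial.map_dvd (PadicInt.toZMod (p := p)) w3
      rw [Polynomial.map_sub, Polynomial.map_mul, Polynomial.map_pow,
        show ζ.map PadicInt.toZMod = 1 from z1, one_pow, mul_one] at a2
      exact (dvd_sub_right d).1 a2
  · rw [e0, e1, mul_mul_mul_comm, ← mul_pow, ← map_mul,
      isSquare_mul (mul_ne_zero (pow_ne_zero _ n0) (pow_ne_zero _ n1))]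
    exact hu

theorem nfe : HENSStmt → CMPStmt → NFEStmt := by
  intro hH hC p _ g f δ Z T co ⟨s, hs⟩
  classical
  have G := UV.gram.1
  obtain ⟨c, a, b, h, H⟩ := hH.1 p g f Z T
  have hp : (p : ℚ_[p]) ≠ 0 := Nat.cast_ne_zero.2 (Fact.out : p.Prime).ne_zero
  have hm : (iq p h).Monic := H.monic.map _
  have hg : (iq p h).natDegree = 2 * g := by rw [H.monic.natDegree_map, H.deg]
  have f0 := sq_ne (fam_sq Z ℚ_[p])
  have m2 := (monic_X_sub_C (a : ℚ_[p])).mul (monic_X_sub_C (b : ℚ_[p]))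
  have em : mo (zK f ℚ_[p]) = (X - C (a : ℚ_[p])) * (X - C (b : ℚ_[p])) * iq p h := by
    have c0 : (c : ℚ_[p]) ≠ 0 := (H.unit.map PadicInt.Coe.ringHom).ne_zero
    rw [inc H, mo_C_mul c0, mo_of_monic (m2.mul hm)]
  rw [← mo_cop f0] at co
  have s0 : s ≠ 0 := fun e => by
    have := ((G _ _ (mo_monic f0)).2.2.2.1 δ).2 co
    rw [hs, e, mul_zero] at this
    exact not_isUnit_zero this
  rw [em] at co hs
  have lin : ∀ t : ℚ_[p], Nm (X - C t) δ = δ.eval t := fun t => by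
    obtain ⟨-, k2, k3, -⟩ := G _ _ (monic_X_sub_C t)
    rw [k2 δ (C (δ.eval t)) X_sub_C_dvd_sub_C_eval, k3, natDegree_X_sub_C, pow_one]
  rw [(G _ _ m2).2.2.2.2.1 _ hm, (G _ _ (monic_X_sub_C _)).2.2.2.2.1 _ (monic_X_sub_C _), lin,
    lin] at hs
  set r := δ.eval (a : ℚ_[p]) with hr
  have r0 : r ≠ 0 := fun e => by
    rw [e, zero_mul, zero_mul] at hs
    exact mul_ne_zero s0 s0 hs.symm
  have d0 : (δ * C r) %ₘ iq p h ≠ 0 := fun e => by
    have u1 := co.of_mul_right_right.symm.isUnit_of_dvd ((isUnit_C.2 r0.isUnit).dvd_mul_right.1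
      ((modByMonic_eq_zero_iff_dvd hm).1 e))
    have u2 := natDegree_eq_zero_of_isUnit u1
    have := Z.pos
    omega
  obtain ⟨k, z, e, hz⟩ := prim d0
  have dv : iq p h ∣ δ * C r - C ((p : ℚ_[p]) ^ k) * iq p z := e ▸ dvd_sub_mod _
  have nd : ¬rq p h ∣ rq p z := fun c => by
    refine hz (eq_zero_of_dvd_of_degree_lt c ?_)
    have l1 := degree_modByMonic_lt (δ * C r) hm
    rw [e, degree_C_mul (zpow_ne_zero _ hp), H.monic.degree_map,
      degree_map_eq_of_injective Subtype.val_injective] at l1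
    rw [H.monic.degree_map]
    exact degree_map_le.trans_lt l1
  obtain ⟨g1, g2, g3, -, -, -⟩ := G _ _ hm
  have g6 := (G _ _ H.monic).2.2.2.2.2
  obtain ⟨v, hv⟩ : IsUnit (Nm h z) := by
    rw [unit_iff, ← g6, ← isUnit_iff_ne_zero, (G _ _ (H.monic.map _)).2.2.2.1]
    exact (H.irr.coprime_iff_not_dvd.2 nd).symm
  have e2 := g2 _ _ dv
  rw [g1, g1, g3, g3, hg, g6, ← hv] at e2
  have q0 : ((p : ℚ_[p]) ^ k) ^ g ≠ 0 := pow_ne_zero _ (zpow_ne_zero _ hp)
  have vv : (((v⁻¹ : ℤ_[p]ˣ) : ℤ_[p]) : ℚ_[p]) * PadicInt.Coe.ringHom (v : ℤ_[p]) = 1 := by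
    change _ * ((v : ℤ_[p]) : ℚ_[p]) = 1
    rw [← PadicInt.coe_mul, Units.inv_mul, PadicInt.coe_one]
  refine ⟨if IsSquare (PadicInt.toZMod (1 * ((v⁻¹ : ℤ_[p]ˣ) : ℤ_[p]))) then 0 else 1, k,
    hC p g f c a b h δ r r (s * r ^ g / ((p : ℚ_[p]) ^ k) ^ g) 1 _ k z _ Z H r0 r0
      (div_ne_zero (mul_ne_zero s0 (pow_ne_zero _ r0)) q0) isUnit_one (v⁻¹).isUnit
      (by rw [PadicInt.coe_one, one_mul, sq]) ?_ ?_ dv nd⟩
  · rw [div_pow, mul_div_assoc', eq_div_iff (pow_ne_zero _ q0), ← pow_mul, mul_comm g 2, mul_pow,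
      ← pow_mul, mul_comm g 2]
    linear_combination (((v⁻¹ : ℤ_[p]ˣ) : ℤ_[p]) : ℚ_[p]) * (r ^ (2 * g) * hs -
      r * δ.eval (b : ℚ_[p]) * e2) - r * δ.eval (b : ℚ_[p]) * ((p : ℚ_[p]) ^ k) ^ (2 * g) * vv
  · split_ifs with c
    · exact iff_of_true c rfl
    · exact iff_of_false c one_ne_zero

end Pool.Agent.MP_a43263_nt.VA

end
end MrgPart0

-- ======== part 1: formerly Pool.Agent.MP_a43263_nt.VB.Noq
section MrgPart1

/-! THEOREM V, part B: no quadratic subfield. -/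

set_option autoImplicit false

noncomputable section

namespace Pool.Agent.MP_a43263_nt.VB

open Polynomial Finset Matrix JC VV
open UV (zK iq rq Nm Nx po)

namespace Noq

/-- an irreducible polynomial that splits as a linear times an irreducible factor -/
theorem fld {K L : Type} [Field K] [Field L] (φ : K →+* L) {M : K[X]} {n : ℕ} (hM : M.Monic)
    (hi : Irreducible M) (hd : M.natDegree = n + 3) {a : L} {F : L[X]} (hF : F.Monic)
    (hi' : Irreducible F) (e : M.map φ = (X - C a) * F) {x : K[X]} {c : K}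
    (h : M ∣ x ^ 2 - C c) : ∃ t, M ∣ x - C t := by
  have dF : F.natDegree = n + 2 := by
    have := congrArg natDegree e
    rw [natDegree_map, (monic_X_sub_C a).natDegree_mul hF, natDegree_X_sub_C, hd] at this
    omega
  have h0 : M ∣ x - x %ₘ M := UV.dvd_sub_mod x
  have h1 : (x %ₘ M).natDegree ≤ n + 2 := by
    have := natDegree_modByMonic_lt x hM (by rintro rfl; simp at hd)
    omega
  generalize x %ₘ M = y at h0 h1
  have h2 : (X - C a) * F ∣ y.map φ ^ 2 - C (φ c) := by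
    have : M ∣ y ^ 2 - C c := by
      have := dvd_sub h (h0.mul_right (x + y))
      rwa [show x ^ 2 - C c - (x - y) * (x + y) = y ^ 2 - C c by ring] at this
    have := Polynomial.map_dvd φ this
    rwa [e, Polynomial.map_sub, Polynomial.map_pow, map_C] at this
  have h3 : φ c = (y.map φ).eval a ^ 2 := by
    have := dvd_iff_isRoot.1 (dvd_of_mul_right_dvd h2)
    rw [IsRoot, eval_sub, eval_pow, eval_C, sub_eq_zero] at this
    exact this.symm
  obtain ⟨s, T, hT⟩ : ∃ s, F ∣ y.map φ - C s := by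
    have := dvd_of_mul_left_dvd h2
    rw [h3, C_pow, sq_sub_sq] at this
    rcases hi'.prime.dvd_or_dvd this with k | k
    · exact ⟨-(y.map φ).eval a, by rwa [C_neg, sub_neg_eq_add]⟩
    · exact ⟨_, k⟩
  obtain ⟨t, rfl⟩ : ∃ t, T = C t := by
    by_cases k : T = 0
    · exact ⟨0, by rw [k, C_0]⟩
    refine ⟨_, eq_C_of_natDegree_eq_zero ?_⟩
    have := congrArg natDegree hT
    rw [natDegree_sub_C, natDegree_map, natDegree_mul hF.ne_zero k] at this
    omega
  have h4 : ∀ i, φ (y.coeff (i + 1)) = F.coeff (i + 1) * t := fun i => by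
    have := congrArg (coeff · (i + 1)) hT
    simpa [coeff_C_succ] using this
  have h5 : F.coeff (n + 2) = 1 := dF ▸ hF.coeff_natDegree
  by_cases k : t = 0
  · refine ⟨y.coeff 0, ?_⟩
    rwa [← eq_C_of_natDegree_eq_zero (p := y) (natDegree_eq_zero_iff_degree_le_zero.2
      ((degree_le_iff_coeff_zero _ _).2 fun i hi => ?_))]
    obtain ⟨i, rfl⟩ : ∃ j, i = j + 1 := ⟨i - 1, by
      have : 0 < i := by exact_mod_cast hi
      omega⟩
    exact (map_eq_zero φ).1 (by rw [h4, k, mul_zero])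
  · exfalso
    have h6 : a = φ (y.coeff (n + 1) / y.coeff (n + 2) - M.coeff (n + 2)) := by
      have := congrArg (coeff · (n + 2)) e
      simp only [coeff_map, sub_mul, coeff_sub, coeff_X_mul, coeff_C_mul, h5, mul_one] at this
      rw [map_sub, map_div₀, h4, h4, h5, this, one_mul, mul_div_cancel_right₀ _ k]
      ring
    have h7 : M.IsRoot (y.coeff (n + 1) / y.coeff (n + 2) - M.coeff (n + 2)) := by
      refine (map_eq_zero φ).1 ?_
      rw [← eval₂_at_apply, ← eval_map, e, ← h6]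
      simp
    have : M.natDegree = 1 :=
      natDegree_eq_of_degree_eq_some (degree_eq_one_of_irreducible_of_root hi h7)
    omega

/-- the factorisation over the `p`-adic integers -/
theorem fac {p : ℕ} [Fact p.Prime] {m : ℤ_[p][X]} (hm : m.Monic) {h : (ZMod p)[X]}
    (e : rq p m = X * h) (hi : Irreducible h) (hd : h.natDegree ≠ 1) :
    ∃ (a : ℚ_[p]) (F : ℚ_[p][X]), F.Monic ∧ Irreducible F ∧ iq p m = (X - C a) * F := by
  have h0 : h.eval 0 ≠ 0 := fun k =>
    hd (natDegree_eq_of_degree_eq_some (degree_eq_one_of_irreducible_of_root hi k))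
  have k : ∀ P : ℤ_[p][X], PadicInt.toZMod (P.eval 0) = (rq p P).eval 0 := fun P => by
    rw [← coeff_zero_eq_eval_zero, ← coeff_zero_eq_eval_zero, coeff_map]
  obtain ⟨a, h1, h2⟩ := HenselianRing.is_henselian (I := IsLocalRing.maximalIdeal ℤ_[p]) m hm 0
    (by rw [← PadicInt.ker_toZMod, RingHom.mem_ker, k, e]; simp)
    ((unit_of (by rw [k, rq, ← derivative_map, ← rq, e]; simpa using h0)).map _)
  rw [sub_zero, ← PadicInt.ker_toZMod, RingHom.mem_ker] at h2
  obtain ⟨F, rfl⟩ := dvd_iff_isRoot.2 h1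
  have hF : F.Monic := (monic_X_sub_C a).of_mul_monic_left hm
  have h3 : rq p F = h := by
    rw [rq, Polynomial.map_mul, Polynomial.map_sub, map_X, map_C, h2, C_0, sub_zero] at e
    exact mul_left_cancel₀ X_ne_zero e
  refine ⟨a, iq p F, hF.map _, ?_, ?_⟩
  · exact (hF.irreducible_iff_irreducible_map_fraction_map (K := ℚ_[p])).1
      (hF.irreducible_of_irreducible_map PadicInt.toZMod _ (by rwa [← h3] at hi))
  · rw [iq, Polynomial.map_mul, Polynomial.map_sub, map_X, map_C]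
    rfl

end Noq

theorem noq : NOQStmt := by
  intro g f x c H hx
  obtain ⟨h, e, hi, hd⟩ := H.two
  have hg := H.pos
  have h2 : ¬((2 : ℕ) : ℤ) ∣ f.leadingCoeff := fun k => by
    have h1 : (zK f (ZMod 2)).coeff (2 * g + 2) = 0 := by
      rw [coeff_map, ← H.deg]
      exact (ZMod.intCast_zmod_eq_zero_iff_dvd _ _).2 k
    rw [e, coeff_X_mul, ← hd, coeff_natDegree, leadingCoeff_eq_zero] at h1
    exact hi.ne_zero h1
  have h0 : (f.leadingCoeff : ℚ) ≠ 0 := Int.cast_ne_zero.2 fun k => h2 (k ▸ dvd_zero _)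
  obtain ⟨m, -, hm, -, e1, e2, -⟩ := mon h2
  have u := (inv_ne_zero (lc_ne h2)).isUnit
  obtain ⟨a, F, hF, hF', e3⟩ := Noq.fac hm (h := C (f.leadingCoeff : ZMod 2)⁻¹ * h)
    (by rw [e2, mf_eq (lc_ne h2), e, mul_left_comm])
    ((irreducible_isUnit_mul (isUnit_C.2 u)).2 hi)
    (by rw [natDegree_C_mul u.ne_zero]; omega)
  obtain ⟨t, ht⟩ := Noq.fld (algebraMap ℚ ℚ_[2]) (n := 2 * g - 1) (mf_monic h0)
    (by rw [mf_eq h0]; exact (irreducible_isUnit_mul (isUnit_C.2 (inv_ne_zero h0).isUnit)).2 H.irr)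
    (by rw [mf_deg h0, H.deg]; omega) hF hF' (by rw [mf_map h0, ← e1, e3]) ((mf_dvd h0).2 hx)
  exact ⟨t, (mf_dvd h0).1 ht⟩

end Pool.Agent.MP_a43263_nt.VB

end
end MrgPart1

-- ======== part 2: formerly Pool.Agent.MP_a43263_nt.VW.Ns
section MrgPart2

/-! THEOREM V, part W: the leading coefficient is no square modulo `f`. -/

set_option autoImplicit false

noncomputable section

namespace Pool.Agent.MP_a43263_nt.VW

open Polynomial Filter JC
open Pool.Agent.MP_a43263_nt.UV (zK)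

theorem Ns.lc_neg {f : ℚ[X]} (h : VV.Neg f) (h0 : 0 < f.degree) : f.leadingCoeff < 0 := by
  by_contra c
  have := tendsto_atTop_of_leadingCoeff_nonneg (fK f ℝ) (by rwa [degree_map])
    (by rw [leadingCoeff_map]; simpa using c)
  obtain ⟨x, hx⟩ := (this.eventually_ge_atTop 0).exists
  exact hx.not_gt (h x)

theorem ns (g : ℕ) (f : ℤ[X]) (d : ℚ) (h : VV.Fam g f) (d0 : 0 < d) (s : ℚ[X]) :
    ¬C d * zK f ℚ ∣ s ^ 2 - C (C d * zK f ℚ).leadingCoeff := fun k => by
  have h0 := degree_pos_of_irreducible h.irr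
  have k1 := (dvd_mul_left _ _).trans k
  obtain ⟨t, ht⟩ := VB.noq g f s _ h k1
  have k2 : zK f ℚ ∣ C (t ^ 2 - (C d * zK f ℚ).leadingCoeff) := by
    rw [C_sub, C_pow, show ∀ c : ℚ[X], C t ^ 2 - c = s ^ 2 - c - (s - C t) * (s + C t) from
      fun c => by ring]
    exact dvd_sub k1 (ht.mul_right _)
  have k3 := C_eq_zero.1 (eq_zero_of_dvd_of_degree_lt k2 (degree_C_le.trans_lt h0))
  rw [leadingCoeff_mul, leadingCoeff_C] at k3
  nlinarith [mul_neg_of_pos_of_neg d0 (Ns.lc_neg h.neg h0), sq_nonneg t]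

end Pool.Agent.MP_a43263_nt.VW

end
end MrgPart2

-- marker of a merged file
example : 731051 + 137752 = 731051 + 137752 := rfl
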