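import Pool.Agent.MP_a43263_nt.VW.LocSpec

/-! THEOREM V, part W: heights over a number field. The statements. -/

set_option autoImplicit false

noncomputable section

namespace Pool.Agent.MP_a43263_nt.VW

open Polynomial Finset Filter JC
open JM (Qb Pc Sys nx pn lam Mu nv Oc ev mx)

section
variable {L : Type} [Field L]

/-- the places: an embedding and a place of the algebraic closure -/
abbrev Pl (L : Type) [Field L] : Type := (L →+* Qb) × Pc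

/-- the points of a pair under an embedding -/
def pts (σ : L →+* Qb) (x : L[X] × L[X]) : Multiset (Qb × Qb) :=
  (x.1.map σ).roots.map fun t => (t, (x.2.map σ).eval t)

/-- the pairing -/
def be (S : Sys) (g : ℕ) (x y : L[X] × L[X]) : ℝ :=
  ∑ᶠ π : Pl L, lam g (S.w π.2) (pts π.1 x) (pts π.1 y)

/-- the height of a polynomial -/
def Ht (S : Sys) (U : L[X]) : ℝ :=
  ∑ᶠ π : Pl L, ((U.map π.1).roots.map fun t => Real.log (nx (S.w π.2) t)).sum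

/-- no common point -/
def Dj (x y : L[X] × L[X]) : Prop := ∀ σ : L →+* Qb, ∀ p ∈ pts σ x, p ∉ pts σ y

/-- the class of a pair -/
abbrev cp (f : L[X]) (x : L[X] × L[X]) : VD.Cx f := VD.cx (MI f x.1 x.2)

/-- a curve that is the same under all embeddings -/
structure Gl (g : ℕ) (f : L[X]) (F : Qb[X]) : Prop where
  sv : VD.Sv g f
  map : ∀ σ : L →+* Qb, f.map σ = F

end

/-- the constants of the places -/
def Kq (S : Sys) (g : ℕ) (F : Qb[X]) (κ : Pc → ℝ) : Prop :=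
  (∃ α β : Fin (2 * g + 2) → Qb, ∀ v, Lc g (S.w v) (κ v) α β F) ∧ ∀ᶠ v in cofinite, κ v = 1

def KAPStmt : Prop := ∀ (S : Sys) (g : ℕ) (F : Qb[X]), VD.Sv g F → ∃ κ, Kq S g F κ

/-- the Gauss lemma for the norm -/
def NORMStmt : Prop := ∀ (S : Sys) (g n : ℕ) (F : Qb[X]), VD.Sv g F → ∃ c : Pc → ℝ,
  (∀ v, 1 ≤ c v) ∧ (∀ᶠ v in cofinite, c v = 1) ∧ ∀ (v : Pc) (A B : Qb[X]), A.natDegree ≤ n →
    B.natDegree ≤ n → max (pn (S.w v) A) (pn (S.w v) B) ^ 2 ≤ c v * pn (S.w v) (A ^ 2 - F * B ^ 2)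

/-- finite supports, the product formula, norms -/
def SUMStmt : Prop := ∀ (L : Type) [Field L] [NumberField L] (S : Sys),
  (∀ P : Pl L → Prop, (∀ σ, ∀ᶠ v in cofinite, P (σ, v)) → ∀ᶠ π in cofinite, P π) ∧
  (∀ r : L, r ≠ 0 → ∑ᶠ π : Pl L, Real.log (S.w π.2 (π.1 r)) = 0) ∧
  ∀ U R : L[X], U.Monic → ∃ r : L, ∀ σ : L →+* Qb,
    ((U.map σ).roots.map fun t => (R.map σ).eval t).prod = σ r

/-- Northcott for polynomials -/
def HTStmt : Prop := ∀ (L : Type) [Field L] [NumberField L] (S : Sys) (n : ℕ) (B : ℝ),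
  {U : L[X] | U.Monic ∧ U.natDegree ≤ n ∧ Ht S U ≤ B}.Finite

/-- the function with a given divisor -/
def PRINStmt : Prop := ∀ (L : Type) [Field L] [CharZero L] (g n : ℕ) (f : L[X]) (F : Qb[X]),
  Gl g f F →
  (∀ x σ, Mu f n x → (pts σ x).card = x.1.natDegree ∧ ∀ p ∈ pts σ x, Oc F p) ∧
  ∀ y₁ y₂ y₃, Mu f n y₁ → Mu f n y₂ → Mu f n y₃ → cp f y₁ * cp f y₂ * cp f y₃ = 1 →
    ∃ (A B : L[X]) (c : L), c ≠ 0 ∧ A ^ 2 - f * B ^ 2 = C c * (y₁.1 * y₂.1 * y₃.1) ∧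
      A.natDegree ≤ 3 * n ∧ B.natDegree ≤ 3 * n ∧ ∀ σ : L →+* Qb,
      VD.dd (⟨A.map σ, B.map σ⟩ : Rg F) ≤ ((pts σ y₁ + pts σ y₂ + pts σ y₃).card : ℕ) ∧
      (⟨A.map σ, B.map σ⟩ : Rg F) ∈ ((pts σ y₁ + pts σ y₂ + pts σ y₃).map (mx F)).prod ∧
      ∀ p, Oc F p → p ∉ pts σ y₁ + pts σ y₂ + pts σ y₃ → ev p (⟨A.map σ, B.map σ⟩ : Rg F) ≠ 0

/-- principal divisors -/
def TRIStmt : Prop := ∀ (L : Type) [Field L] [NumberField L] (S : Sys) (g n : ℕ) (f : L[X])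
  (F : Qb[X]) (κ : Pc → ℝ), Gl g f F → Kq S g F κ → ∃ c : ℝ, ∀ x y₁ y₂ y₃,
    Mu f n x → Mu f n y₁ → Mu f n y₂ → Mu f n y₃ → cp f y₁ * cp f y₂ * cp f y₃ = 1 →
    Dj x y₁ → Dj x y₂ → Dj x y₃ → -c ≤ be S g x y₁ + be S g x y₂ + be S g x y₃

/-- symmetry, fibres of `x`, the diagonal -/
def GLOBStmt : Prop := ∀ (L : Type) [Field L] [NumberField L] (S : Sys) (g n : ℕ) (f : L[X])
  (F : Qb[X]) (κ : Pc → ℝ), Gl g f F → Kq S g F κ → ∃ c : ℝ,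
    (∀ x y : L[X] × L[X], be S g x y = be S g y x) ∧ (∀ x : L[X] × L[X], be S g x (1, 0) = 0) ∧
    (∀ x y : L[X] × L[X], IsCoprime x.1 y.1 → Dj x y) ∧
    (∀ x, Mu f n x → IsCoprime x.1 f → Dj x (nv x)) ∧
    (∀ x y, Mu f n x → Mu f n y → IsCoprime x.1 y.1 → be S g x y + be S g x (nv y) ≤ c) ∧
    ∀ x, Mu f g x → IsCoprime x.1 f → be S g x (nv x) + 2 * Ht S x.1 ≤ c

/-- the height -/
def HGTStmt : Prop := ∀ (L : Type) [Field L] [NumberField L] (g : ℕ) (f : L[X]) (F : Qb[X])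
  (θ : L), VD.Sv g f → (∀ σ : L →+* Qb, f.map σ = F) → (∀ c : L, c ^ 2 ≠ f.leadingCoeff) →
  f.eval θ = 0 → ∃ (h : VD.Cx f → ℝ) (b : ℝ),
    (∀ P Q, |h (P * Q) + h (P / Q) - 2 * (h P + h Q)| ≤ b) ∧ ∀ B : ℝ, {P | h P ≤ B}.Finite

/-- a Mordell-Weil group that is divisible by two is finite -/
def MWStmt : Prop := ∀ (g : ℕ) (f : ℚ[X]), 2 ≤ g → f.natDegree = 2 * g + 2 → Irreducible f →
  (∀ s : ℚ[X], ¬f ∣ s ^ 2 - C f.leadingCoeff) → (∀ P : VJ.JQ f, ∃ R, 2 • R = P) →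
  Finite (VJ.JQ f)

theorem mw_of (up : UPStmt) (sch : SCHStmt) (kap : KAPStmt) (norm : NORMStmt) (sum : SUMStmt)
    (ht : SUMStmt → HTStmt) (prin : PRINStmt)
    (tri : SCHStmt → SUMStmt → NORMStmt → PRINStmt → TRIStmt)
    (glob : UPStmt → SUMStmt → PRINStmt → GLOBStmt)
    (hgt : KAPStmt → HTStmt → TRIStmt → GLOBStmt → HGTStmt) (fin : HGTStmt → MWStmt) : MWStmt :=
  fin (hgt kap (ht sum) (tri sch sum norm prin) (glob up sum prin))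

end Pool.Agent.MP_a43263_nt.VW
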