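import Pool.Agent.MP_a43263_nt.VW.Bridge
import Pool.Agent.MP_a43263_nt.VW.Spec
import Pool.Agent.MP_a43263_nt.JM.Tri
import Pool.Agent.MP_a43263_nt.VW.Red

-- ======== part 0: formerly Pool.Agent.MP_a43263_nt.VW.Up
section MrgPart0

/-! THEOREM V, part W: upper bounds for the local symbol. -/

set_option autoImplicit false

namespace Pool.Agent.MP_a43263_nt.VW

open Polynomial Finset JC JM JM.Up

namespace Ub

variable {K : Type} [Field K] {w : AbsoluteValue K ℝ} {κ : ℝ}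

theorem pol2 (h : Tri w κ) (x x' : K) {f : K[X]} {j L c : ℕ} (hf : f.natDegree ≤ L + 1)
    (hc : pn w f ≤ κ ^ c) (hj : j ≤ L + 1) :
    w (f.eval x * x' ^ j - f.eval x' * x ^ j) ≤
      κ ^ (2 * L + 3 + c) * (w (x - x') * (nx w x * nx w x') ^ L) := by
  have h0 := zero_le_one.trans h.1
  have hb : 0 ≤ w (x - x') * (nx w x * nx w x') ^ L :=
    mul_nonneg (w.nonneg _) (pow_nonneg (zero_le_one.trans (s1 x x')) _)
  have e : f.eval x * x' ^ j - f.eval x' * x ^ j =
      ∑ i ∈ range (L + 2), f.coeff i * (x ^ i * x' ^ j - x' ^ i * x ^ j) := by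
    rw [eval_eq_sum_range' (Nat.lt_succ_of_le hf), eval_eq_sum_range' (Nat.lt_succ_of_le hf),
      sum_mul, sum_mul, ← sum_sub_distrib]
    exact sum_congr rfl fun i _ => by ring
  have := h.sum (b := κ ^ c * (κ ^ (L + 1) * (w (x - x') * (nx w x * nx w x') ^ L)))
    (mul_nonneg (pow_nonneg h0 _) (mul_nonneg (pow_nonneg h0 _) hb)) (range (L + 2))
    (fun i => f.coeff i * (x ^ i * x' ^ j - x' ^ i * x ^ j)) fun i hi => by
      rw [map_mul]
      exact mul_le_mul ((le_pn w f i).trans hc)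
        (key h x x' (Nat.lt_succ_iff.1 (mem_range.1 hi)) hj) (w.nonneg _) (pow_nonneg h0 _)
  rw [card_range] at this
  rw [e]
  refine this.trans (le_of_eq ?_)
  ring

variable {ι : Type} [Fintype ι] {a b : ι → K} {f : K[X]} {g : ℕ}

/-- the coefficients of the curve -/
theorem pf (h : Lc g w κ a b f) : pn w f ≤ κ ^ (6 * g + 6) := by
  classical
  have h0 := zero_le_one.trans h.tri.1
  have key : ∀ s : Finset ι, pn w (∏ i ∈ s, (C (a i) * X + C (b i))) ≤ κ ^ (3 * s.card) := by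
    intro s
    induction s using Finset.induction_on with
    | empty =>
      refine pn_le w fun i => ?_
      rw [prod_empty, coeff_one]
      split_ifs <;> simp
    | insert i s hi ih =>
      have l : pn w (C (a i) * X + C (b i)) ≤ κ := pn_le w fun k => by
        rcases k with _ | _ | k
        · simpa using (h.le i).2
        · simpa using (h.le i).1
        · simpa [coeff_X, coeff_C] using h0
      rw [prod_insert hi, card_insert_of_notMem hi]
      refine (Gau.mul h.tri _ _ natDegree_linear_le).trans ?_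
      calc _ ≤ κ ^ (1 + 1) * (κ * κ ^ (3 * s.card)) :=
            mul_le_mul_of_nonneg_left (mul_le_mul l ih (pn_nonneg w _) h0) (pow_nonneg h0 _)
        _ = _ := by ring
  have := key univ
  rwa [← h.eq, card_univ, h.card, show 3 * (2 * g + 2) = 6 * g + 6 by ring] at this

theorem db (h : Lc g w κ a b f) {p q : K × K} (hp : Oc f p) (hq : Oc f q) :
    dd g w p q ≤ κ ^ (2 * g + 3) * (nx w p.1 * nx w q.1) ^ (g + 1) := by
  have h0 := zero_le_one.trans h.tri.1
  have hs := zero_le_one.trans (s1 (w := w) p.1 q.1)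
  have hn := nx_pos w p.1
  have hn' := nx_pos w q.1
  have e : κ ^ (2 * g + 3) * (nx w p.1 * nx w q.1) ^ (g + 1) =
      κ * (κ ^ (2 * g + 2) * (nx w p.1 * nx w q.1) ^ (g + 1)) := by ring
  refine max_le ?_ (max_le ?_ ?_)
  · calc _ ≤ κ * (nx w p.1 * nx w q.1) * (nx w p.1 * nx w q.1) ^ g :=
          mul_le_mul_of_nonneg_right ((h.tri.sub _ _).trans (mul_le_mul_of_nonneg_left
            (max_le ((le_nx w _).trans (l1 _ _)) ((le_nx w _).trans (l2 _ _))) h0))
            (pow_nonneg hs _)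
      _ = κ ^ 1 * (nx w p.1 * nx w q.1) ^ (g + 1) := by ring
      _ ≤ _ := mul_le_mul_of_nonneg_right (pow_le_pow_right₀ h.tri.1 (by omega)) (pow_nonneg hs _)
  · rw [e]
    refine (h.tri.sub _ _).trans (mul_le_mul_of_nonneg_left (max_le ?_ ?_) h0)
    · exact (Pr.yl h hp).trans (mul_le_mul_of_nonneg_left
        (pow_le_pow_left₀ hn.le (l1 _ _) _) (pow_nonneg h0 _))
    · exact (Pr.yl h hq).trans (mul_le_mul_of_nonneg_left
        (pow_le_pow_left₀ hn'.le (l2 _ _) _) (pow_nonneg h0 _))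
  · rw [e]
    refine (h.tri.sub _ _).trans (mul_le_mul_of_nonneg_left (max_le ?_ ?_) h0)
    · rw [map_mul, map_pow, mul_pow, ← mul_assoc]
      exact mul_le_mul (Pr.yl h hp) (pow_le_pow_left₀ (w.nonneg _) (le_nx w _) _)
        (pow_nonneg (w.nonneg _) _) (by positivity)
    · rw [map_mul, map_pow, mul_comm (nx w p.1), mul_pow, ← mul_assoc]
      exact mul_le_mul (Pr.yl h hq) (pow_le_pow_left₀ (w.nonneg _) (le_nx w _) _)
        (pow_nonneg (w.nonneg _) _) (by positivity)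

theorem dm (h : Lc g w κ a b f) {c : ℕ} (hf : pn w f ≤ κ ^ c) {p q : K × K}
    (hp : Oc f p) (hq : Oc f q) : dd g w p q * dd g w p (ng q) ≤
      κ ^ (5 * g + 6 + c) * (w (p.1 - q.1) * (nx w p.1 * nx w q.1) ^ (2 * g + 1)) := by
  have h0 := zero_le_one.trans h.tri.1
  have hs := zero_le_one.trans (s1 (w := w) p.1 q.1)
  have hn := nx_pos w p.1
  have hn' := nx_pos w q.1
  have hD := w.nonneg (p.1 - q.1)
  have hd : f.natDegree ≤ 2 * g + 1 + 1 := h.sv.deg.le
  have hb : 0 ≤ w (p.1 - q.1) * (nx w p.1 * nx w q.1) ^ (2 * g + 1) := by positivity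
  have up : ∀ {u : ℝ} {m : ℕ}, m ≤ 5 * g + 6 + c →
      u ≤ κ ^ m * (w (p.1 - q.1) * (nx w p.1 * nx w q.1) ^ (2 * g + 1)) →
      u ≤ κ ^ (5 * g + 6 + c) * (w (p.1 - q.1) * (nx w p.1 * nx w q.1) ^ (2 * g + 1)) :=
    fun hm hu => hu.trans (mul_le_mul_of_nonneg_right (pow_le_pow_right₀ h.tri.1 hm) hb)
  have hp2 : p.2 ^ 2 = f.eval p.1 := hp
  have hq2 : q.2 ^ 2 = f.eval q.1 := hq
  have t1 : ∀ d : ℝ, d ≤ κ ^ (2 * g + 3) * (nx w p.1 * nx w q.1) ^ (g + 1) →
      w (p.1 - q.1) * (nx w p.1 * nx w q.1) ^ g * d ≤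
        κ ^ (5 * g + 6 + c) * (w (p.1 - q.1) * (nx w p.1 * nx w q.1) ^ (2 * g + 1)) :=
    fun d hd => up (m := 2 * g + 3) (by omega)
      ((mul_le_mul_of_nonneg_left hd (by positivity)).trans (le_of_eq (by ring)))
  have yy : w (p.2 * q.2 * (p.1 ^ (g + 1) - q.1 ^ (g + 1))) ≤
      κ ^ (5 * g + 5 + c) * (w (p.1 - q.1) * (nx w p.1 * nx w q.1) ^ (2 * g + 1)) := by
    rw [map_mul, map_mul]
    calc _ ≤ κ ^ (2 * g + 2) * nx w p.1 ^ (g + 1) * (κ ^ (2 * g + 2) * nx w q.1 ^ (g + 1)) *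
          (κ ^ (g + 1) * (w (p.1 - q.1) * (nx w p.1 * nx w q.1) ^ g)) :=
          mul_le_mul (mul_le_mul (Pr.yl h hp) (Pr.yl h hq) (w.nonneg _) (by positivity))
            (geo h.tri _ _ g) (w.nonneg _) (by positivity)
      _ = κ ^ (5 * g + 5) * (w (p.1 - q.1) * (nx w p.1 * nx w q.1) ^ (2 * g + 1)) := by ring
      _ ≤ _ := mul_le_mul_of_nonneg_right (pow_le_pow_right₀ h.tri.1 (by omega)) hb
  have pp : ∀ j ≤ 2 * g + 1 + 1, w (f.eval p.1 * q.1 ^ j - f.eval q.1 * p.1 ^ j) ≤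
      κ ^ (5 * g + 5 + c) * (w (p.1 - q.1) * (nx w p.1 * nx w q.1) ^ (2 * g + 1)) := fun j hj =>
    (pol2 h.tri p.1 q.1 hd hf hj).trans
      (mul_le_mul_of_nonneg_right (pow_le_pow_right₀ h.tri.1 (by omega)) hb)
  have e5 : κ ^ (5 * g + 6 + c) * (w (p.1 - q.1) * (nx w p.1 * nx w q.1) ^ (2 * g + 1)) =
      κ * (κ ^ (5 * g + 5 + c) * (w (p.1 - q.1) * (nx w p.1 * nx w q.1) ^ (2 * g + 1))) := by ring
  refine mm (t1 _ (db h hp hq.ng))
    (by rw [mul_comm]; exact t1 _ (db h hp hq)) ?_ ?_ ?_ ?_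
  · refine up (by omega) (le_trans (le_of_eq ?_) (pp 0 (by omega)))
    rw [← map_mul, ← hp2, ← hq2]
    exact congrArg w (by simp only [ng]; ring)
  · rw [← map_mul, e5]
    refine le_trans (le_of_eq ?_) ((h.tri.2 _ _).trans
      (mul_le_mul_of_nonneg_left (max_le (pp (g + 1) (by omega)) yy) h0))
    rw [← hp2, ← hq2]
    exact congrArg w (by simp only [ng]; ring)
  · rw [← map_mul, e5]
    refine le_trans (le_of_eq ?_) ((h.tri.sub _ _).trans
      (mul_le_mul_of_nonneg_left (max_le (pp (g + 1) (by omega)) yy) h0))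
    rw [← hp2, ← hq2]
    exact congrArg w (by simp only [ng]; ring)
  · refine up (by omega) (le_trans (le_of_eq ?_) (pp (2 * g + 2) (by omega)))
    rw [← map_mul, ← hp2, ← hq2]
    exact congrArg w (by simp only [ng]; ring)

end Ub

open Ub in
theorem up : UPStmt := by
  intro g
  refine ⟨2 * (5 * g + 6 + (6 * g + 6)), fun K ι _ _ w κ a b f h p q hp hq => ?_⟩
  have h0 := zero_le_one.trans h.tri.1
  have hn := nx_pos w p.1
  have hn' := nx_pos w q.1
  have hf := pf h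
  refine ⟨?_, ?_, ?_⟩
  · have := pow_le_pow_left₀ (mul_nonneg (dd_nonneg w g _ _) (dd_nonneg w g _ _))
      (dm h hf hp hq) 2
    rw [de, de, div_mul_div_comm, div_le_iff₀ (by simp only [ng]; positivity), ← mul_pow]
    refine this.trans (le_of_eq ?_)
    simp only [ng]
    ring
  · have := pow_le_pow_left₀ (dd_nonneg w g _ _) (db h hp hq) 2
    rw [de, div_le_iff₀ (by positivity)]
    refine this.trans ?_
    calc _ = κ ^ (2 * (2 * g + 3)) * (nx w p.1 * nx w q.1) ^ (2 * g + 2) := by ring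
      _ ≤ κ ^ (2 * (5 * g + 6 + (6 * g + 6))) * (nx w p.1 * nx w q.1) ^ (2 * g + 2) :=
          mul_le_mul_of_nonneg_right (pow_le_pow_right₀ h.tri.1 (by omega)) (by positivity)
      _ = _ := by ring
  · have h2 : w 2 ≤ κ := by
      have := h.tri.2 1 1
      rwa [one_add_one_eq_two, map_one, max_self, mul_one] at this
    have hy := w.nonneg p.2
    have hd : dd g w p (ng p) ≤ κ * w p.2 * nx w p.1 ^ (g + 1) := by
      refine max_le ?_ (max_le ?_ ?_)
      · simp only [ng, sub_self, map_zero, zero_mul]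
        positivity
      · rw [show p.2 - (ng p).2 = 2 * p.2 by simp only [ng]; ring, map_mul]
        exact (mul_le_mul_of_nonneg_right h2 hy).trans
          (le_mul_of_one_le_right (by positivity) (one_le_pow₀ (one_le_nx w _)))
      · rw [show p.2 * (ng p).1 ^ (g + 1) - (ng p).2 * p.1 ^ (g + 1) = 2 * p.2 * p.1 ^ (g + 1) by
          simp only [ng]; ring, map_mul, map_mul, map_pow]
        exact mul_le_mul (mul_le_mul_of_nonneg_right h2 hy)
          (pow_le_pow_left₀ (w.nonneg _) (le_nx w _) _) (by positivity) (by positivity)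
    have := pow_le_pow_left₀ (dd_nonneg w g _ _) hd 2
    rw [de, div_mul_eq_mul_div, div_le_iff₀ (by simp only [ng]; positivity)]
    refine (mul_le_mul_of_nonneg_right this (by positivity)).trans ?_
    calc _ = κ ^ 2 * (w p.2 ^ 2 * (nx w p.1 * nx w p.1) ^ (2 * g + 1)) := by ring
      _ ≤ κ ^ (2 * (5 * g + 6 + (6 * g + 6))) *
          (w p.2 ^ 2 * (nx w p.1 * nx w p.1) ^ (2 * g + 1)) :=
          mul_le_mul_of_nonneg_right (pow_le_pow_right₀ h.tri.1 (by omega)) (by positivity)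
      _ = _ := by simp only [ng]; ring

end Pool.Agent.MP_a43263_nt.VW

end MrgPart0

-- ======== part 1: formerly Pool.Agent.MP_a43263_nt.VW.Sch
section MrgPart1

/-! THEOREM V, part W: the Schwarz lemma. -/

set_option autoImplicit false

namespace Pool.Agent.MP_a43263_nt.VW

open Polynomial Finset JC JM JM.Sch

namespace Sw

section
variable {K : Type} [Field K] {f : K[X]} {g : ℕ}

/-- the degrees of the two parts of a function -/
theorem dg (s : VD.Sv g f) {h : Rg f} {e : ℕ} (he : VD.dd h ≤ e) :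
    2 * h.re.natDegree ≤ e ∧ (h.im ≠ 0 → f.natDegree + 2 * h.im.natDegree ≤ e) := by
  refine ⟨?_, fun c => ?_⟩
  · rw [← natDegree_pow]
    exact natDegree_le_of_degree_le ((le_max_left _ _).trans he)
  · rw [← natDegree_pow, ← natDegree_mul s.ne (pow_ne_zero 2 c)]
    exact natDegree_le_of_degree_le ((le_max_right _ _).trans he)

theorem dg_le (s : VD.Sv g f) {h : Rg f} {e : ℕ} (he : VD.dd h ≤ e) :
    h.re.natDegree ≤ e ∧ h.im.natDegree ≤ e := by
  obtain ⟨a, b⟩ := dg s he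
  refine ⟨by omega, ?_⟩
  by_cases c : h.im = 0
  · simp [c]
  · have := b c
    omega

theorem dd_step {h ψ h' : Rg f} {c : K} (e : h * ψ = ⟨X - C c, 0⟩ * h') {m k r : ℕ}
    (a : VD.dd h ≤ m) (b : VD.dd ψ ≤ k) (hr : m + k ≤ r + 2) : VD.dd h' ≤ r := by
  have e1 := (VD.dd_mul_le h ψ).trans (add_le_add a b)
  rw [e, VD.dd_poly_mul, VD.deg_sq (X_sub_C_ne_zero c), natDegree_X_sub_C, ← Nat.cast_add] at e1
  have e2 : ((2 * 1 : ℕ) : WithBot ℕ) + VD.dd h' ≤ (2 * 1 : ℕ) + (r : WithBot ℕ) := by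
    rw [← Nat.cast_add]
    exact e1.trans (Nat.cast_le.2 (by omega))
  exact (WithBot.add_le_add_iff_left (WithBot.natCast_ne_bot _)).1 e2

end

/-- the constants of the Gauss norm, with a bound for the curve -/
theorem gau2 (g n : ℕ) : ∃ M : ℕ, ∀ (K ι : Type) [Field K] [Fintype ι]
    (w : AbsoluteValue K ℝ) (κ : ℝ) (a b : ι → K) (f : K[X]), Lc g w κ a b f →
    pn w f ≤ κ ^ M ∧ (∀ P Q : K[X], pn w (P + Q) ≤ κ * max (pn w P) (pn w Q)) ∧
    (∀ P Q : K[X], P.natDegree ≤ n → pn w (P * Q) ≤ κ ^ M * (pn w P * pn w Q)) ∧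
    (∀ (c : K) (P : K[X]), P.natDegree ≤ n → nx w c * pn w P ≤ κ ^ M * pn w ((X - C c) * P)) ∧
    ∀ (P : K[X]) (x : K), P.natDegree ≤ n →
      w (P.eval x) ≤ κ ^ M * (pn w P * nx w x ^ P.natDegree) := by
  obtain ⟨M, hM⟩ := gau n
  refine ⟨M + (6 * g + 6), fun K ι _ _ w κ a b f ok => ?_⟩
  obtain ⟨g1, g2, g3, g4, -⟩ := hM K w κ ok.tri
  have k1 := ok.tri.1
  have kk : κ ^ M ≤ κ ^ (M + (6 * g + 6)) := pow_le_pow_right₀ k1 (by omega)
  exact ⟨(Ub.pf ok).trans (pow_le_pow_right₀ k1 (by omega)), g1,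
    fun P Q h => (g2 P Q h).trans (mul_le_mul_of_nonneg_right kk
    (mul_nonneg (pn_nonneg w _) (pn_nonneg w _))), fun c P h => (g3 c P h).trans
    (mul_le_mul_of_nonneg_right kk (pn_nonneg w _)), fun P x h => (g4 P x h).trans
    (mul_le_mul_of_nonneg_right kk (mul_nonneg (pn_nonneg w _) (pow_pos (nx_pos w _) _).le))⟩

/-- the Schwarz lemma with an excess `e` of poles -/
theorem mn (g n : ℕ) :
    ∀ E : ℕ, ∃ M : ℕ, ∀ (K ι : Type) [Field K] [CharZero K] [Fintype ι]
    (w : AbsoluteValue K ℝ) (κ : ℝ) (a b : ι → K) (f : K[X]), Lc g w κ a b f →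
    ∀ (s : Multiset (K × K)) (h : Rg f) (p : K × K) (e : ℕ), s.card ≤ n → e ≤ E →
      VD.dd h ≤ (s.card + e : ℕ) → (∀ q ∈ s, Oc f q) → h ∈ (s.map (mx f)).prod → Oc f p →
      w (ev p h) ^ 2 * (s.map fun q => nx w q.1).prod ≤
        κ ^ M * (hn w h ^ 2 * nx w p.1 ^ e * (s.map (de g w p)).prod) := by
  induction n with
  | zero =>
    intro E
    obtain ⟨M, hM⟩ := gau2 g (E + (2 * g + 2))
    refine ⟨4 * M + 2, fun K ι _ _ _ w κ a b f ok s h p e hs he hh _ _ hp => ?_⟩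
    obtain rfl : s = 0 := Multiset.card_eq_zero.1 (by omega)
    have m2 := ok.sv.deg
    obtain ⟨pf, -, -, -, va⟩ := hM K ι w κ a b f ok
    rw [Multiset.card_zero, zero_add] at hh
    obtain ⟨d1, d2⟩ := dg ok.sv hh
    simpa using base ok.tri va (by omega) pf h (by omega) d1 d2 hp
  | succ n ih =>
    intro E
    obtain ⟨M3, h3⟩ := ih (E + (2 * g + 1))
    obtain ⟨M1, h1⟩ := VW.pair g
    obtain ⟨M, hM⟩ := gau2 g (n + E + (2 * g + 2))
    refine ⟨2 * M1 + 2 * (M + (3 * M + 1) + M1) + M3,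
      fun K ι _ _ _ w κ a b f ok s h p e hs he hh hq hi hp => ?_⟩
    have k1 := ok.tri.1
    have k0 : 0 ≤ κ := zero_le_one.trans k1
    have pP : ∀ t : Multiset (K × K), 0 ≤ (t.map fun q => nx w q.1).prod := fun t =>
      Multiset.prod_nonneg fun x hx => by
        obtain ⟨q, -, rfl⟩ := Multiset.mem_map.1 hx
        exact (nx_pos w _).le
    have pQ : ∀ t : Multiset (K × K), 0 ≤ (t.map (de g w p)).prod := fun t =>
      Multiset.prod_nonneg fun x hx => by
        obtain ⟨q, -, rfl⟩ := Multiset.mem_map.1 hx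
        exact de_nonneg w g _ _
    rcases s.empty_or_exists_mem with rfl | ⟨q, hqs⟩
    · refine (h3 K ι w κ a b f ok 0 h p e (by simp) (by omega) hh hq hi hp).trans
        (mul_le_mul_of_nonneg_right (pow_le_pow_right₀ k1 (by omega)) ?_)
      exact mul_nonneg (mul_nonneg (sq_nonneg _) (pow_pos (nx_pos w _) _).le) (pQ _)
    obtain ⟨t, rfl⟩ := Multiset.exists_cons_of_mem hqs
    have m2 := ok.sv.deg
    obtain ⟨pf, ad, mu, dv, -⟩ := hM K ι w κ a b f ok
    have oq : Oc f q := hq q hqs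
    obtain ⟨ψ, p1, p2, p3, p4⟩ := h1 K ι w κ a b f ok p q hp oq
    rw [Multiset.card_cons] at hs hh
    rw [Multiset.map_cons, Multiset.prod_cons] at hi
    have e1 : mx f q * mx f (ng q) = PI f (X - C q.1) := by
      rw [← Mum.MI_conj ok.sv.sf (U := X - C q.1) (V := C q.2) (dvd_iff_isRoot.2 (by
        simp [IsRoot, ← show q.2 ^ 2 = f.eval q.1 from oq]))]
      simp [mx, ng]
    have e2 : h * ψ ∈ PI f (X - C q.1) * (t.map (mx f)).prod := by
      rw [← e1, mul_right_comm]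
      exact Ideal.mul_mem_mul hi p1
    obtain ⟨h', i', e3⟩ := Ideal.mem_span_singleton_mul.1 e2
    have o' : VD.dd h' ≤ (t.card + (e + (2 * g + 1)) : ℕ) := dd_step e3.symm hh p2 (by omega)
    obtain ⟨d1, d2⟩ := dg_le ok.sv o'
    obtain ⟨d3, d4⟩ := dg_le ok.sv p2
    have b1 := hn_div k1 dv q.1 h' (by omega) (by omega)
    rw [e3] at b1
    have b2 := hn_mul k1 ad mu (by omega) pf h ψ (by omega) (by omega)
    have b3 : nx w q.1 * hn w h' ≤
        κ ^ (M + (3 * M + 1) + M1) * (hn w h * nx w q.1 ^ (g + 1)) := by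
      refine b1.trans ((mul_le_mul_of_nonneg_left (b2.trans (mul_le_mul_of_nonneg_left
        (mul_le_mul_of_nonneg_left p3 (hn_nonneg w h)) (by positivity))) (by positivity)).trans_eq
        (by ring))
    have b4 := h3 K ι w κ a b f ok t h' p (e + (2 * g + 1)) (by omega) (by omega) o'
      (fun r hr => hq r (Multiset.mem_cons_of_mem hr)) i' hp
    rw [Multiset.map_cons, Multiset.prod_cons, Multiset.map_cons, Multiset.prod_cons]
    exact Sch.step k1 (nx_pos w _) (nx_pos w _) (w.nonneg _) (hn_nonneg w _) (pP _) (pQ _)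
      (p4 h h' e3.symm) b3 b4

end Sw

theorem sch : SCHStmt := by
  intro g n
  obtain ⟨M, hM⟩ := Sw.mn g n 0
  refine ⟨M, fun K ι _ _ _ w κ a b f ok s h p hs hh hq hi hp => ?_⟩
  simpa using hM K ι w κ a b f ok s h p 0 hs le_rfl hh hq hi hp

end Pool.Agent.MP_a43263_nt.VW

end MrgPart1

-- ======== part 2: formerly Pool.Agent.MP_a43263_nt.VW.Kap
section MrgPart2

/-! THEOREM V, part W: the constants of the places exist. -/

set_option autoImplicit false

noncomputable section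

namespace Pool.Agent.MP_a43263_nt.VW

open Polynomial Finset Filter
open JM (Qb Pc Sys Tri)

namespace Kap

/-- one constant for finitely many elements -/
theorem bound (S : Sys) (T₀ : Finset Qb) : ∃ κ : Pc → ℝ, (∀ v, Tri (S.w v) (κ v)) ∧
    (∀ v, ∀ x ∈ T₀, S.w v x ≤ κ v) ∧ (∀ v, ∀ x ∈ T₀, x ≠ 0 → 1 ≤ κ v * S.w v x) ∧
    ∀ᶠ v in cofinite, κ v = 1 := by
  classical
  set T : Finset Qb := T₀.erase 0
  set u : Pc → Qb → ℝ := fun v x => max 1 (S.w v x) * max 1 (S.w v x)⁻¹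
  set c : Pc → ℝ := fun v => v.elim 2 fun _ => 1
  have u1 : ∀ v x, 1 ≤ u v x := fun v x =>
    one_le_mul_of_one_le_of_one_le (le_max_left _ _) (le_max_left _ _)
  have c1 : ∀ v, 1 ≤ c v := fun v => by rcases v with _ | p <;> simp [c]
  have p1 : ∀ v, 1 ≤ ∏ x ∈ T, u v x := fun v =>
    prod_induction _ (fun y => 1 ≤ y) (fun _ _ => one_le_mul_of_one_le_of_one_le) le_rfl
      fun x _ => u1 v x
  have le : ∀ v, ∀ x ∈ T, u v x ≤ c v * ∏ x ∈ T, u v x := fun v x hx => by
    rw [← mul_prod_erase _ _ hx]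
    refine le_trans ?_ (le_mul_of_one_le_left (mul_nonneg (zero_le_one.trans (u1 v x))
      (prod_nonneg fun y _ => zero_le_one.trans (u1 v y))) (c1 v))
    exact le_mul_of_one_le_right (zero_le_one.trans (u1 v x))
      (prod_induction _ (fun y => 1 ≤ y) (fun _ _ => one_le_mul_of_one_le_of_one_le) le_rfl
        fun y _ => u1 v y)
  have k1 : ∀ v, 1 ≤ c v * ∏ x ∈ T, u v x := fun v =>
    one_le_mul_of_one_le_of_one_le (c1 v) (p1 v)
  have lo : ∀ v, ∀ x ∈ T, 1 ≤ (c v * ∏ x ∈ T, u v x) * S.w v x := fun v x hx => by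
    have h0 : 0 < S.w v x := (S.w v).pos (ne_of_mem_erase hx)
    have h1 : (S.w v x)⁻¹ ≤ u v x := (le_max_right _ _).trans
      (le_mul_of_one_le_left (zero_le_one.trans (le_max_left _ _)) (le_max_left _ _))
    rw [← inv_mul_cancel₀ h0.ne']
    exact mul_le_mul_of_nonneg_right (h1.trans (le v x hx)) h0.le
  have k2 : 2 ≤ c none * ∏ x ∈ T, u none x := le_mul_of_one_le_right zero_le_two (p1 none)
  refine ⟨fun v => c v * ∏ x ∈ T, u v x, fun v => ?_, fun v x hx => ?_,
    fun v x hx h0 => lo v x (mem_erase.2 ⟨h0, hx⟩), ?_⟩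
  · rcases v with _ | p
    · exact JM.SysAux.tri_two _ k2
    · exact JM.SysAux.tri_na (S.na p) (k1 _)
  · by_cases z : x = 0
    · rw [z, map_zero]
      exact zero_le_one.trans (k1 v)
    · refine le_trans ?_ (le v x (mem_erase.2 ⟨z, hx⟩))
      exact (le_max_right _ _).trans
        (le_mul_of_one_le_right (zero_le_one.trans (le_max_left _ _)) (le_max_left _ _))
  · have h1 : ∀ᶠ v in cofinite, ∀ x ∈ T, S.w v x = 1 :=
      (eventually_all_finset T).2 fun x hx => (JM.sum S).1 x (ne_of_mem_erase hx)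
    filter_upwards [h1, (Set.finite_singleton (none : Pc)).compl_mem_cofinite] with v hv hn
    rw [prod_eq_one fun x hx => by simp [u, hv x hx], mul_one]
    rcases v with _ | p
    · exact absurd rfl hn
    · rfl

/-- the roots, numbered -/
theorem roots {g : ℕ} {F : Qb[X]} (h : VD.Sv g F) : ∃ a : Fin (2 * g + 2) → Qb,
    Function.Injective a ∧ F = C F.leadingCoeff * ∏ i, (X - C (a i)) := by
  classical
  have c : Fintype.card F.roots.toFinset = 2 * g + 2 := by
    rw [Fintype.card_coe, Multiset.toFinset_card_of_nodup (nodup_roots h.sep),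
      IsAlgClosed.card_roots_eq_natDegree, h.deg]
  let e := Fintype.equivFinOfCardEq c
  refine ⟨fun i => e.symm i, Subtype.val_injective.comp e.symm.injective, ?_⟩
  rw [Equiv.prod_comp e.symm fun x : F.roots.toFinset => X - C (x : Qb),
    prod_coe_sort F.roots.toFinset fun x => X - C x, prod_eq_multiset_prod,
    Multiset.toFinset_val, (nodup_roots h.sep).dedup]
  exact (IsAlgClosed.splits F).eq_prod_roots

end Kap

theorem kap : KAPStmt := by
  classical
  intro S g F h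
  obtain ⟨a, ha, hF⟩ := Kap.roots h
  have l0 : F.leadingCoeff ≠ 0 := leadingCoeff_ne_zero.2 h.ne
  set α : Fin (2 * g + 2) → Qb := fun i => if i = 0 then F.leadingCoeff else 1 with hα
  set β : Fin (2 * g + 2) → Qb := fun i => -(α i * a i) with hβ
  have α0 : ∀ i, α i ≠ 0 := fun i => by
    simp only [hα]
    split_ifs
    · exact l0
    · exact one_ne_zero
  have hp : ∏ i, α i = F.leadingCoeff := by
    simp only [hα]
    rw [prod_ite_eq']
    simp
  have hE : F = ∏ i, (C (α i) * X + C (β i)) := by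
    have : ∀ i, C (α i) * X + C (β i) = C (α i) * (X - C (a i)) := fun i => by
      simp only [hβ, C_neg, C_mul]
      ring
    simp only [this]
    rw [prod_mul_distrib, ← map_prod, hp]
    exact hF
  obtain ⟨κ, k1, k2, k3, k4⟩ := Kap.bound S (insert 2 (univ.image α ∪ univ.image β ∪
    univ.image fun x : Fin (2 * g + 2) × Fin (2 * g + 2) => α x.1 * β x.2 - α x.2 * β x.1))
  refine ⟨κ, ⟨α, β, fun v => ⟨h, hE, Fintype.card_fin _, k1 v,
    k3 v 2 (mem_insert_self _ _) two_ne_zero, fun i => ⟨k2 v _ ?_, k2 v _ ?_⟩,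
    fun i k hik => k3 v _ ?_ ?_⟩⟩, k4⟩
  · exact mem_insert_of_mem (mem_union_left _ (mem_union_left _ (mem_image_of_mem _ (mem_univ i))))
  · exact mem_insert_of_mem (mem_union_left _ (mem_union_right _ (mem_image_of_mem _ (mem_univ i))))
  · exact mem_insert_of_mem (mem_union_right _ (mem_image.2 ⟨(i, k), mem_univ _, rfl⟩))
  · have : α i * β k - α k * β i = α i * α k * (a i - a k) := by
      simp only [hβ]
      ring
    rw [this]
    exact mul_ne_zero (mul_ne_zero (α0 i) (α0 k)) (sub_ne_zero.2 (ha.ne hik))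

end Pool.Agent.MP_a43263_nt.VW

end
end MrgPart2

-- ======== part 3: formerly Pool.Agent.MP_a43263_nt.VW.Sum
section MrgPart3

/-! THEOREM V, part W: the product formula and the Northcott property over a number field. -/

set_option autoImplicit false

noncomputable section

namespace Pool.Agent.MP_a43263_nt.VW

open Polynomial Finset Filter JC
open JM (Qb Pc Sys nx)

namespace SumA

variable {L : Type} [Field L] [NumberField L]

theorem cof (P : Pl L → Prop) (h : ∀ σ, ∀ᶠ v in cofinite, P (σ, v)) : ∀ᶠ π in cofinite, P π := by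
  refine eventually_cofinite.2 ((Set.finite_iUnion fun σ : L →+* Qb =>
    (eventually_cofinite.1 (h σ)).image fun v => (σ, v)).subset fun π hπ => ?_)
  exact Set.mem_iUnion.2 ⟨π.1, π.2, hπ, rfl⟩

/-- a sum over the places of `L` -/
theorem split (G : Pl L → ℝ) (h : ∀ σ, ∀ᶠ v in cofinite, G (σ, v) = 0) :
    ∑ᶠ π, G π = ∑ᶠ v, ∑ σ, G (σ, v) := by
  rw [finsum_curry G (eventually_cofinite.1 (cof (fun π => G π = 0) h)), finsum_eq_sum_of_fintype]
  exact sum_finsum_comm univ (fun σ v => G (σ, v)) fun σ _ => eventually_cofinite.1 (h σ)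

theorem prodf (S : Sys) (r : L) (hr : r ≠ 0) : ∑ᶠ π : Pl L, Real.log (S.w π.2 (π.1 r)) = 0 := by
  have n : ∀ σ : L →+* Qb, σ r ≠ 0 := fun σ => (_root_.map_ne_zero σ).2 hr
  have e : ∏ σ : L →+* Qb, σ r = (Algebra.norm ℚ r : ℚ) := by
    rw [Fintype.prod_equiv (RingHom.equivRatAlgHom L Qb) (fun σ => σ r) (fun σ => σ r)
      fun _ => rfl, ← Algebra.norm_eq_prod_embeddings ℚ Qb r, eq_ratCast]
  rw [split _ fun σ => (JM.Sum.eq_one S _ (n σ)).mono fun v hv => by simp only [hv, Real.log_one],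
    ← JM.Sum.sum_rat S _ (Algebra.norm_ne_zero_iff.2 hr), ← e]
  refine finsum_congr fun v => ?_
  rw [map_prod, Real.log_prod fun σ _ => ((S.w v).pos (n σ)).ne']

omit [NumberField L] in
theorem res (U R : L[X]) (hU : U.Monic) (σ : L →+* Qb) :
    ((U.map σ).roots.map fun t => (R.map σ).eval t).prod =
      σ (resultant U R U.natDegree R.natDegree) := by
  have e := resultant_eq_prod_eval (U.map σ) (R.map σ) R.natDegree natDegree_map_le
    (IsAlgClosed.splits _)
  rw [resultant_map_map, (hU.map σ).leadingCoeff, one_pow, one_mul, natDegree_map] at e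
  exact e.symm

/-- the norm of a polynomial -/
theorem nrm (U : L[X]) (hU : U.Monic) : ∃ R : ℚ[X], R.Monic ∧
    R.natDegree = Fintype.card (L →+* Qb) * U.natDegree ∧
    fK R Qb = ∏ σ : L →+* Qb, U.map σ := by
  have m : (∏ σ : L →+* Qb, U.map σ).Monic := monic_prod_of_monic _ _ fun σ _ => hU.map σ
  have l : (∏ σ : L →+* Qb, U.map σ) ∈ lifts (algebraMap ℚ Qb) := by
    refine (lifts_iff_coeff_lifts _).2 fun k =>
      (InfiniteGalois.mem_range_algebraMap_iff_fixed _).2 fun τ => ?_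
    have e : (∏ σ : L →+* Qb, U.map σ).map (τ : Qb →+* Qb) = ∏ σ : L →+* Qb, U.map σ := by
      rw [Polynomial.map_prod]
      refine Fintype.prod_bijective (fun σ : L →+* Qb => (τ : Qb →+* Qb).comp σ)
        (Finite.injective_iff_bijective.1 fun a b h => RingHom.ext fun x =>
          τ.injective (RingHom.congr_fun h x)) _ _ fun σ => Polynomial.map_map _ _ _
    exact (coeff_map (τ : Qb →+* Qb) k).symm.trans (congrArg (coeff · k) e)
  obtain ⟨R, e, d, h⟩ := lifts_and_natDegree_eq_and_monic l m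
  refine ⟨R, h, ?_, e⟩
  rw [d, natDegree_prod_of_monic _ _ fun σ _ => hU.map σ]
  simp

theorem ht_eq (S : Sys) {U : L[X]} (hU : U.Monic) {R : ℚ[X]}
    (e : fK R Qb = ∏ σ : L →+* Qb, U.map σ) : JM.Ht S R = Ht S U := by
  rw [JM.Ht, Ht, split _ fun σ => JM.Glob.ev_sum (U.map σ).roots
    (fun v t => Real.log (nx (S.w v) t)) fun t _ => (JM.Sum.nx_eq S t).mono fun v hv => by
      simp only [hv, Real.log_one], e,
    roots_prod _ _ (monic_prod_of_monic _ _ fun σ _ => hU.map σ).ne_zero]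
  refine finsum_congr fun v => ?_
  rw [Multiset.map_bind, Multiset.sum_bind]
  rfl

end SumA

open SumA

theorem sum : SUMStmt := fun _ _ _ S =>
  ⟨cof, prodf S, fun U R hU => ⟨_, res U R hU⟩⟩

theorem ht : SUMStmt → HTStmt := by
  intro _ L _ _ S n B
  obtain ⟨σ⟩ : Nonempty (L →+* Qb) := inferInstance
  have f := (JM.ht JM.gau JM.sum S (Fintype.card (L →+* Qb) * n) B).biUnion
    fun R hR => JM.Move.fin_dvd (U := fK R Qb) (hR.1.map _).ne_zero
  refine Set.Finite.of_finite_image (f := fun U => U.map σ) (f.subset ?_)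
    (map_injective σ σ.injective).injOn
  rintro _ ⟨U, ⟨hU, hn, hB⟩, rfl⟩
  obtain ⟨R, m, d, e⟩ := nrm U hU
  refine Set.mem_biUnion (x := R) ⟨m, d.trans_le (Nat.mul_le_mul_left _ hn),
    (ht_eq S hU e).trans_le hB⟩ ⟨hU.map σ, ?_⟩
  rw [e]
  exact dvd_prod_of_mem (fun σ : L →+* Qb => U.map σ) (mem_univ σ)

end Pool.Agent.MP_a43263_nt.VW

end
end MrgPart3

-- ======== part 4: formerly Pool.Agent.MP_a43263_nt.VW.Prin
section MrgPart4

/-! THEOREM V, part W: the function with a given divisor. -/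

set_option autoImplicit false

namespace Pool.Agent.MP_a43263_nt.VW

open Polynomial JC JC.Mum VD
open JM (Mu Oc ev mx)

namespace PrinB

variable {K M : Type} [Field K] [Field M] [CharZero K] {g n : ℕ} {f : K[X]} {F : M[X]}

theorem split (s : Sv g f) (V : K[X]) (r : Multiset K)
    (d : (r.map fun t => X - C t).prod ∣ f - V ^ 2) :
    MI f (r.map fun t => X - C t).prod V = (r.map fun t => mx f (t, V.eval t)).prod := by
  induction r using Multiset.induction_on with
  | empty => simp [MI_one]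
  | cons t r ih =>
    rw [Multiset.map_cons, Multiset.prod_cons] at d
    rw [Multiset.map_cons, Multiset.prod_cons, Multiset.map_cons, Multiset.prod_cons,
      ← MI_mul s.sf d, ih (dvd_of_mul_left_dvd d), MI_congr X_sub_C_dvd_sub_C_eval]
    rfl

/-- the points of a pair -/
noncomputable abbrev pt (φ : K →+* M) (x : K[X] × K[X]) : Multiset (M × M) :=
  (x.1.map φ).roots.map fun t => (t, (x.2.map φ).eval t)

omit [CharZero K] in
theorem oc (φ : K →+* M) (e : f.map φ = F) {x : K[X] × K[X]} (hx : Mu f n x) :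
    ∀ p ∈ pt φ x, Oc F p := fun p hp => by
  obtain ⟨t, ht, rfl⟩ := Multiset.mem_map.1 hp
  have := eval_eq_zero_of_dvd_of_eval_eq_zero ((RatA.dvd_map φ e).2 hx.2.1) (isRoot_of_mem_roots ht)
  rw [eval_sub, eval_pow] at this
  exact (sub_eq_zero.1 this).symm

variable [IsAlgClosed M]

omit [CharZero K] in
theorem card (φ : K →+* M) (x : K[X] × K[X]) : (pt φ x).card = x.1.natDegree := by
  rw [Multiset.card_map, IsAlgClosed.card_roots_eq_natDegree, natDegree_map]

theorem mp [CharZero M] (s : Sv g f) (φ : K →+* M) (e : f.map φ = F) {x : K[X] × K[X]}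
    (hx : Mu f n x) : (MI f x.1 x.2).map (rmap φ e) = ((pt φ x).map (mx F)).prod := by
  have k : ((x.1.map φ).roots.map fun t => X - C t).prod = x.1.map φ :=
    (IsAlgClosed.splits _).eq_prod_roots_of_monic (hx.1.map _) |>.symm
  rw [RatA.map_MI, Multiset.map_map]
  have := split (s.map φ e) (x.2.map φ) (x.1.map φ).roots (k.symm ▸ (RatA.dvd_map φ e).2 hx.2.1)
  rw [k] at this
  exact this

end PrinB

open PrinB in
theorem prin' {K : Type} [Field K] [CharZero K] {g n : ℕ} {f : K[X]} (s : Sv g f)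
    {y₁ y₂ y₃ : K[X] × K[X]} (h1 : Mu f n y₁) (h2 : Mu f n y₂) (h3 : Mu f n y₃)
    (e : cx (MI f y₁.1 y₁.2) * cx (MI f y₂.1 y₂.2) * cx (MI f y₃.1 y₃.2) = 1) :
    ∃ (A B : K[X]) (c : K), c ≠ 0 ∧ A ^ 2 - f * B ^ 2 = C c * (y₁.1 * y₂.1 * y₃.1) ∧
      A.natDegree ≤ 3 * n ∧ B.natDegree ≤ 3 * n ∧
      ∀ (M : Type) [Field M] [CharZero M] [IsAlgClosed M] (φ : K →+* M) (F : M[X]), f.map φ = F →
        dd (⟨A.map φ, B.map φ⟩ : Rg F) ≤ ((pt φ y₁ + pt φ y₂ + pt φ y₃).card : ℕ) ∧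
        (⟨A.map φ, B.map φ⟩ : Rg F) ∈ ((pt φ y₁ + pt φ y₂ + pt φ y₃).map (mx F)).prod ∧
        ∀ p, Oc F p → p ∉ pt φ y₁ + pt φ y₂ + pt φ y₃ →
          ev p (⟨A.map φ, B.map φ⟩ : Rg F) ≠ 0 := by
  have n1 := s.nu_MI h1.1 h1.2.1
  have n2 := s.nu_MI h2.1 h2.2.1
  have n3 := s.nu_MI h3.1 h3.2.1
  have n4 := nu_mul (nu_mul n1 n2) n3
  obtain ⟨z, b, k⟩ := s.cx_one n4 (by rw [cx_mul (nu_mul n1 n2) n3, cx_mul n1 n2, e])
  have hz := nu_span (k ▸ n4)
  have c0 := leadingCoeff_ne_zero.2 b.1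
  have dg : dd z = (y₁.1.natDegree + y₂.1.natDegree + y₃.1.natDegree : ℕ) := by
    rw [(bal_iff.1 b).2, hz, degree_C_mul c0, degree_eq_natDegree n4.1.ne_zero,
      (h1.1.mul h2.1).natDegree_mul h3.1, h1.1.natDegree_mul h2.1]
  have := h1.2.2
  have := h2.2.2
  have := h3.2.2
  refine ⟨z.re, z.im, _, c0, hz, ?_, ?_, fun M _ _ _ φ F e => ?_⟩
  · by_cases c : z.re = 0
    · simp [c]
    have l := (le_max_left _ _).trans dg.le
    rw [deg_sq c, Nat.cast_le] at l
    omega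
  · by_cases c : z.im = 0
    · simp [c]
    have l := (le_max_right _ _).trans dg.le
    rw [s.deg_fsq c, Nat.cast_le] at l
    omega
  have sp : Ideal.span {(⟨z.re.map φ, z.im.map φ⟩ : Rg F)} =
      ((pt φ y₁ + pt φ y₂ + pt φ y₃).map (mx F)).prod := by
    rw [Multiset.map_add, Multiset.map_add, Multiset.prod_add, Multiset.prod_add, ← mp s φ e h1,
      ← mp s φ e h2, ← mp s φ e h3, ← Ideal.map_mul, ← Ideal.map_mul, k, Ideal.map_span,
      Set.image_singleton]
    rfl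
  refine ⟨?_, sp ▸ Ideal.mem_span_singleton_self _, fun p hp np e0 => ?_⟩
  · rw [Multiset.card_add, Multiset.card_add, card, card, card, ← dg, dd, dd, ← e]
    simp only [← Polynomial.map_pow, ← Polynomial.map_mul, degree_map, le_refl]
  · have pr := RingHom.ker_isPrime (JM.Prin.evh hp)
    have le : ((pt φ y₁ + pt φ y₂ + pt φ y₃).map (mx F)).prod ≤ RingHom.ker (JM.Prin.evh hp) :=
      sp ▸ (Ideal.span_singleton_le_iff_mem _).2 e0
    obtain ⟨q, q1, q2⟩ := (pr.multiset_prod_map_le _).1 le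
    exact np (JM.Prin.eq_of_le hp q2 ▸ q1)

theorem prin : PRINStmt := by
  intro L _ _ g n f F h
  refine ⟨fun x σ hx => ⟨PrinB.card σ x, PrinB.oc σ (h.map σ) hx⟩, fun y₁ y₂ y₃ h1 h2 h3 e => ?_⟩
  obtain ⟨A, B, c, k1, k2, k3, k4, k5⟩ := prin' h.sv h1 h2 h3 e
  exact ⟨A, B, c, k1, k2, k3, k4, fun σ => k5 _ σ F (h.map σ)⟩

end Pool.Agent.MP_a43263_nt.VW

end MrgPart4

-- ======== part 5: formerly Pool.Agent.MP_a43263_nt.VW.Hgt
section MrgPart5

/-! THEOREM V, part W: the height on classes. -/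

set_option autoImplicit false

namespace Pool.Agent.MP_a43263_nt.VW

open Polynomial JC
open JM (Mu nv)

theorem hgt (kap : KAPStmt) (ht : HTStmt) (tri : TRIStmt) (glob : GLOBStmt) : HGTStmt := by
  intro L _ _ g f F θ sv hF ns hθ
  obtain ⟨S⟩ := JM.sys.1
  obtain ⟨σ⟩ : Nonempty (L →+* JM.Qb) := ⟨(IsAlgClosed.lift : L →ₐ[ℚ] JM.Qb).toRingHom⟩
  obtain ⟨κ, kp⟩ := kap S g F (sv.map σ (hF σ))
  obtain ⟨mv, cn, co, ⟨T, hT, hT'⟩, fin⟩ := move sv ns hθ
  obtain ⟨c1, tr⟩ := tri L S g (2 * g + 2) f F κ ⟨sv, hF⟩ kp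
  obtain ⟨c2, sy, z, dj, djn, up, dg⟩ := glob L S g (2 * g + 2) f F κ ⟨sv, hF⟩ kp
  have mn : ∀ x, Mu f (2 * g + 2) x → Mu f (2 * g + 2) (nv x) := fun x h =>
    ⟨h.1, by simpa [nv] using h.2.1, h.2.2⟩
  have mo : Mu f (2 * g + 2) (1, 0) := ⟨monic_one, one_dvd _, by simp⟩
  obtain ⟨h, b, par, rep⟩ := JM.abs (VD.Cx f) {x // Mu f (2 * g + 2) x}
    (fun x => cp f x.1) (fun x => ⟨nv x.1, mn _ x.2⟩) (fun x y => IsCoprime x.1.1 y.1.1)
    (fun x y => be S g x.1 y.1) ⟨(1, 0), mo⟩ (max c1 c2) (fun _ _ h => h.symm) (fun _ _ h => h)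
    (fun x => cn _ _ x.2) co (fun _ => isCoprime_one_right) (fun x => z x.1)
    (fun x y => sy x.1 y.1)
    (fun P l => by
      obtain ⟨y, hy, cq, e⟩ := mv P (l.map fun x => x.1.1).prod (List.prod_ne_zero (by
        simp only [List.mem_map, not_exists, not_and]
        exact fun x _ => x.2.1.ne_zero))
      exact ⟨⟨y, hy⟩, e, fun x hx =>
        (cq.of_isCoprime_of_dvd_right (List.dvd_prod (List.mem_map_of_mem hx))).symm⟩)
    (fun x y₁ y₂ y₃ h₁ h₂ h₃ e => (neg_le_neg (le_max_left _ _)).trans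
      (tr _ _ _ _ x.2 y₁.2 y₂.2 y₃.2 e (dj _ _ h₁) (dj _ _ h₂) (dj _ _ h₃)))
    (fun x y h => (up _ _ x.2 y.2 h).trans (le_max_right _ _))
  refine ⟨h, b, par, fun B => ?_⟩
  have fu : ∀ D : ℝ, {U : L[X] | U.Monic ∧ U.natDegree ≤ g ∧ Ht S U ≤ D}.Finite := ht L S g
  refine (T.finite_toSet.biUnion fun t _ =>
    (fu ((B + h t + 2 * b + c1 + c2) / 2)).biUnion fun U hU =>
      (fin U hU.1).image (· * t)).subset fun P hP => ?_
  obtain ⟨t, tT, x, mx, cf, e⟩ := hT' P
  have mx' : Mu f (2 * g + 2) x := ⟨mx.1, mx.2.1, mx.2.2.trans (by omega)⟩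
  obtain ⟨y, my, cq, ey⟩ := mv (cp f x) x.1 mx.1.ne_zero
  have k1 := abs_le.1 (par P t)
  have e1 : P * t = cp f x := by rw [e, mul_assoc, hT t tT, mul_one]
  have e2 : P / t = cp f x := by rw [e, mul_div_cancel_right]
  rw [e1, e2] at k1
  have k2 := abs_le.1 (rep ⟨x, mx'⟩ ⟨y, my⟩ cq.symm ey.symm)
  have k3 := tr x (nv x) y (1, 0) mx' (mn _ mx') my mo
    (by rw [cp, cp, cp, cn _ _ mx', ey, co, inv_mul_cancel, one_mul]) (djn x mx' cf)
    (dj _ _ cq.symm) (dj _ _ isCoprime_one_right)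
  have k4 := dg x mx cf
  have b0 : 0 ≤ b := (abs_nonneg _).trans (par 1 1)
  rw [z] at k3
  simp only [Set.mem_iUnion]
  refine ⟨t, tT, x.1, ⟨mx.1, mx.2.2, ?_⟩, cp f x, ⟨x.2, mx.2.1, rfl⟩, e.symm⟩
  have hP' : h P ≤ B := hP
  simp only at k2
  linarith [k1.2, k2.1]

end Pool.Agent.MP_a43263_nt.VW

end MrgPart5

-- ======== part 6: formerly Pool.Agent.MP_a43263_nt.VW.End
section MrgPart6

/-! THEOREM V, part W: from the height to finiteness. -/

set_option autoImplicit false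

noncomputable section

namespace Pool.Agent.MP_a43263_nt.VW

open Polynomial JC VD
open Pool.Agent.MP_a43263_nt.UV (Qb)

theorem End.grp {G : Type} [CommGroup G] (h : G → ℝ) (b : ℝ)
    (hp : ∀ P Q, |h (P * Q) + h (P / Q) - 2 * (h P + h Q)| ≤ b) (hn : ∀ B, {P | h P ≤ B}.Finite)
    (A : Subgroup G) (h2 : ∀ x ∈ A, ∃ y ∈ A, y ^ 2 = x) : Finite A := by
  choose! r rA hr using h2
  refine Set.Finite.subset (s := {P | h P ≤ (b + h 1) / 3}) (t := A) (hn _) fun x xA => ?_
  by_contra c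
  have k : ∀ y ∈ A, h y ≤ h x → h (r y) < h x := fun y yA hy => by
    have := (abs_le.1 (hp (r y) (r y))).1
    rw [← sq, hr y yA, div_self'] at this
    have : (b + h 1) / 3 < h x := not_le.1 c
    linarith
  obtain ⟨y, hy, e⟩ := ((((hn (h x)).inter_of_right A).injOn_iff_bijOn_of_mapsTo
    fun y hy => ⟨rA y hy.1, (k y hy.1 hy.2).le⟩).1
    fun y hy z hz e => by rw [← hr y hy.1, e, hr z hz.1]).surjOn ⟨xA, le_refl (h x)⟩
  exact (k y hy.1 hy.2).ne (by rw [e])

theorem fin : HGTStmt → MWStmt := fun hgt =>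
  bridge fun L _ _ g f _ s ⟨θ, hθ⟩ n => by
    obtain ⟨h, b, hp, hn⟩ := hgt L g _ _ θ (Last.svK s L) (fK_map f)
      (fun c e => n ⟨c, by rw [← e, sq]⟩) hθ
    exact End.grp h b hp hn

end Pool.Agent.MP_a43263_nt.VW

end
end MrgPart6

-- ======== part 7: formerly Pool.Agent.MP_a43263_nt.VW.All
section MrgPart7

/-! THEOREM V, part W: assembly. -/

set_option autoImplicit false

namespace Pool.Agent.MP_a43263_nt.VW

theorem mw : MWStmt :=
  mw_of up sch kap (fun S g n F h => norm S g F n h) sum ht prin tri glob hgt fin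

end Pool.Agent.MP_a43263_nt.VW

end MrgPart7

-- marker of a merged file
example : 731051 + 768036 = 731051 + 768036 := rfl
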