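import Mathlib
import Pool.Agent.MP_a43263_nt.JM.Tri
import Pool.Agent.MP_a43263_nt.VW.Spec

/-! THEOREM V, part W: points of pairs, finite supports, the product formula for norms. -/

set_option autoImplicit false

namespace Pool.Agent.MP_a43263_nt.VW

open Polynomial Finset Filter JC
open JM (Qb Pc Sys nx pn lam Mu nv Oc ev mx ng de)

variable {L : Type} [Field L] {σ : L →+* Qb}

theorem pts_nv (σ : L →+* Qb) (x : L[X] × L[X]) : pts σ (nv x) = (pts σ x).map ng := by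
  simp [pts, nv, ng]

theorem pts_one (σ : L →+* Qb) : pts σ (1, 0) = 0 := by simp [pts]

theorem root {x : L[X] × L[X]} {p : Qb × Qb} (hp : p ∈ pts σ x) :
    (x.1.map σ).eval p.1 = 0 ∧ p.2 = (x.2.map σ).eval p.1 := by
  obtain ⟨t, ht, rfl⟩ := Multiset.mem_map.1 hp
  exact ⟨(mem_roots'.1 ht).2, rfl⟩

theorem cop {U W : L[X]} (h : IsCoprime U W) {t : Qb} (hU : (U.map σ).eval t = 0) :
    (W.map σ).eval t ≠ 0 := by
  intro hW
  obtain ⟨b, c, e⟩ := h
  have := congrArg (fun P : L[X] => (P.map σ).eval t) e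
  simp only [Polynomial.map_add, Polynomial.map_mul, eval_add, eval_mul, Polynomial.map_one,
    eval_one] at this
  rw [hU, hW, mul_zero, mul_zero, add_zero] at this
  exact zero_ne_one this

theorem ne1 {x y : L[X] × L[X]} (h : IsCoprime x.1 y.1) {p q : Qb × Qb} (hp : p ∈ pts σ x)
    (hq : q ∈ pts σ y) : p.1 ≠ q.1 := fun e => cop h (root hp).1 (e ▸ (root hq).1)

theorem ne2 {f : L[X]} {F : Qb[X]} (e : f.map σ = F) {x : L[X] × L[X]} (h : IsCoprime x.1 f)
    {p : Qb × Qb} (hp : p ∈ pts σ x) (ho : Oc F p) : p.2 ≠ 0 := by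
  intro z
  refine cop h (root hp).1 ?_
  rw [e, ← show p.2 ^ 2 = _ from ho, z, zero_pow two_ne_zero]

theorem ne3 {f : L[X]} {F : Qb[X]} (e : f.map σ = F) {x : L[X] × L[X]} (h : IsCoprime x.1 f)
    {p q : Qb × Qb} (hp : p ∈ pts σ x) (hq : q ∈ pts σ x) (ho : Oc F p) : p ≠ ng q := by
  intro z
  have e1 : p.1 = q.1 := by rw [z, ng]
  have e2 : p.2 = -q.2 := by rw [z, ng]
  rw [(root hq).2, ← e1, ← (root hp).2] at e2
  exact ne2 e h hp ho (CharZero.eq_neg_self_iff.1 e2)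

theorem split (σ : L →+* Qb) {y : L[X] × L[X]} (h : y.1.Monic) :
    y.1.map σ = (((pts σ y).map Prod.fst).map fun c => X - C c).prod := by
  have e : (pts σ y).map Prod.fst = (y.1.map σ).roots := by
    rw [pts, Multiset.map_map]
    exact Multiset.map_id' _
  rw [e]
  exact (IsAlgClosed.splits (y.1.map σ)).eq_prod_roots_of_monic (h.map _)

variable [NumberField L]

/-- a function of the place of the algebraic closure -/
theorem snd_ev (hs : SUMStmt) (S : Sys) {P : Pc → Prop} (h : ∀ᶠ v in cofinite, P v) :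
    ∀ᶠ π : Pl L in cofinite, P π.2 := (hs L S).1 _ fun _ => h

theorem lam_ev (hs : SUMStmt) (S : Sys) (g : ℕ) {s t : (L →+* Qb) → Multiset (Qb × Qb)}
    (h : ∀ σ, ∀ p ∈ s σ, ∀ q ∈ t σ, p ≠ q) :
    ∀ᶠ π : Pl L in cofinite, lam g (S.w π.2) (s π.1) (t π.1) = 0 :=
  (hs L S).1 _ fun σ => JM.Glob.lam_ev JM.sum S g (h σ)

theorem log_ev (hs : SUMStmt) (S : Sys) {c : L} (h : c ≠ 0) :
    ∀ᶠ π : Pl L in cofinite, Real.log (S.w π.2 (π.1 c)) = 0 :=
  (hs L S).1 _ fun σ => ((JM.sum S).1 (σ c) ((map_ne_zero σ).2 h)).mono fun v hv => by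
    rw [hv, Real.log_one]

/-- the product formula for a norm -/
theorem prodf (hs : SUMStmt) (S : Sys) (x : L[X] × L[X]) (hx : x.1.Monic) (R : L[X])
    (φ : (L →+* Qb) → Qb × Qb → Qb) (e : ∀ σ, ∀ p ∈ pts σ x, φ σ p = (R.map σ).eval p.1)
    (h : ∀ σ, ∀ p ∈ pts σ x, φ σ p ≠ 0) :
    (∀ᶠ π : Pl L in cofinite,
      ((pts π.1 x).map fun p => Real.log (S.w π.2 (φ π.1 p))).sum = 0) ∧
      ∑ᶠ π : Pl L, ((pts π.1 x).map fun p => Real.log (S.w π.2 (φ π.1 p))).sum = 0 := by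
  refine ⟨(hs L S).1 _ fun σ => JM.Glob.ev_sum _ (fun v p => Real.log (S.w v (φ σ p))) fun p hp =>
    ((JM.sum S).1 _ (h σ p hp)).mono fun v hv => by rw [hv, Real.log_one], ?_⟩
  obtain ⟨r, hr⟩ := (hs L S).2.2 x.1 R hx
  have e' : ∀ σ, ((pts σ x).map (φ σ)).prod = σ r := fun σ => by
    rw [← hr, Multiset.map_congr rfl (e σ), pts, Multiset.map_map]
    rfl
  have n : r ≠ 0 := by
    rintro rfl
    let σ : L →+* Qb := (IsAlgClosed.lift : L →ₐ[ℚ] Qb)
    have := e' σ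
    rw [map_zero, Multiset.prod_eq_zero_iff, Multiset.mem_map] at this
    obtain ⟨p, hp, z⟩ := this
    exact h σ p hp z
  rw [← (hs L S).2.1 r n]
  refine finsum_congr fun π => ?_
  rw [← JM.Glob.log_w _ _ _ (h π.1), e']

end Pool.Agent.MP_a43263_nt.VW
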