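import Pool.Agent.MP_a43263_nt.JM.Gau
import Pool.Agent.MP_a43263_nt.VD.Basic

/-! THEOREM V, part W: local estimates on `y ^ 2 = f(x)`, `f` of even degree; the statements. -/

set_option autoImplicit false

namespace Pool.Agent.MP_a43263_nt.VW

open Polynomial JC
open JM (nx hn de ng Oc ev mx Tri)

/-- good reduction up to the constant `κ` -/
structure Lc {K ι : Type} [Field K] [Fintype ι] (g : ℕ) (w : AbsoluteValue K ℝ) (κ : ℝ)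
    (α β : ι → K) (f : K[X]) : Prop where
  sv : VD.Sv g f
  eq : f = ∏ i, (C (α i) * X + C (β i))
  card : Fintype.card ι = 2 * g + 2
  tri : Tri w κ
  two : 1 ≤ κ * w 2
  le : ∀ i, w (α i) ≤ κ ∧ w (β i) ≤ κ
  sep : ∀ i k, i ≠ k → 1 ≤ κ * w (α i * β k - α k * β i)

/-- division by one zero -/
def PAIRStmt : Prop := ∀ g : ℕ, ∃ M : ℕ, ∀ (K ι : Type) [Field K] [Fintype ι]
  (w : AbsoluteValue K ℝ) (κ : ℝ) (α β : ι → K) (f : K[X]), Lc g w κ α β f →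
  ∀ p q : K × K, Oc f p → Oc f q → ∃ ψ ∈ mx f (ng q), VD.dd ψ ≤ (2 * g + 2 : ℕ) ∧
    hn w ψ ≤ κ ^ M * nx w q.1 ^ (g + 1) ∧ ∀ h h' : Rg f, h * ψ = ⟨X - C q.1, 0⟩ * h' →
      w (ev p h) * (nx w p.1 * nx w q.1) ^ (2 * g + 1) ≤ κ ^ M * (JM.dd g w p q * w (ev p h'))

/-- upper bounds for the local symbol -/
def UPStmt : Prop := ∀ g : ℕ, ∃ M : ℕ, ∀ (K ι : Type) [Field K] [Fintype ι]
  (w : AbsoluteValue K ℝ) (κ : ℝ) (α β : ι → K) (f : K[X]), Lc g w κ α β f →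
  ∀ p q : K × K, Oc f p → Oc f q →
    de g w p q * de g w p (ng q) ≤ κ ^ M * w (p.1 - q.1) ^ 2 ∧
    de g w p q ≤ κ ^ M * (nx w p.1 * nx w q.1) ∧
    de g w p (ng p) * nx w p.1 ^ (2 * g) ≤ κ ^ M * w p.2 ^ 2

/-- the Schwarz lemma -/
def SCHStmt : Prop := ∀ g n : ℕ, ∃ M : ℕ, ∀ (K ι : Type) [Field K] [CharZero K] [Fintype ι]
  (w : AbsoluteValue K ℝ) (κ : ℝ) (α β : ι → K) (f : K[X]), Lc g w κ α β f →
  ∀ (s : Multiset (K × K)) (h : Rg f) (p : K × K), s.card ≤ n → VD.dd h ≤ (s.card : ℕ) →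
    (∀ q ∈ s, Oc f q) → h ∈ (s.map (mx f)).prod → Oc f p →
    w (ev p h) ^ 2 * (s.map fun q => nx w q.1).prod ≤
      κ ^ M * (hn w h ^ 2 * (s.map (de g w p)).prod)

end Pool.Agent.MP_a43263_nt.VW
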