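import Mathlib.Tactic.Monotonicity.Lemmas
import Mathlib.Data.Int.Star
import Pool.Agent.MP_a43263_nt.VW.LocSpec
import Pool.Agent.MP_a43263_nt.JM.Up
import Pool.Agent.MP_a43263_nt.JM.Tri
import Pool.Agent.MP_a43263_nt.VD.Basic
import Pool.Agent.MP_a43263_nt.VW.Spec
import Pool.Agent.MP_a43263_nt.VD.All
import Pool.Agent.MP_a43263_nt.VW.Red

-- ======== part 0: formerly Pool.Agent.MP_a43263_nt.VW.Pair
section MrgPart0

/-! THEOREM V, part W: division by one zero. -/

set_option autoImplicit false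

namespace Pool.Agent.MP_a43263_nt.VW

open Polynomial Finset JC JM JM.Pair

namespace Pr

variable {K : Type} [Field K] {w : AbsoluteValue K ℝ} {κ : ℝ} {f : K[X]} {g : ℕ}

/-- the conclusion for one pair of points -/
def Rs (g M : ℕ) (w : AbsoluteValue K ℝ) (κ : ℝ) (f : K[X]) (p q : K × K) : Prop :=
  ∃ ψ ∈ mx f (ng q), VD.dd ψ ≤ (2 * g + 2 : ℕ) ∧
    hn w ψ ≤ κ ^ M * nx w q.1 ^ (g + 1) ∧ ∀ h h' : Rg f, h * ψ = ⟨X - C q.1, 0⟩ * h' →
      w (ev p h) * (nx w p.1 * nx w q.1) ^ (2 * g + 1) ≤ κ ^ M * (dd g w p q * w (ev p h'))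

theorem sq_deg {u : K[X]} (h : u.natDegree ≤ g + 1) : (u ^ 2).degree ≤ (2 * g + 2 : ℕ) :=
  degree_le_of_natDegree_le (natDegree_pow_le.trans (by omega))

theorem cA [IsDomain (Rg f)] (hκ : 1 ≤ κ) {p q : K × K} (hp : Oc f p) {M : ℕ}
    (h : (nx w p.1 * nx w q.1) ^ (g + 1) ≤ κ ^ M * dd g w p q) : Rs g M w κ f p q := by
  obtain ⟨j, hj, ej⟩ := exists_pow w p.1 g
  obtain ⟨j', _, ec⟩ := exists_pow w q.1 g
  have e : (⟨C (q.1 ^ j') * (X ^ j * (X - C q.1)), 0⟩ : Rg f) =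
      ⟨X - C q.1, 0⟩ * ⟨C (q.1 ^ j') * X ^ j, 0⟩ := by
    ext1 <;> simp only [QuadraticAlgebra.re_mul, QuadraticAlgebra.im_mul] <;> ring
  refine ⟨⟨C (q.1 ^ j') * (X ^ j * (X - C q.1)), 0⟩, ?_, ?_, ?_, fun u u' hu => ?_⟩
  · rw [e]
    exact Ideal.mul_mem_right _ _ (Ideal.subset_span (Or.inl rfl))
  · have h1 : (C (q.1 ^ j') * (X ^ j * (X - C q.1)) : K[X]).natDegree ≤ g + 1 := by
      refine (natDegree_C_mul_le _ _).trans (natDegree_mul_le.trans ?_)
      rw [natDegree_X_pow, natDegree_X_sub_C]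
      omega
    rw [VD.dd_poly]
    exact sq_deg h1
  · have h0 : nx w q.1 ^ (g + 1) ≤ κ ^ M * nx w q.1 ^ (g + 1) :=
      le_mul_of_one_le_left (pow_pos (nx_pos w _) _).le (one_le_pow₀ hκ)
    refine le_trans (max_le ?_ ?_) h0
    · show pn w (C (q.1 ^ j') * (X ^ j * (X - C q.1))) ≤ _
      rw [pn_C_mul, ec, pow_succ]
      exact mul_le_mul_of_nonneg_left (pn_lin j q.1) (pow_pos (nx_pos w _) _).le
    · show pn w 0 ≤ _
      rw [pn_zero]
      exact (pow_pos (nx_pos w _) _).le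
  · rw [e, mul_left_comm] at hu
    have h2 := mul_left_cancel₀ (lin_ne q.1) hu
    have h3 : w (ev p u') = w (ev p u) * (nx w p.1 * nx w q.1) ^ g := by
      rw [← h2, ev_mul hp, ev_re, map_mul, eval_mul, eval_C, eval_pow, eval_X, map_mul, ej, ec,
        mul_pow]
      ring
    have h4 := w.nonneg (ev p u)
    have h5 := (pow_pos (mul_pos (nx_pos w p.1) (nx_pos w q.1)) g).le
    calc w (ev p u) * (nx w p.1 * nx w q.1) ^ (2 * g + 1)
        = (nx w p.1 * nx w q.1) ^ (g + 1) * (w (ev p u) * (nx w p.1 * nx w q.1) ^ g) := by ring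
      _ ≤ κ ^ M * dd g w p q * (w (ev p u) * (nx w p.1 * nx w q.1) ^ g) :=
          mul_le_mul_of_nonneg_right h (mul_nonneg h4 h5)
      _ = _ := by rw [h3]; ring

theorem cA' [IsDomain (Rg f)] (hκ : 1 ≤ κ) {p q : K × K} (hp : Oc f p) {M : ℕ}
    (h : nx w p.1 * nx w q.1 ≤ κ ^ M * w (p.1 - q.1)) : Rs g M w κ f p q := by
  refine cA hκ hp ?_
  have h5 := (pow_pos (mul_pos (nx_pos w p.1) (nx_pos w q.1)) g).le
  calc (nx w p.1 * nx w q.1) ^ (g + 1)
      = nx w p.1 * nx w q.1 * (nx w p.1 * nx w q.1) ^ g := by ring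
    _ ≤ κ ^ M * w (p.1 - q.1) * (nx w p.1 * nx w q.1) ^ g := mul_le_mul_of_nonneg_right h h5
    _ = κ ^ M * (w (p.1 - q.1) * (nx w p.1 * nx w q.1) ^ g) := by ring
    _ ≤ _ := mul_le_mul_of_nonneg_left (dd1 p q) (pow_nonneg (zero_le_one.trans hκ) _)

theorem yl {ι : Type} [Fintype ι] {α β : ι → K} (ho : Lc g w κ α β f) {q : K × K}
    (hq : Oc f q) : w q.2 ≤ κ ^ (2 * g + 2) * nx w q.1 ^ (g + 1) := by
  have hκ := ho.tri.1
  have hn := one_le_nx w q.1
  have h1 : w q.2 ^ 2 ≤ (κ ^ 2 * nx w q.1) ^ (2 * g + 2) := by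
    rw [← map_pow, show q.2 ^ 2 = f.eval q.1 from hq, ho.eq, eval_prod, map_prod, ← ho.card,
      ← card_univ, ← prod_const]
    refine prod_le_prod (fun i _ => w.nonneg _) fun i _ => ?_
    rw [eval_add, eval_mul, eval_X, eval_C, eval_C, pow_two, mul_assoc]
    refine (ho.tri.2 _ _).trans (mul_le_mul_of_nonneg_left (max_le ?_ ?_) (by linarith))
    · rw [map_mul]
      exact mul_le_mul (ho.le i).1 (le_nx w _) (w.nonneg _) (by linarith)
    · exact (ho.le i).2.trans (le_mul_of_one_le_right (by linarith) hn)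
  refine (pow_le_pow_iff_left₀ (w.nonneg _) (by positivity) two_ne_zero).1 (h1.trans_eq ?_)
  ring

theorem cB {ι : Type} [Fintype ι] {a b : ι → K}
    (ho : Lc g w κ a b f) {p q : K × K} (hp : Oc f p) (hq : Oc f q) {L Γ : K[X]} {m : ℕ}
    (hd : L.natDegree ≤ 1) (hL : pn w (L ^ (g + 1)) ≤ 1) (l1 : w (L.eval q.1) ≤ nx w q.1)
    (l2 : nx w q.1 ≤ κ * w (L.eval q.1))
    (hb : w (p.2 * L.eval q.1 ^ (g + 1) - q.2 * L.eval p.1 ^ (g + 1)) ≤ dd g w p q)
    (hΓ : f * C (L.eval q.1 ^ (2 * g + 2)) - C (f.eval q.1) * L ^ (2 * g + 2) = (X - C q.1) * Γ)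
    (hs : (nx w p.1 * nx w q.1) ^ (2 * g + 2) ≤ κ ^ m * max (w (f.eval p.1) * nx w q.1 ^ (2 * g + 2))
      (max (w (Γ.eval p.1) * (nx w p.1 * nx w q.1))
        (w (p.1 - q.1) * (nx w p.1 * nx w q.1) ^ (2 * g + 1)))) :
    Rs g (m + 2 * g + 3) w κ f p q := by
  have hdom := ho.sv.dom
  have hκ := ho.tri.1
  have hκ0 : 0 < κ := by linarith
  have hn := nx_pos w p.1
  have hn' := nx_pos w q.1
  have hs0 : 0 < nx w p.1 * nx w q.1 := mul_pos hn hn'
  have hm : κ ^ m ≤ κ ^ (m + 2 * g + 3) := pow_le_pow_right₀ hκ (by omega)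
  have hdd := dd_nonneg w g p q
  set ψ : Rg f := ⟨C q.2 * L ^ (g + 1), C (L.eval q.1 ^ (g + 1))⟩ with hψ
  set β : Rg f := ⟨-(C q.2 * L ^ (g + 1)), C (L.eval q.1 ^ (g + 1))⟩ with hβ
  have hq' : C (f.eval q.1) = C q.2 ^ 2 := by rw [← C_pow, show q.2 ^ 2 = f.eval q.1 from hq]
  have hprod : ψ * β = (⟨X - C q.1, 0⟩ : Rg f) * ⟨Γ, 0⟩ := by
    ext1
    · simp only [hψ, hβ, QuadraticAlgebra.re_mul, mul_zero, add_zero]
      rw [← hΓ, hq', C_pow, C_pow]
      ring
    · simp only [hψ, hβ, QuadraticAlgebra.im_mul]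
      ring
  have eβ : ev p β = p.2 * L.eval q.1 ^ (g + 1) - q.2 * L.eval p.1 ^ (g + 1) := by
    simp only [hβ, ev, eval_neg, eval_mul, eval_C, eval_pow]
    ring
  have esum : ev p ψ + ev p β = 2 * (p.2 * L.eval q.1 ^ (g + 1)) := by
    simp only [hψ, hβ, ev, eval_neg, eval_mul, eval_C, eval_pow]
    ring
  rw [← eβ] at hb
  have main : (∀ h h' : Rg f, h * ψ = ⟨X - C q.1, 0⟩ * h' →
      w (ev p h) * (nx w p.1 * nx w q.1) ^ (2 * g + 1) ≤
        κ ^ (m + 2 * g + 3) * (dd g w p q * w (ev p h'))) → Rs g (m + 2 * g + 3) w κ f p q := by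
    intro hh
    refine ⟨ψ, ?_, ?_, ?_, hh⟩
    · have h1 : X - C q.1 ∣ f - C (-q.2) ^ 2 := by
        rw [dvd_iff_isRoot, IsRoot, eval_sub, eval_pow, eval_C, ← show q.2 ^ 2 = f.eval q.1 from hq]
        ring
      refine (Mum.mem_MI h1 ψ).2 ?_
      rw [dvd_iff_isRoot, IsRoot]
      simp only [hψ, eval_add, eval_mul, eval_C, eval_pow]
      ring
    · have h1 : (C q.2 * L ^ (g + 1)).natDegree ≤ g + 1 :=
        (natDegree_C_mul_le _ _).trans (natDegree_pow_le.trans (by nlinarith))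
      refine max_le (sq_deg h1) (degree_le_of_natDegree_le ?_)
      show (f * C (L.eval q.1 ^ (g + 1)) ^ 2).natDegree ≤ _
      rw [← C_pow]
      exact (natDegree_mul_C_le _ _).trans ho.sv.deg.le
    · refine max_le ?_ ?_
      · show pn w (C q.2 * L ^ (g + 1)) ≤ _
        rw [pn_C_mul]
        refine (mul_le_of_le_one_right (w.nonneg _) hL).trans ((yl ho hq).trans ?_)
        exact mul_le_mul_of_nonneg_right (pow_le_pow_right₀ hκ (by omega)) (by positivity)
      · show pn w (C (L.eval q.1 ^ (g + 1))) ≤ _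
        refine le_trans (pn_le w fun i => ?_)
          (le_mul_of_one_le_left (by positivity) (one_le_pow₀ hκ))
        rw [coeff_C]
        split_ifs
        · rw [map_pow]
          exact pow_le_pow_left₀ (w.nonneg _) l1 _
        · rw [map_zero]
          positivity
  rcases le_max_iff.1 ((div_le_iff₀' (pow_pos hκ0 m)).2 hs) with c | c
  · rw [div_le_iff₀' (pow_pos hκ0 m)] at c
    have h1 : w p.2 * nx w q.1 ^ (g + 1) ≤ κ ^ (g + 3) * max (w (ev p ψ)) (w (ev p β)) := by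
      have h2 := ho.tri.2 (ev p ψ) (ev p β)
      rw [esum, map_mul, map_mul, map_pow] at h2
      have h3 : nx w q.1 ^ (g + 1) ≤ (κ * w (L.eval q.1)) ^ (g + 1) := pow_le_pow_left₀ hn'.le l2 _
      have h4 := w.nonneg p.2
      have h5 := w.nonneg (L.eval q.1)
      calc w p.2 * nx w q.1 ^ (g + 1) ≤ w p.2 * (κ * w (L.eval q.1)) ^ (g + 1) :=
            mul_le_mul_of_nonneg_left h3 h4
        _ = 1 * (κ ^ (g + 1) * (w p.2 * w (L.eval q.1) ^ (g + 1))) := by ring
        _ ≤ κ * w 2 * (κ ^ (g + 1) * (w p.2 * w (L.eval q.1) ^ (g + 1))) :=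
            mul_le_mul_of_nonneg_right ho.two (by positivity)
        _ = κ ^ (g + 2) * (w 2 * (w p.2 * w (L.eval q.1) ^ (g + 1))) := by ring
        _ ≤ κ ^ (g + 2) * (κ * max (w (ev p ψ)) (w (ev p β))) :=
            mul_le_mul_of_nonneg_left h2 (by positivity)
        _ = _ := by ring
    have h0 : 0 ≤ max (w (ev p ψ)) (w (ev p β)) := (w.nonneg _).trans (le_max_left _ _)
    have h6 : (nx w p.1 * nx w q.1) ^ (g + 1) ≤
        κ ^ (m + 2 * g + 3) * max (w (ev p ψ)) (w (ev p β)) := by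
      refine (pow_le_pow_iff_left₀ (by positivity) (by positivity) two_ne_zero).1 ?_
      have h7 : w (f.eval p.1) = w p.2 ^ 2 := by
        rw [← map_pow, show p.2 ^ 2 = f.eval p.1 from hp]
      have h8 := w.nonneg p.2
      calc ((nx w p.1 * nx w q.1) ^ (g + 1)) ^ 2 = (nx w p.1 * nx w q.1) ^ (2 * g + 2) := by ring
        _ ≤ κ ^ m * (w (f.eval p.1) * nx w q.1 ^ (2 * g + 2)) := c
        _ = κ ^ m * (w p.2 * nx w q.1 ^ (g + 1)) ^ 2 := by rw [h7]; ring
        _ ≤ κ ^ m * (κ ^ (g + 3) * max (w (ev p ψ)) (w (ev p β))) ^ 2 :=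
            mul_le_mul_of_nonneg_left (pow_le_pow_left₀ (by positivity) h1 _) (by positivity)
        _ = κ ^ (m + 2 * g + 6) * max (w (ev p ψ)) (w (ev p β)) ^ 2 := by ring
        _ ≤ κ ^ (2 * (m + 2 * g + 3)) * max (w (ev p ψ)) (w (ev p β)) ^ 2 :=
            mul_le_mul_of_nonneg_right (pow_le_pow_right₀ hκ (by omega)) (by positivity)
        _ = _ := by ring
    rcases le_total (w (ev p ψ)) (w (ev p β)) with c' | c'
    · rw [max_eq_right c'] at h6
      exact cA hκ hp (h6.trans (mul_le_mul_of_nonneg_left hb (by positivity)))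
    · rw [max_eq_left c'] at h6
      refine main fun h h' e => ?_
      have h9 : w (ev p h) * w (ev p ψ) = w (p.1 - q.1) * w (ev p h') := by
        rw [← map_mul, ← ev_mul hp, e, ev_mul hp, ev_re, map_mul, eval_sub, eval_X, eval_C]
      have h10 := w.nonneg (ev p h)
      have h11 := w.nonneg (ev p h')
      calc w (ev p h) * (nx w p.1 * nx w q.1) ^ (2 * g + 1)
          = (nx w p.1 * nx w q.1) ^ (g + 1) * (w (ev p h) * (nx w p.1 * nx w q.1) ^ g) := by ring
        _ ≤ κ ^ (m + 2 * g + 3) * w (ev p ψ) * (w (ev p h) * (nx w p.1 * nx w q.1) ^ g) :=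
            mul_le_mul_of_nonneg_right h6 (by positivity)
        _ = κ ^ (m + 2 * g + 3) * (w (ev p h) * w (ev p ψ) * (nx w p.1 * nx w q.1) ^ g) := by ring
        _ = κ ^ (m + 2 * g + 3) * (w (p.1 - q.1) * (nx w p.1 * nx w q.1) ^ g * w (ev p h')) := by
            rw [h9]; ring
        _ ≤ _ := mul_le_mul_of_nonneg_left (mul_le_mul_of_nonneg_right (dd1 p q) h11)
            (by positivity)
  · rcases le_max_iff.1 c with c | c
    · rw [div_le_iff₀' (pow_pos hκ0 m)] at c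
      have h1 : (nx w p.1 * nx w q.1) ^ (2 * g + 1) ≤ κ ^ m * w (Γ.eval p.1) := by
        refine le_of_mul_le_mul_right ?_ hs0
        calc _ = (nx w p.1 * nx w q.1) ^ (2 * g + 2) := by ring
          _ ≤ _ := c
          _ = _ := by ring
      refine main fun h h' e => ?_
      have h2 : h * ⟨Γ, 0⟩ = h' * β := by
        refine mul_left_cancel₀ (lin_ne q.1) ?_
        rw [mul_left_comm, ← hprod, ← mul_assoc, e, mul_assoc]
      have h3 : w (ev p h) * w (Γ.eval p.1) = w (ev p h') * w (ev p β) := by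
        rw [← map_mul, ← ev_re (f := f) p Γ, ← ev_mul hp, h2, ev_mul hp, map_mul]
      have h10 := w.nonneg (ev p h)
      have h11 := w.nonneg (ev p h')
      calc w (ev p h) * (nx w p.1 * nx w q.1) ^ (2 * g + 1)
          ≤ w (ev p h) * (κ ^ m * w (Γ.eval p.1)) := mul_le_mul_of_nonneg_left h1 h10
        _ = κ ^ m * (w (ev p h) * w (Γ.eval p.1)) := by ring
        _ = κ ^ m * (w (ev p β) * w (ev p h')) := by rw [h3]; ring
        _ ≤ _ := mul_le_mul hm (mul_le_mul_of_nonneg_right hb h11)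
            (mul_nonneg (w.nonneg _) h11) (by positivity)
    · rw [div_le_iff₀' (pow_pos hκ0 m)] at c
      refine cA' hκ hp (le_trans ?_ (mul_le_mul_of_nonneg_right hm (w.nonneg _)))
      refine le_of_mul_le_mul_right ?_ (pow_pos hs0 (2 * g + 1))
      calc _ = (nx w p.1 * nx w q.1) ^ (2 * g + 2) := by ring
        _ ≤ _ := c
        _ = _ := by ring

end Pr

open Pr in
theorem pair : PAIRStmt := by
  intro g
  obtain ⟨m, hm⟩ := JM.sep (2 * g + 2)
  refine ⟨m + 2 * g + 3, fun K ι _ _ w κ α β f ho p q hp hq => ?_⟩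
  show Rs g (m + 2 * g + 3) w κ f p q
  have hκ := ho.tri.1
  have : IsDomain (Rg f) := ho.sv.dom
  have key : ∀ μ ν : K, w μ ≤ 1 → w ν ≤ 1 → nx w p.1 ≤ κ * w (μ * p.1 + ν) →
      nx w q.1 ≤ κ * w (μ * q.1 + ν) → w (μ * q.1 + ν) ≤ nx w q.1 →
      pn w ((C μ * X + C ν) ^ (g + 1)) ≤ 1 →
      w (p.2 * (μ * q.1 + ν) ^ (g + 1) - q.2 * (μ * p.1 + ν) ^ (g + 1)) ≤ dd g w p q →
      Rs g (m + 2 * g + 3) w κ f p q := by
    intro μ ν h1 h2 h3 h4 h5 h6 h7
    have eL : ∀ x : K, (C μ * X + C ν : K[X]).eval x = μ * x + ν := fun x => by simp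
    obtain ⟨Γ, hΓ⟩ : X - C q.1 ∣ f * C ((μ * q.1 + ν) ^ (2 * g + 2)) -
        C (f.eval q.1) * (C μ * X + C ν) ^ (2 * g + 2) := by
      rw [dvd_iff_isRoot, IsRoot, eval_sub, eval_mul, eval_mul, eval_C, eval_C, eval_pow, eL,
        sub_self]
    have e2 : ∀ x : K, ∏ i, (α i * x + β i) = f.eval x := by
      intro x
      rw [ho.eq, eval_prod]
      simp
    have hs := hm K ι w κ α β μ ν p.1 q.1 Γ ho.tri ho.card (by omega) ho.le ho.sep h1 h2 h3 h4
      (by rw [← ho.eq, e2]; exact hΓ)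
    rw [e2] at hs
    exact cB (L := C μ * X + C ν) ho hp hq natDegree_linear_le h6 (by rwa [eL])
      (by rwa [eL]) (by rwa [eL, eL]) (by rw [eL]; exact hΓ) hs
  rcases chart ho.tri p.1 q.1 with c | c | c
  · refine cA' hκ hp (c.trans (mul_le_mul_of_nonneg_right ?_ (w.nonneg _)))
    exact le_self_pow₀ hκ (by omega)
  · refine key 0 1 (by simp) (by simp) ?_ ?_ ?_ ?_ ?_
    · simpa [nx] using ⟨hκ, c.1⟩
    · simpa [nx] using ⟨hκ, c.2⟩
    · simpa using one_le_nx w q.1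
    · refine pn_le w fun i => ?_
      simp only [map_zero, zero_mul, map_one, zero_add, one_pow, coeff_one]
      split_ifs <;> simp
    · simpa using ((le_max_left _ _).trans (le_max_right _ _) : w (p.2 - q.2) ≤ dd g w p q)
  · refine key 1 0 (by simp) (by simp) ?_ ?_ ?_ ?_ ?_
    · rw [one_mul, add_zero, nx, max_eq_right c.1]
      exact le_mul_of_one_le_left (w.nonneg _) hκ
    · rw [one_mul, add_zero, nx, max_eq_right c.2]
      exact le_mul_of_one_le_left (w.nonneg _) hκ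
    · simpa using le_nx w q.1
    · refine pn_le w fun i => ?_
      simp only [map_zero, one_mul, map_one, add_zero, coeff_X_pow]
      split_ifs <;> simp
    · simpa using ((le_max_right _ _).trans (le_max_right _ _) :
        w (p.2 * q.1 ^ (g + 1) - q.2 * p.1 ^ (g + 1)) ≤ dd g w p q)

end Pool.Agent.MP_a43263_nt.VW

end MrgPart0

-- ======== part 1: formerly Pool.Agent.MP_a43263_nt.VW.Norm
section MrgPart1

/-! THEOREM V, part W: the Gauss lemma for the norm form, by interpolation. -/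

set_option autoImplicit false

noncomputable section

namespace Pool.Agent.MP_a43263_nt.VW

open Polynomial Finset Filter JM

namespace NormA

variable {K : Type} [Field K] {g : ℕ} {f : K[X]}

theorem deg (hf : VD.Sv g f) {n : ℕ} {A B : K[X]} (hA : A.natDegree ≤ n) (hB : B.natDegree ≤ n) :
    (A ^ 2 - f * B ^ 2).natDegree < 2 * n + 2 * g + 3 := by
  have := hf.deg
  refine ((natDegree_sub_le _ _).trans (max_le (natDegree_pow_le.trans ?_)
    (natDegree_mul_le.trans ?_))).trans_lt (Nat.lt_succ_self (2 * n + 2 * g + 2))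
  · omega
  · have := natDegree_pow_le (p := B) (n := 2)
    omega

/-- interpolation at points of the curve -/
theorem inv [CharZero K] (hf : VD.Sv g f) (n : ℕ) (y : Fin (2 * n + 2 * g + 3) → K)
    (hy : ∀ j, y j ^ 2 = f.eval (j.1 : K)) : ∃ P Q : Fin (2 * n + 2 * g + 3) → K[X],
    ∀ A B : K[X], A.natDegree ≤ n → B.natDegree ≤ n →
      A = ∑ j, C (A.eval (j.1 : K) + y j * B.eval (j.1 : K)) * P j ∧
      B = ∑ j, C (A.eval (j.1 : K) + y j * B.eval (j.1 : K)) * Q j := by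
  let W := (degreeLE K n).prod (degreeLE K n)
  let T : W →ₗ[K] (Fin (2 * n + 2 * g + 3) → K) := (LinearMap.pi fun j =>
    (leval (j.1 : K)).comp (LinearMap.fst K K[X] K[X]) +
      y j • (leval (j.1 : K)).comp (LinearMap.snd K K[X] K[X])).comp W.subtype
  have hT : ∀ x j, T x j = x.1.1.eval (j.1 : K) + y j * x.1.2.eval (j.1 : K) := fun x j => by
    simp [T, leval_apply]
  obtain ⟨G, hG⟩ := T.exists_leftInverse_of_injective (LinearMap.ker_eq_bot'.2 fun x hx => by
    have d := deg hf (natDegree_le_iff_degree_le.2 (mem_degreeLE.1 x.2.1))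
      (natDegree_le_iff_degree_le.2 (mem_degreeLE.1 x.2.2))
    have z := eq_zero_of_natDegree_lt_card_of_eval_eq_zero (x.1.1 ^ 2 - f * x.1.2 ^ 2)
      (f := fun j : Fin (2 * n + 2 * g + 3) => (j.1 : K))
      (Nat.cast_injective.comp Fin.val_injective) (fun j => by
        have := hT x j
        rw [hx, Pi.zero_apply] at this
        rw [eval_sub, eval_mul, eval_pow, eval_pow, ← hy]
        linear_combination (y j * x.1.2.eval (j.1 : K) - x.1.1.eval (j.1 : K)) * this)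
      (by rwa [Fintype.card_fin])
    have e : (⟨x.1.1, x.1.2⟩ : JC.Rg f) = 0 := by
      by_contra c
      exact hf.nr_ne c z
    exact Subtype.ext (Prod.ext (congrArg (·.re) e) (congrArg (·.im) e)))
  refine ⟨fun j => (G fun i => if j = i then 1 else 0).1.1,
    fun j => (G fun i => if j = i then 1 else 0).1.2, fun A B hA hB => ?_⟩
  let x : W := ⟨(A, B), mem_degreeLE.2 (degree_le_of_natDegree_le hA),
    mem_degreeLE.2 (degree_le_of_natDegree_le hB)⟩
  have e : x = G (T x) := (LinearMap.congr_fun hG x).symm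
  rw [LinearMap.pi_apply_eq_sum_univ] at e
  constructor
  · simpa [hT, x, Prod.fst_sum, smul_eq_C_mul] using congrArg (·.1.1) e
  · simpa [hT, x, Prod.snd_sum, smul_eq_C_mul] using congrArg (·.1.2) e

theorem lin {w : AbsoluteValue K ℝ} {κ b t : ℝ} (h : Tri w κ) (ht : 0 ≤ t) (hb : 0 ≤ b) {N : ℕ}
    (u : Fin N → K) (P : Fin N → K[X]) (hu : ∀ j, w (u j) ≤ t) (hP : ∀ j i, w ((P j).coeff i) ≤ b) :
    pn w (∑ j, C (u j) * P j) ≤ κ ^ N * (t * b) := pn_le w fun i => by
  have := h.sum (mul_nonneg ht hb) univ (fun j => u j * (P j).coeff i) fun j _ => by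
    rw [map_mul]; exact mul_le_mul (hu j) (hP j i) (w.nonneg _) ht
  simpa [finsetSum_coeff] using this

theorem ev_le {w : AbsoluteValue K ℝ} {κ b : ℝ} (h : Tri w κ) (hb : 1 ≤ b) {N : ℕ} {R : K[X]}
    (hR : R.natDegree < N) {x : K} (hx : w x ≤ b) : w (R.eval x) ≤ κ ^ N * (pn w R * b ^ N) := by
  have := h.sum (b := pn w R * b ^ N) (mul_nonneg (pn_nonneg w R) (by positivity)) (range N)
    (fun i => R.coeff i * x ^ i) fun i hi => by
      rw [map_mul, map_pow]
      exact mul_le_mul (le_pn w R i) ((pow_le_pow_left₀ (w.nonneg _) hx i).trans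
        (pow_le_pow_right₀ hb (mem_range.1 hi).le)) (by positivity) (pn_nonneg w R)
  rwa [card_range, ← eval_eq_sum_range' hR] at this

theorem sgn (w : AbsoluteValue K ℝ) (a b y : K) :
    ∃ e : Bool, w (a + (if e then y else -y) * b) ^ 2 ≤ w (a ^ 2 - y ^ 2 * b ^ 2) := by
  rw [show a ^ 2 - y ^ 2 * b ^ 2 = (a + y * b) * (a + -y * b) by ring, map_mul]
  rcases le_total (w (a + y * b)) (w (a + -y * b)) with c | c
  · exact ⟨true, by simpa [sq] using mul_le_mul_of_nonneg_left c (w.nonneg (a + y * b))⟩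
  · exact ⟨false, by simpa [sq] using mul_le_mul_of_nonneg_right c (w.nonneg (a + -y * b))⟩

theorem bd (S : Sys) (Φ : Finset Qb) : ∃ b : Pc → ℝ, (∀ v, 1 ≤ b v) ∧
    (∀ᶠ v in cofinite, b v = 1) ∧ ∀ v, ∀ z ∈ Φ, S.w v z ≤ b v := by
  classical
  induction Φ using Finset.induction_on with
  | empty => exact ⟨fun _ => 1, fun _ => le_rfl, by simp, by simp⟩
  | insert z Φ _ ih =>
    obtain ⟨b, h1, h2, h3⟩ := ih
    refine ⟨fun v => max (nx (S.w v) z) (b v), fun v => (h1 v).trans (le_max_right _ _),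
      (h2.and ((sum S).2.1 z)).mono fun v h => by simp [h.1, h.2], fun v x hx => ?_⟩
    rcases mem_insert.1 hx with rfl | hx
    exacts [(le_nx _ _).trans (le_max_left _ _), (h3 v x hx).trans (le_max_right _ _)]

end NormA

/-- the Gauss lemma for the norm -/
theorem norm (S : Sys) (g : ℕ) (f : Qb[X]) (n : ℕ) (hf : VD.Sv g f) : ∃ c : Pc → ℝ,
    (∀ v, 1 ≤ c v) ∧ (∀ᶠ v in cofinite, c v = 1) ∧ ∀ (v : Pc) (A B : Qb[X]), A.natDegree ≤ n →
      B.natDegree ≤ n →
      max (pn (S.w v) A) (pn (S.w v) B) ^ 2 ≤ c v * pn (S.w v) (A ^ 2 - f * B ^ 2) := by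
  classical
  choose y hy using fun j : Fin (2 * n + 2 * g + 3) =>
    IsAlgClosed.exists_pow_nat_eq (f.eval (j.1 : Qb)) two_pos
  choose P Q hP using fun e : Fin (2 * n + 2 * g + 3) → Bool =>
    NormA.inv hf n (fun j => if e j then y j else -y j) fun j => by
      rw [← hy]; split_ifs <;> ring
  obtain ⟨b, h1, h2, h3⟩ := NormA.bd S (insert 0 (univ.biUnion
    fun x : (Fin (2 * n + 2 * g + 3) → Bool) × Fin (2 * n + 2 * g + 3) =>
      insert (x.2.1 : Qb) ((P x.1 x.2).coeffs ∪ (Q x.1 x.2).coeffs)))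
  let κ : Pc → ℝ := fun v => if v = none then 2 else 1
  have tr : ∀ v, Tri (S.w v) (κ v) := fun v => by
    rcases v with _ | p
    · refine ⟨by simp [κ], fun x y => ((S.w none).add_le x y).trans ?_⟩
      have := le_max_left (S.w none x) (S.w none y)
      have := le_max_right (S.w none x) (S.w none y)
      simp only [κ, if_true]
      linarith
    · exact ⟨by simp [κ], fun x y => by simpa [κ] using S.na p x y⟩
  have dg := fun A B => NormA.deg hf (n := n) (A := A) (B := B)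
  generalize 2 * n + 2 * g + 3 = N at *
  refine ⟨fun v => κ v ^ (3 * N) * b v ^ (N + 2), fun v => one_le_mul_of_one_le_of_one_le
    (one_le_pow₀ (tr v).1) (one_le_pow₀ (h1 v)),
    (h2.and (eventually_cofinite_ne none)).mono fun v h => by simp [κ, h.1, h.2],
    fun v A B hA hB => ?_⟩
  have co : ∀ e j (U : Qb[X]), U.coeffs ⊆ (P e j).coeffs ∪ (Q e j).coeffs →
      ∀ i, S.w v (U.coeff i) ≤ b v := fun e j U hU i => h3 v _ (by
    by_cases c : U.coeff i = 0
    · rw [c]; exact mem_insert_self _ _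
    · exact mem_insert_of_mem (mem_biUnion.2 ⟨(e, j), mem_univ _,
        mem_insert_of_mem (hU (coeff_mem_coeffs c))⟩))
  choose e he using fun j : Fin N => NormA.sgn (S.w v) (A.eval (j.1 : Qb)) (B.eval (j.1 : Qb)) (y j)
  have k0 : 0 ≤ κ v := zero_le_one.trans (tr v).1
  have b0 : 0 ≤ b v := zero_le_one.trans (h1 v)
  have r0 := pn_nonneg (S.w v) (A ^ 2 - f * B ^ 2)
  have hu : ∀ j : Fin N, S.w v (A.eval (j.1 : Qb) + (if e j then y j else -y j) * B.eval (j.1 : Qb))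
      ≤ √(κ v ^ N * (pn (S.w v) (A ^ 2 - f * B ^ 2) * b v ^ N)) := fun j =>
    Real.le_sqrt_of_sq_le ((he j).trans (by
      have := NormA.ev_le (tr v) (h1 v) (dg A B hA hB) (h3 v (j.1 : Qb)
        (mem_insert_of_mem (mem_biUnion.2 ⟨(e, j), mem_univ _, mem_insert_self _ _⟩)))
      rwa [eval_sub, eval_mul, eval_pow, eval_pow, ← hy] at this))
  have kA := NormA.lin (tr v) (Real.sqrt_nonneg _) b0 _ (P e) hu fun j => co e j _ subset_union_left
  have kB := NormA.lin (tr v) (Real.sqrt_nonneg _) b0 _ (Q e) hu fun j => co e j _ subset_union_right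
  rw [← (hP e A B hA hB).1] at kA
  rw [← (hP e A B hA hB).2] at kB
  refine (pow_le_pow_left₀ ((pn_nonneg _ _).trans (le_max_left _ _)) (max_le kA kB) 2).trans ?_
  rw [mul_pow, mul_pow, Real.sq_sqrt (by positivity)]
  exact le_of_eq (by ring)

end Pool.Agent.MP_a43263_nt.VW

end
end MrgPart1

-- ======== part 2: formerly Pool.Agent.MP_a43263_nt.VW.Tri
section MrgPart2

/-! THEOREM V, part W: the pairing on principal divisors. -/

set_option autoImplicit false

noncomputable section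

namespace Pool.Agent.MP_a43263_nt.VW

open Polynomial Finset Filter JC
open JM (Qb Pc Sys nx pn de lam Mu Oc ev mx nx_pos de_pos pn_C_mul)

namespace TriA

variable {L : Type} [Field L]

theorem root {σ : L →+* Qb} {x : L[X] × L[X]} {p : Qb × Qb} (hp : p ∈ pts σ x) :
    p.2 = (x.2.map σ).eval p.1 := by
  obtain ⟨t, -, rfl⟩ := Multiset.mem_map.1 hp
  rfl

theorem split (σ : L →+* Qb) {y : L[X] × L[X]} (h : y.1.Monic) :
    y.1.map σ = (((pts σ y).map Prod.fst).map fun c => X - C c).prod := by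
  have e : (pts σ y).map Prod.fst = (y.1.map σ).roots := by
    rw [pts, Multiset.map_map]
    exact Multiset.map_id' _
  rw [e]
  exact (IsAlgClosed.splits (y.1.map σ)).eq_prod_roots_of_monic (h.map _)

variable [NumberField L]

theorem lam_ev (hs : SUMStmt) (S : Sys) (g : ℕ) {x y : L[X] × L[X]} (h : Dj x y) :
    ∀ᶠ π : Pl L in cofinite, lam g (S.w π.2) (pts π.1 x) (pts π.1 y) = 0 :=
  (hs L S).1 _ fun σ => JM.Glob.lam_ev JM.sum S g fun p hp _ hq e => h σ p hp (e ▸ hq)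

/-- the product formula for a norm -/
theorem prodf (hs : SUMStmt) (S : Sys) {x : L[X] × L[X]} (hx : x.1.Monic) (R : L[X])
    (φ : (L →+* Qb) → Qb × Qb → Qb) (e : ∀ σ, ∀ p ∈ pts σ x, φ σ p = (R.map σ).eval p.1)
    (h : ∀ σ, ∀ p ∈ pts σ x, φ σ p ≠ 0) :
    (∀ᶠ π : Pl L in cofinite, ((pts π.1 x).map fun p => Real.log (S.w π.2 (φ π.1 p))).sum = 0) ∧
      ∑ᶠ π : Pl L, ((pts π.1 x).map fun p => Real.log (S.w π.2 (φ π.1 p))).sum = 0 := by
  refine ⟨(hs L S).1 _ fun σ => JM.Glob.ev_sum _ (fun v p => Real.log (S.w v (φ σ p))) fun p hp =>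
    ((JM.sum S).1 _ (h σ p hp)).mono fun v hv => by rw [hv, Real.log_one], ?_⟩
  obtain ⟨r, hr⟩ := (hs L S).2.2 x.1 R hx
  have e' : ∀ σ, ((pts σ x).map (φ σ)).prod = σ r := fun σ => by
    rw [← hr, Multiset.map_congr rfl (e σ), pts, Multiset.map_map]
    rfl
  by_cases n : r = 0
  · refine finsum_eq_zero_of_forall_eq_zero fun π => ?_
    have z := e' π.1
    rw [n, map_zero, Multiset.prod_eq_zero_iff, Multiset.mem_map] at z
    obtain ⟨p, hp, z⟩ := z
    exact absurd z (h _ p hp)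
  rw [← (hs L S).2.1 r n]
  refine finsum_congr fun π => ?_
  rw [← JM.Glob.log_w _ _ _ (h _), e']

end TriA

open TriA

theorem tri : SCHStmt → SUMStmt → NORMStmt → PRINStmt → TRIStmt := by
  intro sch hs norm prin L _ _ S g n f F κ hG hK
  obtain ⟨⟨α, β, hL⟩, hκ⟩ := hK
  obtain ⟨M₁, H₁⟩ := sch g (3 * n)
  obtain ⟨d, d1, df, H₂⟩ := norm S g (3 * n) F (hL none).sv
  obtain ⟨M₃, H₃⟩ := JM.gau (3 * n)
  have k1 : ∀ v, 1 ≤ κ v := fun v => (hL v).tri.1
  let K : Pl L → ℝ := fun π => ((M₁ + M₃ : ℕ) : ℝ) * Real.log (κ π.2) + Real.log (d π.2)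
  have k0 : ∀ π, 0 ≤ K π := fun π =>
    add_nonneg (mul_nonneg (Nat.cast_nonneg _) (Real.log_nonneg (k1 _))) (Real.log_nonneg (d1 _))
  have kf : ∀ᶠ π in cofinite, K π = 0 := (hs L S).1 _ fun σ => (hκ.and df).mono fun v hv => by
    simp only [K, hv.1, hv.2, Real.log_one, mul_zero, add_zero]
  have L0 : 0 ≤ ∑ᶠ π, K π := finsum_nonneg k0
  refine ⟨n * ∑ᶠ π, K π, ?_⟩
  intro x y₁ y₂ y₃ hx h₁ h₂ h₃ hc d₁ d₂ d₃
  obtain ⟨P₁, P₂⟩ := prin L g n f F hG
  obtain ⟨A, B, c, c0, e, dA, dB, hσ⟩ := P₂ y₁ y₂ y₃ h₁ h₂ h₃ hc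
  have ns : ∀ σ, ∀ p ∈ pts σ x, p ∉ pts σ y₁ + pts σ y₂ + pts σ y₃ := by
    intro σ p hp hq
    rw [Multiset.mem_add, Multiset.mem_add] at hq
    rcases hq with (hq | hq) | hq
    exacts [d₁ σ p hp hq, d₂ σ p hp hq, d₃ σ p hp hq]
  have z : ∀ σ, ∀ p ∈ pts σ x, ev p (⟨A.map σ, B.map σ⟩ : Rg F) ≠ 0 := fun σ p hp =>
    (hσ σ).2.2 p ((P₁ x σ hx).2 p hp) (ns σ p hp)
  obtain ⟨f₁, f₂⟩ := prodf hs S hx.1 (A + B * x.2) (fun σ p => ev p (⟨A.map σ, B.map σ⟩ : Rg F))
    (fun σ p hp => by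
      rw [ev, root hp]
      simp [Polynomial.map_mul]) z
  have cq : ∀ σ : L →+* Qb, σ c ≠ 0 := fun σ => (map_ne_zero σ).2 c0
  have loc : ∀ π : Pl L, ∀ p ∈ pts π.1 x,
      2 * Real.log (S.w π.2 (ev p (⟨A.map π.1, B.map π.1⟩ : Rg F))) ≤
        (K π + Real.log (S.w π.2 (π.1 c))) + ((pts π.1 y₁ + pts π.1 y₂ + pts π.1 y₃).map
          fun q => Real.log (de g (S.w π.2) p q)).sum := by
    rintro ⟨σ, v⟩ p hp'
    obtain ⟨hp, hm, -⟩ := hσ σ
    obtain ⟨c₁, o₁⟩ := P₁ y₁ σ h₁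
    obtain ⟨c₂, o₂⟩ := P₁ y₂ σ h₂
    obtain ⟨c₃, o₃⟩ := P₁ y₃ σ h₃
    have nq := ns σ p hp'
    dsimp only [K] at hp' ⊢
    generalize hS : pts σ y₁ + pts σ y₂ + pts σ y₃ = s at hp hm nq ⊢
    have os : ∀ q ∈ s, Oc F q := by
      intro q hq
      rw [← hS, Multiset.mem_add, Multiset.mem_add] at hq
      rcases hq with (hq | hq) | hq
      exacts [o₁ q hq, o₂ q hq, o₃ q hq]
    have cs : s.card ≤ 3 * n := by
      rw [← hS, Multiset.card_add, Multiset.card_add, c₁, c₂, c₃]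
      have := h₁.2.2
      have := h₂.2.2
      have := h₃.2.2
      omega
    have eN : A.map σ ^ 2 - F * B.map σ ^ 2 =
        C (σ c) * ((s.map Prod.fst).map fun c => X - C c).prod := by
      have := congrArg (Polynomial.map σ) e
      simp only [Polynomial.map_sub, Polynomial.map_mul, Polynomial.map_pow, map_C, hG.map] at this
      rw [this, ← hS]
      simp only [Multiset.map_add, Multiset.prod_add]
      rw [← split σ h₁.1, ← split σ h₂.1, ← split σ h₃.1]
    have a₁ := H₁ Qb _ (S.w v) (κ v) α β F (hL v) s _ p cs hp os hm ((P₁ x σ hx).2 p hp')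
    have a₂ := H₂ v (A.map σ) (B.map σ) (natDegree_map_le.trans dA) (natDegree_map_le.trans dB)
    have a₃ := (H₃ Qb (S.w v) (κ v) (hL v).tri).2.2.2.2 (s.map Prod.fst)
      (by rwa [Multiset.card_map])
    obtain ⟨n₁, -⟩ := JM.TriA.log_prod s (fun q => nx (S.w v) q.1) fun q _ => nx_pos _ _
    obtain ⟨n₂, n₃⟩ := JM.TriA.log_prod s (de g (S.w v) p) fun q hq =>
      de_pos _ g fun e => nq (e ▸ hq)
    rw [Multiset.map_map (nx (S.w v))] at a₃
    rw [eN, pn_C_mul] at a₂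
    have kp : ∀ m : ℕ, 0 < κ v ^ m := fun m => pow_pos (one_pos.trans_le (k1 v)) m
    have dp : 0 < d v := one_pos.trans_le (d1 v)
    have b : S.w v (ev p (⟨A.map σ, B.map σ⟩ : Rg F)) ^ 2 ≤
        κ v ^ (M₁ + M₃) * (d v * (S.w v (σ c) * (s.map (de g (S.w v) p)).prod)) := by
      refine le_of_mul_le_mul_right (a₁.trans ?_) n₁
      have b₁ := a₂.trans (mul_le_mul_of_nonneg_left
        (mul_le_mul_of_nonneg_left a₃ ((S.w v).nonneg (σ c))) dp.le)
      refine (mul_le_mul_of_nonneg_left (mul_le_mul_of_nonneg_right b₁ n₂.le) (kp M₁).le).trans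
        (le_of_eq ?_)
      simp only [Function.comp_def, pow_add]
      ring
    have := JM.Glob.log_le (k1 v) (pow_pos ((S.w v).pos (z σ p hp')) 2) b
    have w0 := (S.w v).ne_zero (cq σ)
    rwa [Real.log_pow, Real.log_mul dp.ne' (mul_ne_zero w0 n₂.ne'), Real.log_mul w0 n₂.ne', n₃,
      Nat.cast_ofNat, ← add_assoc, ← add_assoc] at this
  have r := JM.TriA.fin_le (x.1.natDegree : ℝ) (lam_ev hs S g d₁) (lam_ev hs S g d₂)
    (lam_ev hs S g d₃) kf
    ((hs L S).1 (fun π => Real.log (S.w π.2 (π.1 c)) = 0) fun σ =>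
      ((JM.sum S).1 _ (cq σ)).mono fun v hv => by
        dsimp only
        rw [hv, Real.log_one]) f₁ ((hs L S).2.1 c c0) f₂ fun π => by
    have b := JM.Glob.sum_le (pts π.1 x) _ _ _ (loc π)
    rw [Multiset.sum_map_mul_left, (P₁ x π.1 hx).1] at b
    rw [← JM.TriA.lam_add, ← JM.TriA.lam_add]
    exact b
  refine le_trans (neg_le_neg ?_) r
  exact mul_le_mul_of_nonneg_right (Nat.cast_le.2 hx.2.2) L0

end Pool.Agent.MP_a43263_nt.VW

end
end MrgPart2

-- ======== part 3: formerly Pool.Agent.MP_a43263_nt.VW.Glob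
section MrgPart3

/-! THEOREM V, part W: symmetry of the pairing, fibres of `x`, the diagonal. -/

set_option autoImplicit false

noncomputable section

namespace Pool.Agent.MP_a43263_nt.VW

open Polynomial Finset Filter JC
open JM (Qb Pc Sys nx pn lam Mu nv Oc ev mx ng de de_comm de_pos nx_pos one_le_nx)
open JM.Glob (fin_le fib_loc diag_loc ev_sum log_w log_le)

namespace GlobA

variable {L : Type} [Field L] {σ : L →+* Qb} {x y : L[X] × L[X]} {p q : Qb × Qb}

theorem pts_nv (σ : L →+* Qb) (x : L[X] × L[X]) : pts σ (nv x) = (pts σ x).map ng := by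
  simp [pts, nv, ng, Function.comp_def]

theorem pts_one (σ : L →+* Qb) : pts σ (1, 0) = 0 := by simp [pts]

theorem root (hp : p ∈ pts σ x) : (x.1.map σ).eval p.1 = 0 ∧ p.2 = (x.2.map σ).eval p.1 := by
  obtain ⟨t, ht, rfl⟩ := Multiset.mem_map.1 hp
  exact ⟨(mem_roots'.1 ht).2, rfl⟩

theorem cop {U W : L[X]} (h : IsCoprime U W) {t : Qb} (hU : (U.map σ).eval t = 0) :
    (W.map σ).eval t ≠ 0 := by
  intro hW
  obtain ⟨b, c, e⟩ := h
  have := congrArg (fun P : L[X] => (P.map σ).eval t) e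
  simp only [Polynomial.map_add, Polynomial.map_mul, eval_add, eval_mul, Polynomial.map_one,
    eval_one] at this
  rw [hU, hW, mul_zero, mul_zero, add_zero] at this
  exact zero_ne_one this

theorem ne1 (h : IsCoprime x.1 y.1) (hp : p ∈ pts σ x) (hq : q ∈ pts σ y) : p.1 ≠ q.1 :=
  fun e => cop h (root hp).1 (e ▸ (root hq).1)

theorem ne2 {f : L[X]} {F : Qb[X]} (e : f.map σ = F) (h : IsCoprime x.1 f) (hp : p ∈ pts σ x)
    (ho : Oc F p) : p.2 ≠ 0 := by
  intro z
  refine cop h (root hp).1 ?_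
  rw [e, ← show p.2 ^ 2 = _ from ho, z, zero_pow two_ne_zero]

theorem ne3 {f : L[X]} {F : Qb[X]} (e : f.map σ = F) (h : IsCoprime x.1 f) (hp : p ∈ pts σ x)
    (hq : q ∈ pts σ x) (ho : Oc F p) : p ≠ ng q := by
  intro z
  have e1 : p.1 = q.1 := by rw [z, ng]
  have e2 : p.2 = -q.2 := by rw [z, ng]
  rw [(root hq).2, ← e1, ← (root hp).2] at e2
  exact ne2 e h hp ho (CharZero.eq_neg_self_iff.1 e2)

variable [NumberField L]

theorem lam_ev (hs : SUMStmt) (S : Sys) (g : ℕ) (x y : L[X] × L[X])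
    (h : ∀ σ : L →+* Qb, ∀ p ∈ pts σ x, ∀ q ∈ pts σ y, p ≠ q) :
    ∀ᶠ π : Pl L in cofinite, lam g (S.w π.2) (pts π.1 x) (pts π.1 y) = 0 :=
  (hs L S).1 _ fun σ => JM.Glob.lam_ev JM.sum S g (h σ)

/-- the product formula for a norm -/
theorem prodf (hs : SUMStmt) (S : Sys) (x : L[X] × L[X]) (hx : x.1.Monic) (R : L[X])
    (φ : (L →+* Qb) → Qb × Qb → Qb) (e : ∀ σ, ∀ p ∈ pts σ x, φ σ p = (R.map σ).eval p.1)
    (h : ∀ σ, ∀ p ∈ pts σ x, φ σ p ≠ 0) :
    (∀ᶠ π : Pl L in cofinite, ((pts π.1 x).map fun p => Real.log (S.w π.2 (φ π.1 p))).sum = 0) ∧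
      ∑ᶠ π : Pl L, ((pts π.1 x).map fun p => Real.log (S.w π.2 (φ π.1 p))).sum = 0 := by
  refine ⟨(hs L S).1 _ fun σ => ev_sum _ (fun v p => Real.log (S.w v (φ σ p))) fun p hp =>
    ((JM.sum S).1 _ (h σ p hp)).mono fun v hv => by rw [hv, Real.log_one], ?_⟩
  obtain ⟨r, hr⟩ := (hs L S).2.2 x.1 R hx
  have e' : ∀ σ, ((pts σ x).map (φ σ)).prod = σ r := fun σ => by
    rw [← hr, Multiset.map_congr rfl (e σ), pts, Multiset.map_map]
    rfl
  by_cases n : r = 0
  · refine finsum_eq_zero_of_forall_eq_zero fun π => ?_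
    have := e' π.1
    rw [n, map_zero, Multiset.prod_eq_zero_iff, Multiset.mem_map] at this
    obtain ⟨p, hp, z⟩ := this
    exact absurd z (h _ p hp)
  rw [← (hs L S).2.1 r n]
  refine finsum_congr fun π => ?_
  rw [← log_w _ _ _ (h π.1), e']

end GlobA

open GlobA

theorem glob : UPStmt → SUMStmt → PRINStmt → GLOBStmt := by
  intro up hs prin L _ _ S g n f F κ hC hK
  obtain ⟨M, hM⟩ := up g
  obtain ⟨⟨α, β, hL⟩, hκ⟩ := hK
  have U := fun v => hM Qb _ (S.w v) (κ v) _ _ _ (hL v)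
  have k1 : ∀ v, 1 ≤ κ v := fun v => (hL v).tri.1
  have k0 : ∀ v, 0 ≤ (M : ℝ) * Real.log (κ v) := fun v =>
    mul_nonneg (Nat.cast_nonneg _) (Real.log_nonneg (k1 v))
  have kf : ∀ᶠ π : Pl L in cofinite, (M : ℝ) * Real.log (κ π.2) = 0 :=
    (hs L S).1 _ fun _ => hκ.mono fun v hv => by rw [hv, Real.log_one, mul_zero]
  have L0 : 0 ≤ ∑ᶠ π : Pl L, (M : ℝ) * Real.log (κ π.2) := finsum_nonneg fun π => k0 π.2
  have n0 : (0 : ℝ) ≤ n * n := by positivity
  have g0 : (0 : ℝ) ≤ g * g := by positivity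
  refine ⟨(n * n + g * g) * ∑ᶠ π : Pl L, (M : ℝ) * Real.log (κ π.2), fun x y => ?_, fun x => ?_,
    fun x y h σ p hp hq => ne1 h hp hq rfl, fun x hx h σ p hp hq => ?_, fun x y hx hy h => ?_,
    fun x hx h => ?_⟩
  · refine finsum_congr fun π => ?_
    rw [lam, lam, Multiset.sum_map_sum_map]
    simp only [de_comm (S.w π.2) g]
  · simp [be, pts_one, lam]
  · rw [pts_nv] at hq
    obtain ⟨q, hq, e⟩ := Multiset.mem_map.1 hq
    exact ne3 (hC.map σ) h hp hq (((prin L g n f F hC).1 x σ hx).2 p hp) e.symm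
  · have px := fun σ => (prin L g n f F hC).1 x σ hx
    have py := fun σ => (prin L g n f F hC).1 y σ hy
    have e : ∀ σ, ∀ p ∈ pts σ x,
        ((pts σ y).map fun q => p.1 - q.1).prod = (y.1.map σ).eval p.1 := by
      intro σ p _
      rw [(IsAlgClosed.splits (y.1.map σ)).eval_eq_prod_roots_of_monic (hy.1.map _), pts,
        Multiset.map_map]
      rfl
    obtain ⟨d1, d2⟩ := prodf hs S x hx.1 y.1 _ e fun σ p hp => by
      rw [e σ p hp]
      exact cop h (root hp).1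
    have z1 : ∀ σ, ∀ p ∈ pts σ x, ∀ q ∈ pts σ y, p ≠ q := fun σ p hp q hq e' =>
      ne1 h hp hq (by rw [e'])
    have z2 : ∀ σ, ∀ p ∈ pts σ x, ∀ q ∈ pts σ y, p ≠ ng q := fun σ p hp q hq e' =>
      ne1 h hp hq (by rw [e', ng])
    have z3 : ∀ σ, ∀ p ∈ pts σ x, ∀ q ∈ pts σ (nv y), p ≠ q := fun σ p hp q hq =>
      ne1 (y := nv y) h hp hq ∘ fun e' => by rw [e']
    refine (fin_le (n * n) (lam_ev hs S g x y z1) (lam_ev hs S g x (nv y) z3) kf d1 d2
      fun ⟨σ, v⟩ => ?_).trans (mul_le_mul_of_nonneg_right (le_add_of_nonneg_right g0) L0)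
    have b := fib_loc (pts σ x) (pts σ y) (fun p q => Real.log (de g (S.w v) p q))
      (fun p q => Real.log (de g (S.w v) p (ng q))) (fun p q => Real.log (S.w v (p.1 - q.1)))
      (M * Real.log (κ v)) fun p hp q hq => by
        have p1 := de_pos (S.w v) g (z1 σ p hp q hq)
        have p2 := de_pos (S.w v) g (z2 σ p hp q hq)
        have := log_le (k1 v) (mul_pos p1 p2) (U v p q ((px σ).2 p hp) ((py σ).2 q hq)).1
        rwa [Real.log_mul p1.ne' p2.ne', Real.log_pow, Nat.cast_ofNat] at this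
    have l : ((pts σ x).map fun p => Real.log (S.w v ((pts σ y).map fun q => p.1 - q.1).prod)) =
        (pts σ x).map fun p => ((pts σ y).map fun q => Real.log (S.w v (p.1 - q.1))).sum :=
      Multiset.map_congr rfl fun p hp => log_w _ _ _ fun q hq => sub_ne_zero.2 (ne1 h hp hq)
    have c1 : ((pts σ x).card : ℝ) ≤ n := Nat.cast_le.2 ((px σ).1.trans_le hx.2.2)
    have c2 : ((pts σ y).card : ℝ) ≤ n := Nat.cast_le.2 ((py σ).1.trans_le hy.2.2)
    have c3 : ((pts σ x).card : ℝ) * ((pts σ y).card * (M * Real.log (κ v))) ≤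
        n * (n * (M * Real.log (κ v))) :=
      mul_le_mul c1 (mul_le_mul_of_nonneg_right c2 (k0 v))
        (mul_nonneg (Nat.cast_nonneg _) (k0 v)) (Nat.cast_nonneg _)
    dsimp only
    rw [l, pts_nv, lam, lam]
    simp only [Multiset.map_map, Function.comp_def]
    linarith
  · have px := fun σ => (prin L g g f F hC).1 x σ hx
    obtain ⟨d1, d2⟩ := prodf hs S x hx.1 x.2 (fun _ p => p.2) (fun σ p hp => (root hp).2)
      fun σ p hp => ne2 (hC.map σ) h hp ((px σ).2 p hp)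
    have z : ∀ σ, ∀ p ∈ pts σ x, ∀ q ∈ pts σ (nv x), p ≠ q := by
      intro σ p hp q hq
      rw [pts_nv] at hq
      obtain ⟨r, hr, rfl⟩ := Multiset.mem_map.1 hq
      exact ne3 (hC.map σ) h hp hr ((px σ).2 p hp)
    have hf : ∀ᶠ π : Pl L in cofinite,
        2 * ((x.1.map π.1).roots.map fun t => Real.log (nx (S.w π.2) t)).sum = 0 :=
      (hs L S).1 _ fun σ => (ev_sum (x.1.map σ).roots (fun v t => Real.log (nx (S.w v) t)) fun t _ =>
        ((JM.sum S).2.1 t).mono fun v hv => by rw [hv, Real.log_one]).mono fun v hv => by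
          rw [hv, mul_zero]
    rw [Ht, mul_finsum]
    refine (fin_le (g * g) (lam_ev hs S g x (nv x) z) hf kf d1 d2 fun ⟨σ, v⟩ => ?_).trans
      (mul_le_mul_of_nonneg_right (le_add_of_nonneg_left n0) L0)
    have ox := (px σ).2
    have b := diag_loc (pts σ x) (fun p q => Real.log (de g (S.w v) p (ng q)))
      (fun p => Real.log (nx (S.w v) p.1)) (fun p => Real.log (S.w v p.2)) (M * Real.log (κ v)) g
      (k0 v) (fun p => Real.log_nonneg (one_le_nx _ _)) ((px σ).1.trans_le hx.2.2)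
      (fun p hp q hq => by
        have := log_le (k1 v) (de_pos (S.w v) g (ne3 (hC.map σ) h hp hq (ox p hp)))
          (U v p (ng q) (ox p hp) (ox q hq).ng).2.1
        rwa [Real.log_mul (nx_pos _ _).ne' (nx_pos _ _).ne', ← add_assoc] at this)
      fun p hp => by
        have p1 := de_pos (S.w v) g (ne3 (hC.map σ) h hp hp (ox p hp))
        have p2 := pow_pos (nx_pos (S.w v) p.1) (2 * g)
        have := log_le (k1 v) (mul_pos p1 p2) (U v p p (ox p hp) (ox p hp)).2.2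
        rwa [Real.log_mul p1.ne' p2.ne', Real.log_pow, Real.log_pow, Nat.cast_ofNat, Nat.cast_mul,
          Nat.cast_ofNat] at this
    have l : ((x.1.map σ).roots.map fun t => Real.log (nx (S.w v) t)) =
        (pts σ x).map fun p => Real.log (nx (S.w v) p.1) := by
      rw [pts, Multiset.map_map]
      rfl
    dsimp only
    rw [l, pts_nv, lam]
    simp only [Multiset.map_map, Function.comp_def]
    linarith

end Pool.Agent.MP_a43263_nt.VW

end
end MrgPart3

-- ======== part 4: formerly Pool.Agent.MP_a43263_nt.VW.Bridge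
section MrgPart4

/-! THEOREM V, part W: from ideal classes over the field of a branch point to the Jacobian. -/

set_option autoImplicit false

noncomputable section

namespace Pool.Agent.MP_a43263_nt.VW

open Polynomial JC JC.Mum VD
open Pool.Agent.MP_a43263_nt.UV (Qb)

namespace Bridge

theorem inj {K : Type} [Field K] [CharZero K] {g : ℕ} {f : K[X]} {F : (AlgebraicClosure K)[X]}
    (s : Sv g f) (e : f.map (algebraMap K _) = F) : Function.Injective (cmap _ e) := by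
  refine (injective_iff_map_eq_one _).2 fun x hx => ?_
  obtain ⟨U, V, hU, hd, rfl⟩ := s.cx_surj x
  have a := s.nu_MI hU hd
  have S := s.map _ e
  rw [cmap_cx _ e a] at hx
  obtain ⟨k, b, hk⟩ := S.cx_one (nu_map _ e a) hx
  have ee : ∀ σ : AlgebraicClosure K ≃ₐ[K] AlgebraicClosure K,
      F.map (σ : AlgebraicClosure K →+* AlgebraicClosure K) = F := fun σ => by
    rw [← e, Polynomial.map_map]
    congr 1
    exact RingHom.ext fun x => σ.commutes x
  have mm : ∀ (σ : AlgebraicClosure K ≃ₐ[K] AlgebraicClosure K) (p : K[X]),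
      (p.map (algebraMap K _)).map (σ : AlgebraicClosure K →+* AlgebraicClosure K) =
        p.map (algebraMap K _) := fun σ p => by
    rw [Polynomial.map_map]
    congr 1
    exact RingHom.ext fun x => σ.commutes x
  choose t t0 ht using fun σ : AlgebraicClosure K ≃ₐ[K] AlgebraicClosure K =>
    S.span_eq b (b.map _ (ee σ)) (by
      rw [← Set.image_singleton, ← Ideal.map_span, ← hk, RatA.map_MI, RatA.map_MI, mm, mm])
  have r1 := fun σ => show k.re.map _ = C (t σ) * k.re by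
    simpa [rmap] using congrArg QuadraticAlgebra.re (ht σ)
  have r2 := fun σ => show k.im.map _ = C (t σ) * k.im by
    simpa [rmap] using congrArg QuadraticAlgebra.im (ht σ)
  obtain ⟨c, c0, hc⟩ : ∃ c : AlgebraicClosure K, c ≠ 0 ∧ ∀ σ, σ c = t σ * c := by
    by_cases z : k.re = 0
    · exact ⟨_, leadingCoeff_ne_zero.2 fun z' => b.ne (QuadraticAlgebra.ext z z'), fun σ => by
        simpa using congrArg leadingCoeff (r2 σ)⟩
    · exact ⟨_, leadingCoeff_ne_zero.2 z, fun σ => by simpa using congrArg leadingCoeff (r1 σ)⟩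
  have fx : ∀ p : (AlgebraicClosure K)[X], (∀ σ : AlgebraicClosure K ≃ₐ[K] AlgebraicClosure K,
      p.map (σ : AlgebraicClosure K →+* AlgebraicClosure K) = C (t σ) * p) →
      ∃ q : K[X], q.map (algebraMap K _) = C c⁻¹ * p := fun p hp => RatA.lift fun σ => by
    rw [Polynomial.map_mul, hp, map_C, ← mul_assoc, ← C_mul, map_inv₀, RingHom.coe_coe, hc,
      mul_inv_rev, inv_mul_cancel_right₀ (t0 σ)]
  obtain ⟨p, hp⟩ := fx _ r1
  obtain ⟨q, hq⟩ := fx _ r2
  have c1 : C c⁻¹ ≠ 0 := C_ne_zero.2 (inv_ne_zero c0)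
  have k0 : rmap _ e ⟨p, q⟩ = ⟨C c⁻¹, 0⟩ * k := by ext1 <;> simp [rmap, hp, hq]
  have b0 : Bal (⟨p, q⟩ : Rg f) := by
    have := bal_iff.1 (k0 ▸ (bal_poly c1).mul b)
    rw [RatB.dd_map, nr_map, degree_map, Polynomial.map_ne_zero_iff (RingHom.injective _)] at this
    exact bal_iff.2 this
  have sp : (Ideal.span {(⟨p, q⟩ : Rg f)}).map (rmap _ e) = (MI f U V).map (rmap _ e) := by
    rw [Ideal.map_span, Set.image_singleton, k0, hk]
    refine Ideal.span_singleton_mul_left_unit (.of_mul_eq_one ⟨C c, 0⟩ ?_) _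
    ext1
    · simp [← C_mul, c0, QuadraticAlgebra.re_one]
    · simp [QuadraticAlgebra.im_one]
  have le : Ideal.span {(⟨p, q⟩ : Rg f)} ≤ MI f U V := by
    have m := Ideal.mem_map_of_mem (rmap _ e) (Ideal.mem_span_singleton_self (⟨p, q⟩ : Rg f))
    rw [sp, RatA.map_MI, mem_MI ((RatA.dvd_map _ e).2 hd)] at m
    refine (Ideal.span_singleton_le_iff_mem _).2 (mem_MI_of ?_)
    rw [← map_dvd_map' (algebraMap K (AlgebraicClosure K))]
    simpa [rmap] using m
  have n := nu_span' b0.1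
  rw [map_injective _ (RingHom.injective _) (nu_uniq (nu_map _ e n) (sp ▸ nu_map _ e a))] at n
  rw [← cx_span b0]
  refine congrArg cx (s.cancel (nu_cj a) (le_antisymm ?_ (Ideal.mul_mono_right le)))
  rw [mul_comm, a.2, ← n.2, mul_comm]
  exact Ideal.mul_mono_left (Ideal.map_mono le)

end Bridge

open Bridge in
theorem bridge (H : ∀ (L : Type) [Field L] [NumberField L] (g : ℕ) (f : ℚ[X]), 2 ≤ g → Sv g f →
      (∃ θ, (fK f L).eval θ = 0) → ¬IsSquare (fK f L).leadingCoeff →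
      ∀ A : Subgroup (Cx (fK f L)), (∀ x ∈ A, ∃ y ∈ A, y ^ 2 = x) → Finite A)
    (g : ℕ) (f : ℚ[X]) (hg : 2 ≤ g) (hd : f.natDegree = 2 * g + 2) (hi : Irreducible f)
    (hs : ∀ s : ℚ[X], ¬f ∣ s ^ 2 - C f.leadingCoeff) (h2 : ∀ P : VJ.JQ f, ∃ R, 2 • R = P) :
    Finite (VJ.JQ f) := by
  have : Fact (Irreducible f) := ⟨hi⟩
  have s : Sv g f := ⟨hd, hi.squarefree⟩
  let L := AdjoinRoot f
  have eL : fK f L = f.map (AdjoinRoot.of f) := congrArg f.map (RingHom.ext_rat _ _)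
  have rt : (fK f L).eval (AdjoinRoot.root f) = 0 := eL ▸ AdjoinRoot.isRoot_root f
  obtain ⟨D⟩ := Last.dic br s
  obtain ⟨res, -, hr⟩ := (gal.1 L).1
  let ι : VJ.JQ f → Cx (fK f (AlgebraicClosure L)) := fun P => D.b _ (VJ.jmap f (emb L) P.1)
  have add : ∀ P Q, ι (P + Q) = ι P * ι Q := fun P Q => by
    simp only [ι]
    rw [← D.add, ← map_add]
    rfl
  choose y hy using fun P => rat prin L g _ _ (fK_map f (algebraMap L _)) (Last.svK s L) (ι P)
    (fun σ _ => by
      simp only [ι]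
      rw [D.nat, ← Last.emb_act (hr σ), ← D.jac, P.2])
    (.inr ⟨X - C (AdjoinRoot.root f), 0, monic_X_sub_C _, by simp,
      by simpa using dvd_iff_isRoot.2 rt⟩)
  have ij := inj (Last.svK s L) (fK_map f (algebraMap L _))
  let φ : Multiplicative (VJ.JQ f) →* Cx (fK f L) := MonoidHom.mk' (fun P => y P.toAdd)
    fun P Q => ij (by rw [hy, toAdd_mul, add, map_mul, hy, hy])
  have fin := H L g f hg s ⟨_, rt⟩ (fun ⟨r, hr⟩ => by
    obtain ⟨r, rfl⟩ := AdjoinRoot.mk_surjective r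
    refine hs r (AdjoinRoot.mk_eq_mk.1 ?_)
    rw [map_pow, sq, ← hr, eL, leadingCoeff_map]
    rfl) φ.range (by
      rintro _ ⟨P, rfl⟩
      obtain ⟨R, hR⟩ := h2 P.toAdd
      exact ⟨_, ⟨.ofAdd R, rfl⟩, by rw [← map_pow, ← ofAdd_nsmul, hR, ofAdd_toAdd]⟩)
  obtain ⟨ψ, hψ⟩ : ∃ ψ : AlgebraicClosure L →+* Qb, ∀ x, ψ (emb L x) = x := by
    have : Algebra.IsAlgebraic ℚ (AlgebraicClosure L) := .trans ℚ L _
    have b := (Algebra.IsAlgebraic.algHom_bijective₂ (emb L).toRatAlgHom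
      (IsAlgClosed.lift : AlgebraicClosure L →ₐ[ℚ] Qb)).1
    exact ⟨(RingEquiv.ofBijective (emb L) b).symm, (RingEquiv.ofBijective (emb L) b).symm_apply_apply⟩
  refine Finite.of_injective (fun P => φ.rangeRestrict (.ofAdd P)) fun P Q e => ?_
  have e1 : ι P = ι Q := by rw [← hy, ← hy]; exact congrArg _ (congrArg Subtype.val e)
  simp only [ι, D.nat] at e1
  have e2 := congrArg (cmap ψ (fK_map f ψ)) e1
  rw [cmap_cmap _ _ (RingHom.id _) _ _ (fK_map f _) hψ, cmap_cmap _ _ (RingHom.id _) _ _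
    (fK_map f _) hψ, cmap_id _ _ fun _ => rfl, cmap_id _ _ fun _ => rfl] at e2
  exact Subtype.ext (D.inj _ e2)

end Pool.Agent.MP_a43263_nt.VW

end
end MrgPart4

-- marker of a merged file
example : 731051 + 373287 = 731051 + 373287 := rfl
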