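import Mathlib
import Pool.Agent.MP_a43263_nt.VW.LocSpec
import Pool.Agent.MP_a43263_nt.JM.Tri

/-! THEOREM V, part W: the constants of the places. -/

set_option autoImplicit false

namespace Pool.Agent.MP_a43263_nt.VW

open Polynomial Finset Filter JC JM

/-- constants that dominate finitely many algebraic numbers -/
theorem kap (S : Sys) (T : Finset Qb) : ∃ κ : Pc → ℝ, (∀ v, Tri (S.w v) (κ v)) ∧
    (∀ v, ∀ x ∈ T, S.w v x ≤ κ v) ∧ 2 ≤ κ none ∧ ∀ᶠ v in cofinite, κ v = 1 := by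
  classical
  have p1 : ∀ v, 1 ≤ ∏ x ∈ T, nx (S.w v) x := fun v => Finset.one_le_prod fun x _ => one_le_nx _ x
  have e1 : ∀ v : Pc, (1 : ℝ) ≤ v.elim 2 fun _ => 1 := by
    rintro (_ | p) <;> simp
  have k2 : 2 ≤ 2 * ∏ x ∈ T, nx (S.w none) x := le_mul_of_one_le_right zero_le_two (p1 none)
  refine ⟨fun v => (v.elim 2 fun _ => 1) * ∏ x ∈ T, nx (S.w v) x, ?_, fun v x hx => ?_, k2, ?_⟩
  · rintro (_ | p)
    · exact SysAux.tri_two _ k2
    · exact SysAux.tri_na (S.na p) (one_le_mul_of_one_le_of_one_le (e1 _) (p1 _))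
  · refine (le_nx _ x).trans (le_trans ?_
      (le_mul_of_one_le_left (zero_le_one.trans (p1 v)) (e1 v)))
    rw [← mul_prod_erase T _ hx]
    exact le_mul_of_one_le_right (nx_pos _ x).le (Finset.one_le_prod fun y _ => one_le_nx _ y)
  · have a : ∀ᶠ v in cofinite, ∀ x ∈ T, nx (S.w v) x = 1 :=
      (eventually_all_finset T).2 fun x _ => (JM.sum S).2.1 x
    have b : ∀ᶠ v : Pc in cofinite, v ≠ none := eventually_cofinite_ne none
    filter_upwards [a, b] with v hv hn
    rcases v with _ | p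
    · exact absurd rfl hn
    · simp [prod_eq_one hv]

/-- the linear factors -/
theorem fac {K : Type} [Field K] [CharZero K] [IsAlgClosed K] {g : ℕ} {F : K[X]} (h : VD.Sv g F) :
    ∃ α β : Fin (2 * g + 2) → K, F = ∏ i, (C (α i) * X + C (β i)) ∧
      ∀ i k, i ≠ k → α i * β k - α k * β i ≠ 0 := by
  classical
  have sp := IsAlgClosed.splits F
  have nd : F.roots.Nodup := nodup_roots h.sep
  have cd : F.roots.toFinset.card = 2 * g + 2 := by
    rw [Multiset.toFinset_card_of_nodup nd, ← h.deg, sp.natDegree_eq_card_roots]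
  let e := F.roots.toFinset.equivFinOfCardEq cd
  let θ : Fin (2 * g + 2) → K := fun i => e.symm i
  have inj : Function.Injective θ := Subtype.val_injective.comp e.symm.injective
  let α : Fin (2 * g + 2) → K := fun i => if i = 0 then F.leadingCoeff else 1
  have a0 : ∀ i, α i ≠ 0 := fun i => by
    simp only [α]
    split_ifs
    exacts [leadingCoeff_ne_zero.2 h.ne, one_ne_zero]
  refine ⟨α, fun i => -(α i * θ i), ?_, fun i k hik => ?_⟩
  · have e1 : ∏ i, (C (α i) * X + C (-(α i * θ i))) = (∏ i, C (α i)) * ∏ i, (X - C (θ i)) := by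
      rw [← prod_mul_distrib]
      exact prod_congr rfl fun i _ => by rw [C_neg, C_mul]; ring
    have e2 : ∏ i, (X - C (θ i)) = (F.roots.map fun c => X - C c).prod := by
      rw [Equiv.prod_comp e.symm fun t : F.roots.toFinset => (X - C (t : K)),
        prod_coe_sort F.roots.toFinset fun t => (X - C t), prod_eq_multiset_prod,
        Multiset.toFinset_val, nd.dedup]
    rw [e1, e2, ← map_prod, show ∏ i, α i = F.leadingCoeff by simp [α]]
    exact sp.eq_prod_roots
  · rw [show α i * -(α k * θ k) - α k * -(α i * θ i) = α i * α k * (θ i - θ k) by ring]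
    exact mul_ne_zero (mul_ne_zero (a0 i) (a0 k)) (sub_ne_zero.2 (inj.ne hik))

/-- the constants of a curve -/
theorem kp (S : Sys) {g : ℕ} {F : Qb[X]} (h : VD.Sv g F) :
    ∃ (α β : Fin (2 * g + 2) → Qb) (κ : Pc → ℝ), (∀ v, Lc g (S.w v) (κ v) α β F) ∧ 2 ≤ κ none ∧
      ∀ᶠ v in cofinite, κ v = 1 := by
  classical
  obtain ⟨α, β, e, hs⟩ := fac h
  obtain ⟨κ, k1, k2, k3, k4⟩ := kap S (insert 2⁻¹ (univ.image α ∪ univ.image β ∪
    univ.image fun x : Fin (2 * g + 2) × Fin (2 * g + 2) => (α x.1 * β x.2 - α x.2 * β x.1)⁻¹))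
  have iv : ∀ v (y : Qb), y ≠ 0 → S.w v y⁻¹ ≤ κ v → 1 ≤ κ v * S.w v y := fun v y h0 hy => by
    rwa [map_inv₀, inv_le_iff_one_le_mul₀ ((S.w v).pos h0)] at hy
  refine ⟨α, β, κ, fun v => ⟨h, e, Fintype.card_fin _, k1 v,
    iv v 2 two_ne_zero (k2 v _ (mem_insert_self _ _)), fun i => ⟨k2 v _ ?_, k2 v _ ?_⟩,
    fun i k hik => iv v _ (hs i k hik) (k2 v _ ?_)⟩, k3, k4⟩
  · exact mem_insert_of_mem (mem_union_left _ (mem_union_left _ (mem_image_of_mem _ (mem_univ i))))
  · exact mem_insert_of_mem (mem_union_left _ (mem_union_right _ (mem_image_of_mem _ (mem_univ i))))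
  · exact mem_insert_of_mem (mem_union_right _ (mem_image.2 ⟨(i, k), mem_univ _, rfl⟩))

end Pool.Agent.MP_a43263_nt.VW
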