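import Pool.Agent.MP_a43263_nt.VW.Spec
import Pool.Agent.MP_a43263_nt.VW.Kp

set_option autoImplicit false

namespace Pool.Agent.MP_a43263_nt.VW

theorem kapS : KAPStmt := fun S _ _ h =>
  let ⟨α, β, κ, a, _, b⟩ := kp S h
  ⟨κ, ⟨α, β, a⟩, b⟩

end Pool.Agent.MP_a43263_nt.VW
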